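import Mathlib

/-!
# Derivations of a field which normalise another derivation

Let `M ⊆ L` be an algebraic extension of fields of characteristic zero and `D` a derivation of `L`
which maps `M` to itself.  A derivative `D a` which lies in `M` is the derivative of an element
of `M`.
-/

set_option autoImplicit false
set_option linter.style.haveILetI false

open Polynomial

namespace Pool.Agent.E8helper43.KE

variable {k L : Type*} [Field k] [Field L] [CharZero L] [Algebra k L]

/-- the restriction of a derivation to a stable subfield -/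
noncomputable def restr (M : IntermediateField k L) (D : Derivation k L L)
    (hD : ∀ x ∈ M, D x ∈ M) : Derivation ℤ M M :=
  Derivation.mk' (AddMonoidHom.toIntLinearMap
    { toFun := fun x => (⟨D x, hD x x.2⟩ : M)
      map_zero' := by apply Subtype.ext; exact map_zero D
      map_add' := fun x y => by apply Subtype.ext; exact map_add D (x : L) (y : L) })
    (fun x y => by apply Subtype.ext; exact D.leibniz (x : L) (y : L))

/-- a derivative in a stable subfield over which the primitive is algebraic has a primitive
in the subfield -/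
theorem prim_mem (M : IntermediateField k L) (D : Derivation k L L) (hD : ∀ x ∈ M, D x ∈ M)
    (a : L) (ha : IsAlgebraic M a) (hDa : D a ∈ M) : ∃ b ∈ M, D b = D a := by
  letI : Differential M := ⟨restr M D hD⟩
  letI : Differential L := ⟨D.restrictScalars ℤ⟩
  haveI : DifferentialAlgebra M L := ⟨fun _ => rfl⟩
  have hder : ∀ x : L, Differential.deriv x = D x := fun _ => rfl
  have hderM : ∀ x : M, ((Differential.deriv x : M) : L) = D x := fun _ => rfl
  have hint : IsIntegral M a := ha.isIntegral
  set P := minpoly M a with hP
  have hmon : P.Monic := minpoly.monic hint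
  have hn : 0 < P.natDegree := minpoly.natDegree_pos hint
  set R : Polynomial M := Differential.mapCoeffs P + C (⟨D a, hDa⟩ : M) * derivative P with hR
  have hRa : aeval a R = 0 := by
    have h1 := Differential.deriv_aeval_eq (A := M) a P
    rw [minpoly.aeval, hder, map_zero, hder] at h1
    rw [hR, map_add, map_mul, aeval_C, h1, mul_comm (aeval a (derivative P))]
    rfl
  have hcoeff : ∀ i, P.natDegree ≤ i → R.coeff i = 0 := by
    intro i hi
    rw [hR, coeff_add, coeff_C_mul, coeff_derivative, Differential.coeff_mapCoeffs]
    have h2 : P.coeff (i + 1) = 0 := coeff_eq_zero_of_natDegree_lt (by omega)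
    rw [h2, zero_mul, mul_zero, add_zero]
    rcases hi.eq_or_lt with h3 | h3
    · rw [← h3, hmon.coeff_natDegree]
      exact (Differential.deriv : Derivation ℤ M M).map_one_eq_zero
    · rw [coeff_eq_zero_of_natDegree_lt h3, map_zero]
  have hR0 : R = 0 := by
    by_contra hne
    have h4 : P.natDegree ≤ R.natDegree := natDegree_le_of_dvd (minpoly.dvd M a hRa) hne
    exact (leadingCoeff_ne_zero.2 hne) (hcoeff _ h4)
  have h5 := congrArg (fun q => coeff q (P.natDegree - 1)) hR0
  simp only [coeff_zero] at h5
  rw [hR, coeff_add, coeff_C_mul, coeff_derivative, Differential.coeff_mapCoeffs] at h5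
  have h6 : P.natDegree - 1 + 1 = P.natDegree := by omega
  rw [h6, hmon.coeff_natDegree, one_mul] at h5
  have h7 := congrArg (fun x : M => (x : L)) h5
  set s : M := P.coeff (P.natDegree - 1) with hs
  have h8 : D (s : L) + D a * (P.natDegree : L) = 0 := by
    have h9 : ((P.natDegree - 1 : ℕ) : L) + 1 = (P.natDegree : L) := by
      rw [← h6]; push_cast; simp
    rw [← h9]
    exact h7
  have hn0 : (P.natDegree : L) ≠ 0 := Nat.cast_ne_zero.2 hn.ne'
  refine ⟨-(s : L) / (P.natDegree : L), ?_, ?_⟩
  · exact div_mem (neg_mem s.2) (natCast_mem M _)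
  · have h10 : D ((P.natDegree : L)) = 0 := D.map_natCast P.natDegree
    have h12 : -(s : L) / (P.natDegree : L) * (P.natDegree : L) = -(s : L) := div_mul_cancel₀ _ hn0
    have h13 := congrArg D h12
    rw [Derivation.leibniz, h10, smul_zero, zero_add, map_neg, smul_eq_mul] at h13
    apply mul_left_cancel₀ hn0
    rw [h13]
    linear_combination -h8

/-- The main principle: `D` maps `M` to itself, its constants lie in `M`, `[E, D] = σ D` with
`σ ∈ M`, and there is `a` such that `E - a D` maps `M` to itself. Then `E` maps `M` to itself. -/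
theorem stable_of_comm (M : IntermediateField k L) (D E : Derivation k L L)
    (hD : ∀ x ∈ M, D x ∈ M) (hker : ∀ x, D x = 0 → x ∈ M) (halg : ∀ x : L, IsAlgebraic M x)
    (σ : L) (hσ : σ ∈ M) (hcomm : ∀ x, E (D x) - D (E x) = σ * D x)
    (a : L) (ha : ∀ x ∈ M, E x - a * D x ∈ M) (u : L) (hu : u ∈ M) (hDu : D u ≠ 0) :
    ∀ x ∈ M, E x ∈ M := by
  have h1 : D a ∈ M := by
    have e1 : E (D u) - a * D (D u) ∈ M := ha _ (hD u hu)
    have e2 : D (E u - a * D u) ∈ M := hD _ (ha u hu)
    have e3 : D (E u - a * D u) = D (E u) - (a * D (D u) + D u * D a) := by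
      rw [map_sub, Derivation.leibniz]; rfl
    have e4 : D a = ((E (D u) - a * D (D u)) - D (E u - a * D u) - σ * D u) / D u := by
      rw [e3]
      rw [eq_div_iff hDu]
      linear_combination -(hcomm u)
    rw [e4]
    exact div_mem (sub_mem (sub_mem e1 e2) (mul_mem hσ (hD u hu))) (hD u hu)
  obtain ⟨b, hb, hb2⟩ := prim_mem M D hD a (halg a) h1
  have h2 : a - b ∈ M := hker _ (by rw [map_sub, hb2, sub_self])
  have h3 : a ∈ M := by
    have : a = (a - b) + b := by ring
    rw [this]
    exact add_mem h2 hb
  intro x hx
  have h4 : E x = (E x - a * D x) + a * D x := by ring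
  rw [h4]
  exact add_mem (ha x hx) (mul_mem h3 (hD x hx))

end Pool.Agent.E8helper43.KE
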