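import Pool.Agent.H928R2.PenKer
import Pool.Agent.H922R2.K24
import Pool.Agent.E8helper43.KE.Prim

/-!
# The field of a plane Keller map is stable under the derivations which normalise
the Hamiltonian field of an element of its algebra
-/

set_option autoImplicit false
set_option linter.unusedSectionVars false

open MvPolynomial Pool.Agent.H928R2.Inv Pool.Agent.H928R2.Pen Pool.Agent.H922R2

namespace Pool.Agent.E8helper43.KE

section
variable {k : Type*} [Field k] [CharZero k]

/-- the Hamiltonian derivation `J(c, ·)` on rational functions -/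
noncomputable def HK (c : PP k) : Derivation k (KK k) (KK k) := DK (pderiv 0 c) (pderiv 1 c)

theorem HK_coe (c f : PP k) : HK c (ιK k f) = ιK k (DJ c f) := by
  rw [HK, DK_coe, dd_apply, DJ_apply]

/-- a derivation of the field of rational functions vanishes if it vanishes on the coordinates -/
theorem der_zero (T : Derivation k (KK k) (KK k)) (h : ∀ i : Fin 2, T (ιK k (X i)) = 0) (x : KK k) :
    T x = 0 := by
  have h0 : ∀ p : PP k, T (ιK k p) = 0 := by
    intro p
    have e1 : ιK k p = aeval (fun i : Fin 2 => ιK k (X i)) p := by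
      have : (ιK k : PP k →ₐ[k] KK k) = aeval (fun i : Fin 2 => ιK k (X i)) := by
        apply MvPolynomial.algHom_ext
        intro i
        rw [aeval_X]
      exact congrArg (fun φ => φ p) this
    rw [e1, deriv_aeval]
    apply Finset.sum_eq_zero
    intro i _
    rw [h, mul_zero]
  obtain ⟨P, Q, -, hQ, rfl⟩ := exists_reduced x
  rw [Derivation.leibniz_div, h0, h0]
  simp

/-- a derivation which maps the components of `F` into `k(F)` maps `k(F)` into itself -/
theorem fF_stable (F : Fin 2 → PP k) (T : Derivation k (KK k) (KK k))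
    (h : ∀ i, T (ιK k (F i)) ∈ fF (KK k) F) : ∀ x ∈ fF (KK k) F, T x ∈ fF (KK k) F := by
  intro x hx
  unfold fF at hx
  induction hx using IntermediateField.adjoin_induction with
  | mem x hx =>
    obtain ⟨i, rfl⟩ := hx
    exact h i
  | algebraMap x => rw [T.map_algebraMap]; exact zero_mem _
  | add x y _ _ hx hy => rw [map_add]; exact add_mem hx hy
  | inv x hx' hx =>
    have hx'' : x ∈ fF (KK k) F := hx'
    rw [Derivation.leibniz_inv, smul_eq_mul]
    refine mul_mem (neg_mem (pow_mem (inv_mem hx'') 2)) hx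
  | mul x y hx' hy' hx hy =>
    have hx'' : x ∈ fF (KK k) F := hx'
    have hy'' : y ∈ fF (KK k) F := hy'
    rw [Derivation.leibniz, smul_eq_mul, smul_eq_mul]
    exact add_mem (mul_mem hx'' hy) (mul_mem hy'' hx)

theorem ι_mem_fF (F : Fin 2 → PP k) (s : PP k) (hs : s ∈ SS F) : ιK k s ∈ fF (KK k) F := by
  obtain ⟨p, rfl⟩ := hs
  exact iK_mem (KK k) F p

theorem HK_stable (F : Fin 2 → PP k) (hJ : IsUnit (Matrix.det (jac F))) (c : PP k) (hc : c ∈ SS F) :
    ∀ x ∈ fF (KK k) F, HK c x ∈ fF (KK k) F := by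
  apply fF_stable
  intro i
  rw [HK_coe]
  apply ι_mem_fF
  exact DJ_mem F hJ hc ⟨X i, by simp⟩

theorem der_aeval (F : Fin 2 → PP k) (T : Derivation k (KK k) (KK k)) (q : PP k) :
    T (ιK k (aeval F q)) = ιK k (aeval F (pderiv 0 q)) * T (ιK k (F 0)) +
      ιK k (aeval F (pderiv 1 q)) * T (ιK k (F 1)) := by
  have h : ∀ p : PP k, ιK k (aeval F p) = aeval (fun i => ιK k (F i)) p := by
    intro p
    have e : ((ιK k).comp (aeval F) : PP k →ₐ[k] KK k) = aeval (fun i => ιK k (F i)) := by
      apply MvPolynomial.algHom_ext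
      intro i
      rw [AlgHom.comp_apply, aeval_X, aeval_X]
    exact congrArg (fun φ => φ p) e
  rw [h, deriv_aeval, Fin.sum_univ_two, ← h, ← h]

/-- The principle for plane Keller maps: a derivation `E` with `E c ∈ k(F)` which normalises the
Hamiltonian field of `c ∈ k[F]`, the constants of which lie in `k(F)`, maps `k(F)` to itself. -/
theorem main_stable (F : Fin 2 → PP k) (hJ : IsUnit (Matrix.det (jac F)))
    (q : PP k) (E : Derivation k (KK k) (KK k)) (hEc : E (ιK k (aeval F q)) ∈ fF (KK k) F)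
    (hnc : ∀ a : k, aeval F q ≠ C a)
    (hker : ∀ x, HK (aeval F q) x = 0 → x ∈ fF (KK k) F)
    (σ : KK k) (hσ : σ ∈ fF (KK k) F)
    (hcomm : ∀ x, E (HK (aeval F q) x) - HK (aeval F q) (E x) = σ * HK (aeval F q) x) :
    ∀ x ∈ fF (KK k) F, E x ∈ fF (KK k) F := by
  set c := aeval F q with hc
  have hcS : c ∈ SS F := ⟨q, rfl⟩
  have hFS : ∀ i, F i ∈ SS F := fun i => ⟨X i, by simp⟩
  have halg : ∀ x : KK k, IsAlgebraic (fF (KK k) F) x := by
    have := finDim_fF (KK k) F hJ
    intro x
    exact Algebra.IsAlgebraic.isAlgebraic x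
  have hinj := aeval_injective F hJ
  -- the jacobian determinant
  obtain ⟨δ, hδ0, hδ⟩ : ∃ δ : k, δ ≠ 0 ∧ DJ (F 0) (F 1) = C δ := by
    rw [det_jac] at hJ
    obtain ⟨δ, hδ0, hδ⟩ := MvPolynomial.isUnit_iff_eq_C_of_isReduced.1 hJ
    exact ⟨δ, hδ0.ne_zero, hδ⟩
  have hδ' : DJ (F 1) (F 0) = -C δ := by
    rw [← hδ, DJ_apply, DJ_apply]; ring
  have hself : ∀ f : PP k, DJ f f = 0 := DJ_self
  -- the values on the components
  have e0 : HK c (ιK k (F 0)) = -(ιK k (aeval F (pderiv 1 q)) * ιK k (C δ)) := by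
    rw [HK_coe, ← map_mul, ← map_neg]
    congr 1
    have h1 : DJ c (F 0) = - DJ (F 0) c := by rw [DJ_apply, DJ_apply]; ring
    rw [h1, hc, deriv_aeval, Fin.sum_univ_two, hself, hδ]
    ring
  have e1 : HK c (ιK k (F 1)) = ιK k (aeval F (pderiv 0 q)) * ιK k (C δ) := by
    rw [HK_coe, ← map_mul]
    congr 1
    have h1 : DJ c (F 1) = - DJ (F 1) c := by rw [DJ_apply, DJ_apply]; ring
    rw [h1, hc, deriv_aeval, Fin.sum_univ_two, hself, hδ']
    ring
  have hC0 : ιK k (C δ) ≠ 0 := ι_ne (by rw [Ne, C_eq_zero]; exact hδ0)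
  have hHc : HK c (ιK k c) = 0 := by rw [HK_coe, hself, map_zero]
  have hmemP : ∀ p : PP k, ιK k (aeval F p) ∈ fF (KK k) F := fun p => ι_mem_fF F _ ⟨p, rfl⟩
  by_cases hq1 : pderiv 1 q = 0
  · have hq0 : pderiv 0 q ≠ 0 := by
      intro h0
      obtain ⟨a, ha⟩ := eq_C_of_pderiv q h0 hq1
      apply hnc a
      rw [hc, ha, ← MvPolynomial.algebraMap_eq, AlgHom.commutes]
    have hA : ιK k (aeval F (pderiv 0 q)) ≠ 0 := by
      apply ι_ne
      rw [Ne, map_eq_zero_iff _ hinj]
      exact hq0
    have hu : HK c (ιK k (F 1)) ≠ 0 := by rw [e1]; exact mul_ne_zero hA hC0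
    refine stable_of_comm (fF (KK k) F) (HK c) E (HK_stable F hJ c hcS) hker halg σ hσ hcomm
      (E (ιK k (F 1)) / HK c (ιK k (F 1))) ?_ (ιK k (F 1)) (ι_mem_fF F _ (hFS 1)) hu
    set a := E (ιK k (F 1)) / HK c (ιK k (F 1)) with ha
    have h1 : (E - a • HK c) (ιK k (F 1)) = 0 := by
      rw [Derivation.sub_apply, Derivation.smul_apply, smul_eq_mul, ha, div_mul_cancel₀ _ hu,
        sub_self]
    have h2 : (E - a • HK c) (ιK k c) = E (ιK k c) := by
      rw [Derivation.sub_apply, Derivation.smul_apply, hHc, smul_zero, sub_zero]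
    have h3 := fF_stable F (E - a • HK c) (by
      intro i
      fin_cases i
      · have h4 := der_aeval F (E - a • HK c) q
        rw [← hc, h2] at h4
        have h5 : (E - a • HK c) (ιK k (F 0)) = E (ιK k c) / ιK k (aeval F (pderiv 0 q)) := by
          rw [eq_div_iff hA]
          rw [h4, h1]; ring
        show (E - a • HK c) (ιK k (F 0)) ∈ _
        rw [h5]
        exact div_mem hEc (hmemP _)
      · show (E - a • HK c) (ιK k (F 1)) ∈ _
        rw [h1]; exact zero_mem _)
    intro x hx
    have := h3 x hx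
    rwa [Derivation.sub_apply, Derivation.smul_apply, smul_eq_mul] at this
  · have hB : ιK k (aeval F (pderiv 1 q)) ≠ 0 := by
      apply ι_ne
      rw [Ne, map_eq_zero_iff _ hinj]
      exact hq1
    have hu : HK c (ιK k (F 0)) ≠ 0 := by rw [e0]; exact neg_ne_zero.2 (mul_ne_zero hB hC0)
    refine stable_of_comm (fF (KK k) F) (HK c) E (HK_stable F hJ c hcS) hker halg σ hσ hcomm
      (E (ιK k (F 0)) / HK c (ιK k (F 0))) ?_ (ιK k (F 0)) (ι_mem_fF F _ (hFS 0)) hu
    set a := E (ιK k (F 0)) / HK c (ιK k (F 0)) with ha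
    have h1 : (E - a • HK c) (ιK k (F 0)) = 0 := by
      rw [Derivation.sub_apply, Derivation.smul_apply, smul_eq_mul, ha, div_mul_cancel₀ _ hu,
        sub_self]
    have h2 : (E - a • HK c) (ιK k c) = E (ιK k c) := by
      rw [Derivation.sub_apply, Derivation.smul_apply, hHc, smul_zero, sub_zero]
    have h3 := fF_stable F (E - a • HK c) (by
      intro i
      fin_cases i
      · show (E - a • HK c) (ιK k (F 0)) ∈ _
        rw [h1]; exact zero_mem _
      · have h4 := der_aeval F (E - a • HK c) q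
        rw [← hc, h2] at h4
        have h5 : (E - a • HK c) (ιK k (F 1)) = E (ιK k c) / ιK k (aeval F (pderiv 1 q)) := by
          rw [eq_div_iff hB]
          rw [h4, h1]; ring
        show (E - a • HK c) (ιK k (F 1)) ∈ _
        rw [h5]
        exact div_mem hEc (hmemP _))
    intro x hx
    have := h3 x hx
    rwa [Derivation.sub_apply, Derivation.smul_apply, smul_eq_mul] at this

end

end Pool.Agent.E8helper43.KE
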