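import Pool.Agent.E8helper43.KE.Lf

/-!
# Plane Keller maps and foliations by the orbits of algebraic groups
-/

set_option autoImplicit false
set_option linter.unusedSectionVars false

open MvPolynomial Pool.Agent.H928R2.Inv Pool.Agent.H928R2.Pen Pool.Agent.H922R2

namespace Pool.Agent.E8helper43.KE

section
variable {k : Type*} [Field k] [CharZero k]

/-- the polynomial vector field `P ∂_x + Q ∂_y` -/
noncomputable def vf (P Q : PP k) : Derivation k (PP k) (PP k) := P • pderiv 0 + Q • pderiv 1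

theorem vf_apply (P Q f : PP k) : vf P Q f = P * pderiv 0 f + Q * pderiv 1 f := rfl

theorem vf_mem (F : Fin 2 → PP k) (P Q : PP k) (h : ∀ i, vf P Q (F i) ∈ SS F) (s : PP k)
    (hs : s ∈ SS F) : vf P Q s ∈ SS F := by
  obtain ⟨p, rfl⟩ := hs
  show vf P Q (aeval F p) ∈ _
  rw [deriv_aeval, Fin.sum_univ_two]
  exact add_mem (mul_mem ⟨_, rfl⟩ (h 0)) (mul_mem ⟨_, rfl⟩ (h 1))

/-- the jacobian determinant as a constant -/
theorem exists_det (F : Fin 2 → PP k) (hJ : IsUnit (Matrix.det (jac F))) :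
    ∃ δ : k, δ ≠ 0 ∧ pderiv 0 (F 0) * pderiv 1 (F 1) - pderiv 1 (F 0) * pderiv 0 (F 1) = C δ := by
  rw [det_jac, DJ_apply] at hJ
  exact (isUnit_iff_C _).1 hJ

theorem mem_of_mul (F : Fin 2 → PP k) (hJ : IsUnit (Matrix.det (jac F))) {V D N : PP k}
    (hD : D ∈ SS F) (hD0 : D ≠ 0) (hN : N ∈ SS F) (h : V * D = N) : V ∈ SS F := by
  apply mem_SS_of_mem_fF (KK k) F hJ
  show ιK k V ∈ _
  have h1 : ιK k V = ιK k N / ιK k D := by
    rw [eq_div_iff (ι_ne hD0), ← map_mul, h]
  rw [h1]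
  exact div_mem (ι_mem_fF F _ hN) (ι_mem_fF F _ hD)

/-- a vector field with isolated zeros the foliation of which is an inverse image preserves
`k[F]` -/
theorem vf_mem_of_fol (F : Fin 2 → PP k) (hJ : IsUnit (Matrix.det (jac F))) (P Q : PP k)
    (hco : IsRelPrime P Q) (a b : PP k) (hab : a ≠ 0 ∨ b ≠ 0)
    (h : vf P Q (F 0) * aeval F b = vf P Q (F 1) * aeval F a) : ∀ i, vf P Q (F i) ∈ SS F := by
  obtain ⟨δ, hδ0, hδ⟩ := exists_det F hJ
  have hδ1 : (C δ * C δ⁻¹ : PP k) = 1 := by rw [← C_mul, mul_inv_cancel₀ hδ0, C_1]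
  have hcoD : IsRelPrime (vf P Q (F 0)) (vf P Q (F 1)) := by
    intro z hz0 hz1
    apply hco
    · have h1 : P = C δ⁻¹ * (vf P Q (F 0) * pderiv 1 (F 1) - vf P Q (F 1) * pderiv 1 (F 0)) := by
        rw [vf_apply, vf_apply]
        linear_combination (-P) * hδ1 + (-(C δ⁻¹ * P)) * hδ
      rw [h1]
      exact Dvd.dvd.mul_left (dvd_sub (Dvd.dvd.mul_right hz0 _) (Dvd.dvd.mul_right hz1 _)) _
    · have h1 : Q = C δ⁻¹ * (vf P Q (F 1) * pderiv 0 (F 0) - vf P Q (F 0) * pderiv 0 (F 1)) := by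
        rw [vf_apply, vf_apply]
        linear_combination (-Q) * hδ1 + (-(C δ⁻¹ * Q)) * hδ
      rw [h1]
      exact Dvd.dvd.mul_left (dvd_sub (Dvd.dvd.mul_right hz1 _) (Dvd.dvd.mul_right hz0 _)) _
  by_cases hb : b = 0
  · have ha : a ≠ 0 := hab.resolve_right (by simpa using hb)
    rw [hb, map_zero, mul_zero] at h
    have h1 : vf P Q (F 1) = 0 :=
      (mul_eq_zero.1 h.symm).resolve_right (aeval_unit F hJ ha)
    have h2 : IsUnit (vf P Q (F 0)) := hcoD dvd_rfl (by rw [h1]; exact dvd_zero _)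
    obtain ⟨c, -, hc⟩ := (isUnit_iff_C _).1 h2
    intro i
    fin_cases i
    · show vf P Q (F 0) ∈ _
      rw [hc]; exact C_mem_SS F c
    · show vf P Q (F 1) ∈ _
      rw [h1]; exact zero_mem _
  · obtain ⟨a', b', g, hco', rfl, rfl⟩ := UniqueFactorizationMonoid.exists_reduced_factors' a b hb
    have hg : aeval F g ≠ 0 := aeval_unit F hJ (left_ne_zero_of_mul hb)
    have h1 : vf P Q (F 0) * aeval F b' = vf P Q (F 1) * aeval F a' := by
      apply mul_left_cancel₀ hg
      rw [map_mul, map_mul] at h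
      linear_combination h
    obtain ⟨u, hu, h2, h3⟩ := assoc_pairs hcoD (relprime_map F hJ hco') h1
    obtain ⟨c, -, rfl⟩ := (isUnit_iff_C u).1 hu
    intro i
    fin_cases i
    · show vf P Q (F 0) ∈ _
      rw [h2]; exact mul_mem (C_mem_SS F c) ⟨a', rfl⟩
    · show vf P Q (F 1) ∈ _
      rw [h3]; exact mul_mem (C_mem_SS F c) ⟨b', rfl⟩

/-- the divergence of a vector field which preserves `k[F]` lies in `k[F]` -/
theorem div_mem' (F : Fin 2 → PP k) (hJ : IsUnit (Matrix.det (jac F))) (P Q : PP k)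
    (h : ∀ i, vf P Q (F i) ∈ SS F) : pderiv 0 P + pderiv 1 Q ∈ SS F := by
  obtain ⟨δ, hδ0, hδ⟩ := exists_det F hJ
  have hF : ∀ i, F i ∈ SS F := fun i => ⟨X i, by simp⟩
  have h0 := congrArg (pderiv (0 : Fin 2)) hδ
  have h1 := congrArg (pderiv (1 : Fin 2)) hδ
  simp only [map_sub, Derivation.leibniz, smul_eq_mul, pderiv_C, pderiv_comm01] at h0 h1
  have h2 : (pderiv 0 P + pderiv 1 Q) * C δ = DJ (vf P Q (F 0)) (F 1) + DJ (F 0) (vf P Q (F 1)) := by
    rw [DJ_apply, DJ_apply, vf_apply, vf_apply, ← hδ]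
    simp only [map_add, Derivation.leibniz, smul_eq_mul, pderiv_comm01]
    linear_combination (-P) * h0 - Q * h1
  refine mem_of_mul F hJ (C_mem_SS F δ) (by rw [Ne, C_eq_zero]; exact hδ0) ?_ h2
  exact add_mem (DJ_mem F hJ (h 0) (hF 1)) (DJ_mem F hJ (hF 0) (h 1))

/-- normal forms of the locally finite vector fields on the plane (up to a factor in `k[x]` in the
first case) -/
def NF (P Q : PP k) : Prop :=
  (P = 0 ∧ Q = 1) ∨ (∃ p q : k, (p ≠ 0 ∨ q ≠ 0) ∧ P = C p * X 0 ∧ Q = C q * X 1) ∨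
  (∃ β : k, P = 1 ∧ Q = C β * X 1) ∨
  (∃ m : ℕ, 1 ≤ m ∧ P = X 0 ∧ Q = C (m : k) * X 1 + X 0 ^ m)

theorem cf_vf4 (m : ℕ) (f : PP k) (s t : ℕ) :
    cf (vf (X 0) (C (m : k) * X 1 + X 0 ^ m) f) (s + m) t =
      ((s + m : ℕ) + m * t : k) * cf f (s + m) t + (t + 1) * cf f s (t + 1) := by
  have h : vf (X 0) (C (m : k) * X 1 + X 0 ^ m) f =
      X 0 * pderiv 0 f + C (m : k) * (X 1 * pderiv 1 f) + X 0 ^ m * pderiv 1 f := by
    rw [vf_apply]; ring
  rw [h, cf_add, cf_add, cf_C_mul, cf_xpd, cf_ypd, cf_pow_mul, cf_pd1]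
  push_cast; ring

theorem cf_vf4_lt (m : ℕ) (f : PP k) (s t : ℕ) (hs : s < m) :
    cf (vf (X 0) (C (m : k) * X 1 + X 0 ^ m) f) s t = (s + m * t : k) * cf f s t := by
  have h : vf (X 0) (C (m : k) * X 1 + X 0 ^ m) f =
      X 0 * pderiv 0 f + C (m : k) * (X 1 * pderiv 1 f) + X 0 ^ m * pderiv 1 f := by
    rw [vf_apply]; ring
  rw [h, cf_add, cf_add, cf_C_mul, cf_xpd, cf_ypd, cf_pow_mul_lt _ _ _ _ hs]
  ring

theorem cf_vf3 (β : k) (f : PP k) (s t : ℕ) :
    cf (vf 1 (C β * X 1) f) s t = (s + 1) * cf f (s + 1) t + β * t * cf f s t := by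
  have h : vf 1 (C β * X 1) f = pderiv 0 f + C β * (X 1 * pderiv 1 f) := by
    rw [vf_apply]; ring
  rw [h, cf_add, cf_C_mul, cf_ypd, cf_pd0]
  ring

theorem cf_vf2 (p q : k) (f : PP k) (s t : ℕ) :
    cf (vf (C p * X 0) (C q * X 1) f) s t = (p * s + q * t) * cf f s t := by
  have h : vf (C p * X 0) (C q * X 1) f = C p * (X 0 * pderiv 0 f) + C q * (X 1 * pderiv 1 f) := by
    rw [vf_apply]; ring
  rw [h, cf_add, cf_C_mul, cf_C_mul, cf_xpd, cf_ypd]
  ring

theorem NF.stable {P Q : PP k} (h : NF P Q) :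
    ∃ m, 1 ≤ m ∧ ∀ n, ∀ f ∈ WW k m n, vf P Q f ∈ WW k m n := by
  rcases h with ⟨rfl, rfl⟩ | ⟨p, q, -, rfl, rfl⟩ | ⟨β, rfl, rfl⟩ | ⟨m, hm, rfl, rfl⟩
  · refine ⟨1, le_rfl, fun n f hf s t hst => ?_⟩
    rw [vf_apply, zero_mul, zero_add, one_mul, cf_pd1, hf s (t + 1) (by omega), mul_zero]
  · refine ⟨1, le_rfl, fun n f hf s t hst => ?_⟩
    rw [cf_vf2, hf s t hst, mul_zero]
  · refine ⟨1, le_rfl, fun n f hf s t hst => ?_⟩
    rw [cf_vf3, hf s t hst, hf (s + 1) t (by omega)]
    ring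
  · refine ⟨m, hm, fun n f hf s t hst => ?_⟩
    by_cases hs : s < m
    · rw [cf_vf4_lt _ _ _ _ hs, hf s t hst, mul_zero]
    · obtain ⟨s', rfl⟩ := Nat.exists_eq_add_of_le' (not_lt.1 hs)
      rw [cf_vf4, hf _ t hst, hf s' (t + 1) (by
        have : m * (t + 1) = m * t + m := by ring
        omega)]
      ring

end

section
variable {k : Type*} [Field k] [CharZero k] [IsAlgClosed k]

theorem pd_zero_top (F : Fin 2 → PP k) (hJ : IsUnit (Matrix.det (jac F))) (v : PP k)
    (hv : v ∈ SS F) (hvc : ∀ a : k, v ≠ C a) (h : pderiv 1 v = 0) : SS F = ⊤ := by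
  obtain ⟨R, hR⟩ := exists_ux h
  exact top_of_ux F hJ ⟨R, natDegree_pos_of_ux hvc hR, hR ▸ hv⟩

/-- an affine eigenvector of a normal form in `k[F]` -/
theorem NF.top {P Q : PP k} (h : NF P Q) (F : Fin 2 → PP k) (hJ : IsUnit (Matrix.det (jac F)))
    (v : PP k) (hv : v ∈ SS F) (hvc : ∀ a : k, v ≠ C a) (l μ : k)
    (hE : vf P Q v = C l * v + C μ) : SS F = ⊤ := by
  classical
  have hcf : ∀ s t, cf (vf P Q v) s t = l * cf v s t + cf (C μ : PP k) s t := by
    intro s t
    rw [hE, cf_add, cf_C_mul]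
  rcases h with ⟨rfl, rfl⟩ | ⟨p, q, hpq, rfl, rfl⟩ | ⟨β, rfl, rfl⟩ | ⟨m, hm, rfl, rfl⟩
  · -- `∂_y`
    have h1 : pderiv 1 v = C l * v + C μ := by
      rw [← hE, vf_apply, zero_mul, zero_add, one_mul]
    by_cases hl : l = 0
    · subst hl
      rw [C_0, zero_mul, zero_add] at h1
      by_cases hμ : μ = 0
      · subst hμ
        exact pd_zero_top F hJ v hv hvc (by rw [h1, C_0])
      · have h2 : pderiv 1 (v - C μ * X 1) = 0 := by
          rw [map_sub, h1, pderiv_C_mul, pderiv_X_self, mul_one, sub_self]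
        obtain ⟨R, hR⟩ := exists_ux h2
        apply top_of_liny F hJ hμ R
        rw [← hR]
        have h3 : C μ * X 1 + (v - C μ * X 1) = v := by ring
        rw [h3]; exact hv
    · exfalso
      have h2 : pderiv 1 (v + C (μ / l)) = C l * (v + C (μ / l)) := by
        rw [map_add, pderiv_C, add_zero, h1, mul_add, ← C_mul, mul_div_cancel₀ _ hl]
      have h3 : v + C (μ / l) ≠ 0 := by
        intro h4
        apply hvc (-(μ / l))
        rw [C_neg]
        linear_combination h4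
      have h4 : pderiv 1 (v + C (μ / l)) ≠ 0 := by
        rw [h2]
        exact mul_ne_zero (by rw [Ne, C_eq_zero]; exact hl) h3
      have h5 := totalDegree_pderiv_lt _ _ h4
      rw [h2, totalDegree_mul_of_isDomain (by rw [Ne, C_eq_zero]; exact hl) h3] at h5
      omega
  · -- diagonal
    obtain ⟨s0, t0, hst, hcf0⟩ : ∃ s t, (s ≠ 0 ∨ t ≠ 0) ∧ cf v s t ≠ 0 := by
      by_contra hcon
      push Not at hcon
      apply hvc (cf v 0 0)
      apply cf_ext
      intro s t
      by_cases h0 : s ≠ 0 ∨ t ≠ 0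
      · rw [cf_C_ne _ h0, hcon s t h0]
      · push Not at h0
        rw [h0.1, h0.2, cf_C, if_pos ⟨rfl, rfl⟩]
    have hl : ∀ s t, (s ≠ 0 ∨ t ≠ 0) → cf v s t ≠ 0 → p * s + q * t = l := by
      intro s t h0 h1
      have h2 := hcf s t
      rw [cf_vf2, cf_C_ne _ h0, add_zero] at h2
      exact mul_right_cancel₀ h1 h2
    set v' := v - C (cf v 0 0) with hv'
    have hcf' : ∀ s t, cf v' s t ≠ 0 → (s ≠ 0 ∨ t ≠ 0) ∧ cf v s t ≠ 0 := by
      intro s t h0
      rw [hv', cf_sub] at h0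
      by_cases h1 : s ≠ 0 ∨ t ≠ 0
      · rw [cf_C_ne _ h1, sub_zero] at h0
        exact ⟨h1, h0⟩
      · push Not at h1
        rw [h1.1, h1.2, cf_C, if_pos ⟨rfl, rfl⟩, sub_self] at h0
        exact absurd rfl h0
    have hv'S : v' ∈ SS F := sub_mem hv (C_mem_SS F _)
    have hv'c : ∀ a : k, v' ≠ C a := by
      intro a ha
      apply hvc (a + cf v 0 0)
      rw [C_add, ← ha, hv']; ring
    -- integral weights
    obtain ⟨w, hw, hwt⟩ : ∃ w : Fin 2 → ℤ, w ≠ 0 ∧ ∀ s t, cf v' s t ≠ 0 →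
        w 0 * (s : ℤ) + w 1 * (t : ℤ) = w 0 * (s0 : ℤ) + w 1 * (t0 : ℤ) := by
      by_cases hone : ∀ s t, cf v' s t ≠ 0 → s = s0 ∧ t = t0
      · refine ⟨![1, 0], ?_, ?_⟩
        · intro h0
          have := congrFun h0 0
          simp at this
        · intro s t h0
          obtain ⟨rfl, rfl⟩ := hone s t h0
          rfl
      · push Not at hone
        obtain ⟨s1, t1, h1, h1'⟩ := hone
        refine ⟨![-((t1 : ℤ) - t0), (s1 : ℤ) - s0], ?_, ?_⟩
        · intro h0
          have e0 := congrFun h0 0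
          have e1 := congrFun h0 1
          simp only [Matrix.cons_val_zero, Matrix.cons_val_one, Pi.zero_apply] at e0 e1
          exact h1' (by omega) (by omega)
        · intro s t h2
          simp only [Matrix.cons_val_zero, Matrix.cons_val_one]
          have a1 := hl s0 t0 hst hcf0
          have a2 := hl s1 t1 (hcf' _ _ h1).1 (hcf' _ _ h1).2
          have a3 := hl s t (hcf' _ _ h2).1 (hcf' _ _ h2).2
          have a4 : (((s1 : ℤ) - s0) * ((t : ℤ) - t0) - ((t1 : ℤ) - t0) * ((s : ℤ) - s0) : ℤ) = 0 := by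
            have a5 : p * (((s1 : k) - s0) * ((t : k) - t0) - ((t1 : k) - t0) * ((s : k) - s0)) = 0 := by
              linear_combination ((t : k) - t0) * (a2 - a1) - ((t1 : k) - t0) * (a3 - a1)
            have a6 : q * (((s1 : k) - s0) * ((t : k) - t0) - ((t1 : k) - t0) * ((s : k) - s0)) = 0 := by
              linear_combination ((s1 : k) - s0) * (a3 - a1) - ((s : k) - s0) * (a2 - a1)
            have a7 : (((s1 : k) - s0) * ((t : k) - t0) - ((t1 : k) - t0) * ((s : k) - s0)) = 0 := by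
              rcases hpq with hp | hq
              · exact (mul_eq_zero.1 a5).resolve_left hp
              · exact (mul_eq_zero.1 a6).resolve_left hq
            exact_mod_cast a7
          linear_combination a4
    apply top_of_qh F hJ w hw v' hv'S hv'c
    intro m1 hm1 m2 hm2
    have hw2 : ∀ m' : Fin 2 →₀ ℕ, m' ∈ v'.support → wtt w m' = w 0 * (s0 : ℤ) + w 1 * (t0 : ℤ) := by
      intro m' hm'
      rw [wtt_two]
      apply hwt
      rw [cf, ← eq_ex]
      exact mem_support_iff.1 hm'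
    rw [hw2 m1 hm1, hw2 m2 hm2]
  · -- `∂_x + β y ∂_y`
    have key : ∀ n s t, v.totalDegree ≤ s + n → 1 ≤ s → (s ≠ 1 ∨ t ≠ 0) → cf v s t = 0 := by
      intro n
      induction n with
      | zero =>
        intro s t hn hs hst
        by_contra hne
        have h1 : (ex s t).sum (fun _ e => e) ≤ v.totalDegree :=
          le_totalDegree (mem_support_iff.2 hne)
        rw [Finsupp.sum_fintype _ _ (fun _ => rfl), Fin.sum_univ_two, ex_zero, ex_one] at h1
        obtain rfl : t = 0 := by omega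
        -- the top monomial `x ^ s`
        have hup : cf v (s + 1) 0 = 0 := by
          by_contra hne2
          have h2 : (ex (s + 1) 0).sum (fun _ e => e) ≤ v.totalDegree :=
            le_totalDegree (mem_support_iff.2 hne2)
          rw [Finsupp.sum_fintype _ _ (fun _ => rfl), Fin.sum_univ_two, ex_zero, ex_one] at h2
          omega
        have h2 := hcf s 0
        rw [cf_vf3, hup, cf_C_ne _ (Or.inl (by omega)), mul_zero, zero_add, add_zero,
          Nat.cast_zero, mul_zero, zero_mul] at h2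
        have hl : l = 0 := (mul_eq_zero.1 h2.symm).resolve_right hne
        obtain ⟨s', rfl⟩ := Nat.exists_eq_add_of_le' hs
        have h3 := hcf s' 0
        rw [cf_vf3, cf_C_ne _ (Or.inl (by omega)), hl] at h3
        simp only [Nat.cast_zero, mul_zero, zero_mul, add_zero] at h3
        exact (mul_ne_zero (by exact_mod_cast Nat.succ_ne_zero s') hne) h3
      | succ n ih =>
        intro s t hn hs hst
        by_contra hne
        have hup : cf v (s + 1) t = 0 := ih (s + 1) t (by omega) (by omega) (Or.inl (by omega))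
        have h2 := hcf s t
        rw [cf_vf3, hup, cf_C_ne _ (Or.inl (by omega)), mul_zero, zero_add, add_zero] at h2
        have hl : β * t = l := mul_right_cancel₀ hne h2
        obtain ⟨s', rfl⟩ := Nat.exists_eq_add_of_le' hs
        have h3 := hcf s' t
        rw [cf_vf3, cf_C_ne _ (by omega), hl, add_zero] at h3
        have h4 : ((s' : k) + 1) * cf v (s' + 1) t = 0 := by linear_combination h3
        exact (mul_ne_zero (by exact_mod_cast Nat.succ_ne_zero s') hne) h4
    have h1 : pderiv 0 (v - C (cf v 1 0) * X 0) = 0 := by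
      apply cf_ext
      intro s t
      have hX : cf (C (cf v 1 0) * X 0 : PP k) (s + 1) t = if s = 0 ∧ t = 0 then cf v 1 0 else 0 := by
        rw [mul_comm, cf_X0_mul, cf_C]
      rw [cf_pd0, cf_sub, hX]
      have h0 : cf (0 : PP k) s t = 0 := coeff_zero _
      rw [h0]
      split_ifs with h2
      · rw [h2.1, h2.2, sub_self, mul_zero]
      · rw [key v.totalDegree (s + 1) t (by omega) (by omega) (by omega), sub_zero, mul_zero]
    obtain ⟨R, hR⟩ := exists_uy h1
    by_cases he : cf v 1 0 = 0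
    · rw [he, C_0, zero_mul, sub_zero] at hR
      exact top_of_uy F hJ ⟨R, natDegree_pos_of_uy hvc hR, hR ▸ hv⟩
    · apply top_of_linx F hJ he R
      rw [← hR]
      have h3 : C (cf v 1 0) * X 0 + (v - C (cf v 1 0) * X 0) = v := by ring
      rw [h3]; exact hv
  · -- `x ∂_x + (m y + x ^ m) ∂_y`
    have key : ∀ n s t, v.totalDegree ≤ t + n → 1 ≤ t → cf v s t = 0 := by
      intro n
      induction n with
      | zero =>
        intro s t hn ht
        by_contra hne
        have h1 : (ex s t).sum (fun _ e => e) ≤ v.totalDegree :=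
          le_totalDegree (mem_support_iff.2 hne)
        rw [Finsupp.sum_fintype _ _ (fun _ => rfl), Fin.sum_univ_two, ex_zero, ex_one] at h1
        obtain rfl : s = 0 := by omega
        have h2 := hcf 0 t
        rw [cf_vf4_lt _ _ _ _ (by omega), cf_C_ne _ (Or.inr (by omega)), add_zero] at h2
        have hl := mul_right_cancel₀ hne h2
        obtain ⟨t', rfl⟩ := Nat.exists_eq_add_of_le' ht
        have h3 := hcf (0 + m) t'
        rw [cf_vf4, cf_C_ne _ (Or.inl (by omega)), ← hl, add_zero] at h3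
        have h4 : ((t' : k) + 1) * cf v 0 (t' + 1) = 0 := by
          push_cast at h3
          linear_combination h3
        exact (mul_ne_zero (by exact_mod_cast Nat.succ_ne_zero t') hne) h4
      | succ n ih =>
        intro s t hn ht
        by_contra hne
        have h2 := hcf s t
        rw [cf_C_ne _ (Or.inr (by omega)), add_zero] at h2
        have hl : (s : k) + m * t = l := by
          by_cases hs : s < m
          · rw [cf_vf4_lt _ _ _ _ hs] at h2
            exact mul_right_cancel₀ hne h2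
          · obtain ⟨s', rfl⟩ := Nat.exists_eq_add_of_le' (not_lt.1 hs)
            rw [cf_vf4, ih s' (t + 1) (by omega) (by omega), mul_zero, add_zero] at h2
            exact mul_right_cancel₀ hne h2
        obtain ⟨t', rfl⟩ := Nat.exists_eq_add_of_le' ht
        have h3 := hcf (s + m) t'
        rw [cf_vf4, cf_C_ne _ (Or.inl (by omega)), ← hl, add_zero] at h3
        have h4 : ((t' : k) + 1) * cf v s (t' + 1) = 0 := by
          push_cast at h3
          linear_combination h3
        exact (mul_ne_zero (by exact_mod_cast Nat.succ_ne_zero t') hne) h4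
    apply pd_zero_top F hJ v hv hvc
    apply cf_ext
    intro s t
    rw [cf_pd1, key v.totalDegree s (t + 1) (by omega) (by omega), mul_zero]
    exact (coeff_zero _).symm

theorem NF.ne {P Q : PP k} (h : NF P Q) : P ≠ 0 ∨ Q ≠ 0 := by
  rcases h with ⟨rfl, rfl⟩ | ⟨p, q, hpq, rfl, rfl⟩ | ⟨β, rfl, rfl⟩ | ⟨m, hm, rfl, rfl⟩
  · exact Or.inr one_ne_zero
  · rcases hpq with h | h
    · exact Or.inl (mul_ne_zero (by rw [Ne, C_eq_zero]; exact h) (X_ne_zero 0))
    · exact Or.inr (mul_ne_zero (by rw [Ne, C_eq_zero]; exact h) (X_ne_zero 1))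
  · exact Or.inl one_ne_zero
  · exact Or.inl (X_ne_zero 0)

/-- a component of a Keller map is not constant -/
theorem F_ne_C (F : Fin 2 → PP k) (hJ : IsUnit (Matrix.det (jac F))) : ∀ a : k, F 0 ≠ C a := by
  intro a ha
  obtain ⟨δ, hδ0, hδ⟩ := exists_det F hJ
  rw [ha, pderiv_C, pderiv_C, zero_mul, zero_mul, sub_zero] at hδ
  exact hδ0 (C_eq_zero.1 hδ.symm)

/-- a plane Keller map the algebra of which is preserved by a normal form is an automorphism -/
theorem NF.top_of_stable {P Q : PP k} (h : NF P Q) (F : Fin 2 → PP k)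
    (hJ : IsUnit (Matrix.det (jac F))) (hF : ∀ i, vf P Q (F i) ∈ SS F) : SS F = ⊤ := by
  obtain ⟨m, hm, hW⟩ := h.stable
  obtain ⟨n, hn⟩ := exists_WW m (F 0)
  have hfin : FiniteDimensional k (WW k m n) := finite_WW hm n
  let U : Submodule k (PP k) := Subalgebra.toSubmodule (SS F) ⊓ WW k m n
  have hUfin : FiniteDimensional k U := Submodule.finiteDimensional_inf_right _ _
  obtain ⟨v, hv, hvc, l, μ, hE⟩ := exists_aff_eig (vf P Q) U
    (fun u hu => ⟨vf_mem F P Q hF u hu.1, hW n u hu.2⟩)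
    ⟨one_mem (SS F), by
      intro s t hst
      have h1 : (1 : PP k) = C 1 := C_1.symm
      rw [h1, cf_C_ne]
      by_contra hcon
      push Not at hcon
      rw [hcon.1, hcon.2] at hst
      omega⟩ (F 0) ⟨⟨X 0, by simp⟩, hn⟩ (F_ne_C F hJ)
  exact h.top F hJ v hv.1 hvc l μ hE

/-- three terms of an orbit -/
theorem NF.top_of_three {P Q : PP k} (h : NF P Q) (F : Fin 2 → PP k)
    (hJ : IsUnit (Matrix.det (jac F))) (c : PP k) (hnc : ∀ a : k, c ≠ C a) (h0 : c ∈ SS F)
    (h1 : vf P Q c ∈ SS F) (h2 : vf P Q (vf P Q c) ∈ SS F) : SS F = ⊤ := by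
  classical
  by_cases hjac : DJ c (vf P Q c) = 0
  · -- dependent
    obtain ⟨A, B, h', r, H, hr, hH⟩ := exists_fib c hnc
    have hK : ∀ f, DJ c f = 0 → ∃ γ : Polynomial k, f = Polynomial.aeval h' γ := by
      intro f hf
      apply H.ker
      rw [← DK_zero_iff]
      have h3 := hH (ιK k f)
      rw [HK_coe, hf, map_zero] at h3
      exact (mul_eq_zero.1 h3.symm).resolve_left hr
    obtain ⟨γ, hγ⟩ := hK c (DJ_self c)
    have hγ' : Polynomial.aeval h' (Polynomial.derivative γ) ≠ 0 :=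
      der_ne_zero H.hc (by rw [← hγ]; exact hnc)
    have hcD : ∀ (D : Derivation k (PP k) (PP k)) (ζ : Polynomial k),
        D (Polynomial.aeval h' ζ) = Polynomial.aeval h' (Polynomial.derivative ζ) * D h' := by
      intro D ζ
      rw [Derivation.map_aeval, smul_eq_mul]
    have hDh : DJ c h' = 0 := by
      have h3 : DJ h' c = 0 := by rw [hγ, hcD, DJ_self, mul_zero]
      rw [DJ_apply] at h3 ⊢
      linear_combination -h3
    have hΔh : DJ c (vf P Q h') = 0 := by
      have h3 : vf P Q c = Polynomial.aeval h' (Polynomial.derivative γ) * vf P Q h' := by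
        rw [hγ, hcD]
      rw [h3, Derivation.leibniz, hcD (DJ c), hDh, mul_zero, smul_zero, add_zero, smul_eq_mul]
        at hjac
      exact (mul_eq_zero.1 hjac).resolve_left hγ'
    -- a component which is independent of `c`
    obtain ⟨i, hi⟩ : ∃ i, DJ (F i) c ≠ 0 := by
      by_contra hcon
      push Not at hcon
      obtain ⟨δ, hδ0, hδ⟩ := exists_det F hJ
      have e0 := hcon 0
      have e1 := hcon 1
      rw [DJ_apply] at e0 e1
      have hδ' : (C δ : PP k) ≠ 0 := by rw [Ne, C_eq_zero]; exact hδ0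
      have d0 : pderiv 0 c = 0 := by
        apply (mul_eq_zero.1 (?_ : C δ * pderiv 0 c = 0)).resolve_left hδ'
        rw [← hδ]
        linear_combination (pderiv 0 (F 1)) * e0 - (pderiv 0 (F 0)) * e1
      have d1 : pderiv 1 c = 0 := by
        apply (mul_eq_zero.1 (?_ : C δ * pderiv 1 c = 0)).resolve_left hδ'
        rw [← hδ]
        linear_combination (pderiv 1 (F 1)) * e0 - (pderiv 1 (F 0)) * e1
      obtain ⟨a, ha⟩ := eq_C_of_pderiv c d0 d1
      exact hnc a ha
    obtain ⟨m, hm, hW⟩ := h.stable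
    obtain ⟨n, hn⟩ := exists_WW m c
    have hfin : FiniteDimensional k (WW k m n) := finite_WW hm n
    let U : Submodule k (PP k) := (Subalgebra.toSubmodule (SS F) ⊓
      LinearMap.ker (DJ c : PP k →ₗ[k] PP k)) ⊓ WW k m n
    have hUfin : FiniteDimensional k U := Submodule.finiteDimensional_inf_right _ _
    have hUmem : ∀ u, u ∈ U ↔ (u ∈ SS F ∧ DJ c u = 0) ∧ u ∈ WW k m n := fun u => Iff.rfl
    obtain ⟨v, hv, hvc, l, μ, hE⟩ := exists_aff_eig (vf P Q) U (by
      intro u hu
      rw [hUmem] at hu ⊢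
      obtain ⟨⟨hu1, hu2⟩, hu3⟩ := hu
      obtain ⟨ζ, hζ⟩ := hK u hu2
      refine ⟨⟨?_, ?_⟩, hW n u hu3⟩
      · apply mem_of_mul F hJ (D := DJ (F i) c) (N := DJ (F i) u * vf P Q c)
          (DJ_mem F hJ ⟨X i, by simp⟩ h0) hi (mul_mem (DJ_mem F hJ ⟨X i, by simp⟩ hu1) h1)
        conv_lhs => rw [hζ, hγ]
        conv_rhs => rw [hζ, hγ]
        rw [hcD, hcD, hcD, hcD]
        ring
      · rw [hζ, hcD, Derivation.leibniz, hcD (DJ c), hDh, hΔh, mul_zero, smul_zero, smul_zero,
          add_zero])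
      (by
        rw [hUmem]
        refine ⟨⟨one_mem (SS F), ?_⟩, ?_⟩
        · exact Derivation.map_one_eq_zero _
        · intro s t hst
          have h1 : (1 : PP k) = C 1 := C_1.symm
          rw [h1, cf_C_ne]
          by_contra hcon
          push Not at hcon
          rw [hcon.1, hcon.2] at hst
          omega) c (by
        rw [hUmem]
        exact ⟨⟨h0, DJ_self c⟩, hn⟩) hnc
    rw [hUmem] at hv
    exact h.top F hJ v hv.1.1 hvc l μ hE
  · -- independent
    apply h.top_of_stable F hJ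
    obtain ⟨q0, hq0⟩ := h0
    obtain ⟨q1, hq1⟩ := h1
    obtain ⟨q2, hq2⟩ := h2
    replace hq0 : aeval F q0 = c := hq0
    replace hq1 : aeval F q1 = vf P Q c := hq1
    replace hq2 : aeval F q2 = vf P Q (vf P Q c) := hq2
    have eA : aeval F (pderiv 0 q0) * vf P Q (F 0) + aeval F (pderiv 1 q0) * vf P Q (F 1) =
        aeval F q1 := by
      rw [hq1, ← hq0, deriv_aeval, Fin.sum_univ_two]
    have eB : aeval F (pderiv 0 q1) * vf P Q (F 0) + aeval F (pderiv 1 q1) * vf P Q (F 1) =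
        aeval F q2 := by
      rw [hq2, ← hq1, deriv_aeval, Fin.sum_univ_two]
    have hD : aeval F (DJ q0 q1) ≠ 0 := by
      intro h3
      apply hjac
      rw [← hq1, ← hq0, DJ_aeval, h3, zero_mul]
    have hDe : aeval F (DJ q0 q1) = aeval F (pderiv 0 q0) * aeval F (pderiv 1 q1) -
        aeval F (pderiv 1 q0) * aeval F (pderiv 0 q1) := by
      rw [DJ_apply, map_sub, map_mul, map_mul]
    intro i
    fin_cases i
    · refine mem_of_mul F hJ (V := vf P Q (F 0)) (D := aeval F (DJ q0 q1))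
        (N := aeval F (q1 * pderiv 1 q1 - q2 * pderiv 1 q0)) ⟨_, rfl⟩ hD ⟨_, rfl⟩ ?_
      rw [hDe, map_sub, map_mul, map_mul]
      linear_combination (aeval F (pderiv 1 q1)) * eA - (aeval F (pderiv 1 q0)) * eB
    · refine mem_of_mul F hJ (V := vf P Q (F 1)) (D := aeval F (DJ q0 q1))
        (N := aeval F (q2 * pderiv 0 q0 - q1 * pderiv 0 q1)) ⟨_, rfl⟩ hD ⟨_, rfl⟩ ?_
      rw [hDe, map_sub, map_mul, map_mul]
      linear_combination (aeval F (pderiv 0 q0)) * eB - (aeval F (pderiv 0 q1)) * eA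

/-- foliations given by normal forms -/
theorem NF.top_of_fol {P Q : PP k} (h : NF P Q) (F : Fin 2 → PP k)
    (hJ : IsUnit (Matrix.det (jac F))) (a b : PP k) (hab : a ≠ 0 ∨ b ≠ 0)
    (hfol : vf P Q (F 0) * aeval F b = vf P Q (F 1) * aeval F a) : SS F = ⊤ := by
  have hX01 : IsRelPrime (X 0 : PP k) (X 1) := by
    apply WfDvdMonoid.isRelPrime_of_no_irreducible_factors
    · rintro ⟨h1, -⟩
      exact X_ne_zero 0 h1
    · intro z hz h0 h1
      have e0 : pderiv 1 z = 0 := pd1_of_dvd (X_ne_zero 0) (pderiv_X_of_ne (by decide)) h0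
      have e1 : pderiv 0 z = 0 := LN.fact' _ (LN_pderiv 0) (X_ne_zero 1)
        (pderiv_X_of_ne (by decide)) h1
      obtain ⟨c, hc⟩ := eq_C_of_pderiv z e1 e0
      apply hz.not_isUnit
      rw [isUnit_iff_C]
      refine ⟨c, ?_, hc⟩
      rintro rfl
      rw [C_0] at hc
      exact hz.ne_zero hc
  have hCu : ∀ e : k, e ≠ 0 → IsUnit (C e : PP k) := fun e he => (isUnit_iff_C _).2 ⟨e, he, rfl⟩
  rcases h with ⟨rfl, rfl⟩ | ⟨p, q, hpq, rfl, rfl⟩ | ⟨β, rfl, rfl⟩ | ⟨m, hm, rfl, rfl⟩
  · exact NF.top_of_stable (Or.inl ⟨rfl, rfl⟩) F hJ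
      (vf_mem_of_fol F hJ 0 1 (by intro z _ h1; exact isUnit_of_dvd_one h1) a b hab hfol)
  · by_cases hp : p = 0
    · -- the foliation by the lines `x = const`
      have hq : q ≠ 0 := hpq.resolve_left (by simpa using hp)
      apply NF.top_of_stable (P := 0) (Q := 1) (Or.inl ⟨rfl, rfl⟩) F hJ
      apply vf_mem_of_fol F hJ 0 1 (by intro z _ h1; exact isUnit_of_dvd_one h1) a b hab
      have h1 : (C q * X 1 : PP k) ≠ 0 := mul_ne_zero (hCu q hq).ne_zero (X_ne_zero 1)
      apply mul_left_cancel₀ h1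
      simp only [vf_apply, hp, C_0, zero_mul, zero_add, one_mul] at hfol ⊢
      linear_combination hfol
    · by_cases hq : q = 0
      · -- the foliation by the lines `y = const`
        apply NF.top_of_stable (P := 1) (Q := C 0 * X 1) (Or.inr (Or.inr (Or.inl ⟨0, rfl, rfl⟩)))
          F hJ
        apply vf_mem_of_fol F hJ 1 (C 0 * X 1)
          (by intro z h1 _; exact isUnit_of_dvd_one h1) a b hab
        have h1 : (C p * X 0 : PP k) ≠ 0 := mul_ne_zero (hCu p hp).ne_zero (X_ne_zero 0)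
        apply mul_left_cancel₀ h1
        simp only [vf_apply, hq, C_0, zero_mul, add_zero, one_mul] at hfol ⊢
        linear_combination hfol
      · apply NF.top_of_stable (Or.inr (Or.inl ⟨p, q, hpq, rfl, rfl⟩)) F hJ
        apply vf_mem_of_fol F hJ _ _ ?_ a b hab hfol
        intro z h0 h1
        exact hX01 ((hCu p hp).dvd_mul_left.1 h0) ((hCu q hq).dvd_mul_left.1 h1)
  · exact NF.top_of_stable (Or.inr (Or.inr (Or.inl ⟨β, rfl, rfl⟩))) F hJ
      (vf_mem_of_fol F hJ _ _ (by intro z h1 _; exact isUnit_of_dvd_one h1) a b hab hfol)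
  · apply NF.top_of_stable (Or.inr (Or.inr (Or.inr ⟨m, hm, rfl, rfl⟩))) F hJ
    apply vf_mem_of_fol F hJ _ _ ?_ a b hab hfol
    intro z h0 h1
    apply hX01 h0
    have h2 : z ∣ X 0 ^ m := h0.trans (dvd_pow_self _ (by omega))
    have h3 : z ∣ C (m : k) * X 1 := (dvd_add_left h2).1 h1
    exact (hCu (m : k) (by exact_mod_cast (by omega : m ≠ 0))).dvd_mul_left.1 h3

end

end Pool.Agent.E8helper43.KE
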