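import Pool.Agent.E8helper43.KE.Fol

/-!
# Foliations with nonconstant divergence
-/

set_option autoImplicit false
set_option linter.unusedSectionVars false

open MvPolynomial Pool.Agent.H928R2.Inv Pool.Agent.H928R2.Pen Pool.Agent.H922R2

namespace Pool.Agent.E8helper43.KE

section
variable {k : Type*} [Field k] [CharZero k] [IsAlgClosed k]

theorem cf_zero_of_deg {f : PP k} {s t : ℕ} (h : f.totalDegree < s + t) : cf f s t = 0 := by
  by_contra hne
  have h1 : (ex s t).sum (fun _ e => e) ≤ f.totalDegree :=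
    le_totalDegree (mem_support_iff.2 hne)
  rw [Finsupp.sum_fintype _ _ (fun _ => rfl), Fin.sum_univ_two, ex_zero, ex_one] at h1
  omega

/-- a nonconstant affine function in `k[F]` -/
theorem top_of_deg_one (F : Fin 2 → PP k) (hJ : IsUnit (Matrix.det (jac F))) (v : PP k)
    (hv : v ∈ SS F) (hvc : ∀ a : k, v ≠ C a) (h : ∀ s t, 1 < s + t → cf v s t = 0) :
    SS F = ⊤ := by
  classical
  have h1 : pderiv 0 (v - C (cf v 1 0) * X 0) = 0 := by
    apply cf_ext
    intro s t
    have hX : cf (C (cf v 1 0) * X 0 : PP k) (s + 1) t = if s = 0 ∧ t = 0 then cf v 1 0 else 0 := by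
      rw [mul_comm, cf_X0_mul, cf_C]
    rw [cf_pd0, cf_sub, hX]
    have h0 : cf (0 : PP k) s t = 0 := coeff_zero _
    rw [h0]
    split_ifs with h2
    · rw [h2.1, h2.2, sub_self, mul_zero]
    · rw [h (s + 1) t (by omega), sub_zero, mul_zero]
  obtain ⟨R, hR⟩ := exists_uy h1
  by_cases he : cf v 1 0 = 0
  · rw [he, C_0, zero_mul, sub_zero] at hR
    exact top_of_uy F hJ ⟨R, natDegree_pos_of_uy hvc hR, hR ▸ hv⟩
  · apply top_of_linx F hJ he R
    rw [← hR]
    have h3 : C (cf v 1 0) * X 0 + (v - C (cf v 1 0) * X 0) = v := by ring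
    rw [h3]; exact hv

/-- quadratic vector fields with nonconstant divergence -/
theorem top_of_quad (F : Fin 2 → PP k) (hJ : IsUnit (Matrix.det (jac F))) (P Q : PP k)
    (hco : IsRelPrime P Q) (a b : PP k) (hab : a ≠ 0 ∨ b ≠ 0)
    (hfol : vf P Q (F 0) * aeval F b = vf P Q (F 1) * aeval F a) (hP : P.totalDegree ≤ 2)
    (hQ : Q.totalDegree ≤ 2) (hc : ∀ e : k, pderiv 0 P + pderiv 1 Q ≠ C e) : SS F = ⊤ := by
  have h1 := div_mem' F hJ P Q (vf_mem_of_fol F hJ P Q hco a b hab hfol)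
  apply top_of_deg_one F hJ _ h1 hc
  intro s t hst
  rw [cf_add, cf_pd0, cf_pd1, cf_zero_of_deg (f := P) (by omega),
    cf_zero_of_deg (f := Q) (by omega)]
  ring

end

end Pool.Agent.E8helper43.KE
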