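import Pool.Agent.E8helper43.KE.Orb

/-!
# Plane Keller maps whose field contains the orbit of a rational function
-/

set_option autoImplicit false
set_option linter.unusedSectionVars false

open MvPolynomial Pool.Agent.H928R2.Inv Pool.Agent.H928R2.Pen Pool.Agent.H922R2

namespace Pool.Agent.E8helper43.KE

section
variable {k : Type*} [Field k] [CharZero k]

theorem aeval_unit (F : Fin 2 → PP k) (hJ : IsUnit (Matrix.det (jac F))) {q : PP k} (hq : q ≠ 0) :
    aeval F q ≠ 0 := by
  rw [Ne, map_eq_zero_iff _ (aeval_injective F hJ)]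
  exact hq

/-- relatively prime polynomials have relatively prime images -/
theorem relprime_aeval (F : Fin 2 → PP k) (hJ : IsUnit (Matrix.det (jac F))) {p q : PP k}
    (h : IsRelPrime p q) (hp : p ≠ 0) : IsRelPrime (aeval F p) (aeval F q) := by
  intro d hd1 hd2
  by_contra hu
  have hd0 : d ≠ 0 := by
    rintro rfl
    exact aeval_unit F hJ hp (zero_dvd_iff.1 hd1)
  obtain ⟨ρ, hρ, hρd⟩ := WfDvdMonoid.exists_irreducible_factor hu hd0
  obtain ⟨π, hπ, h1, h2⟩ := exists_prime_dvd F hJ ρ p q hρ.prime (hρd.trans hd1) (hρd.trans hd2) hp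
  exact hπ.not_isUnit (h h1 h2)

theorem mem_of_assoc (F : Fin 2 → PP k) {P s : PP k} (hs : s ∈ SS F) (h1 : P ∣ s) (h2 : s ∣ P) :
    P ∈ SS F := by
  obtain ⟨u, hu⟩ := associated_of_dvd_dvd h2 h1
  obtain ⟨c, -, hc⟩ := (isUnit_iff_C (u : PP k)).1 u.isUnit
  rw [← hu, hc]
  exact mul_mem hs (C_mem_SS F c)

/-- numerator and denominator of a reduced fraction which lies in `k(F)` lie in `k[F]` -/
theorem mem_of_frac (F : Fin 2 → PP k) (hJ : IsUnit (Matrix.det (jac F))) {P Q p q : PP k}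
    (hPQ : IsRelPrime P Q) (hQ : Q ≠ 0) (hq : q ≠ 0) (h : P * aeval F q = aeval F p * Q) :
    P ∈ SS F ∧ Q ∈ SS F := by
  obtain ⟨p', q', c', hco, rfl, rfl⟩ := UniqueFactorizationMonoid.exists_reduced_factors' p q hq
  have hc' : c' ≠ 0 := by rintro rfl; exact hq (zero_mul _)
  have hq' : q' ≠ 0 := by rintro rfl; exact hq (mul_zero _)
  have h1 : P * aeval F q' = aeval F p' * Q := by
    apply mul_left_cancel₀ (aeval_unit F hJ hc')
    rw [map_mul, map_mul] at h
    linear_combination h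
  by_cases hp' : p' = 0
  · rw [hp', map_zero, zero_mul] at h1
    have hP : P = 0 := (mul_eq_zero.1 h1).resolve_right (aeval_unit F hJ hq')
    refine ⟨by rw [hP]; exact zero_mem _, ?_⟩
    obtain ⟨c, -, hc⟩ := (isUnit_iff_C Q).1 (hPQ (by rw [hP]; exact dvd_zero _) dvd_rfl)
    rw [hc]
    exact C_mem_SS F c
  · have hrel := relprime_aeval F hJ hco hp'
    constructor
    · apply mem_of_assoc F (s := aeval F p') ⟨p', rfl⟩
      · exact hPQ.dvd_of_dvd_mul_right ⟨_, h1.symm⟩
      · exact hrel.dvd_of_dvd_mul_right ⟨Q, h1⟩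
    · apply mem_of_assoc F (s := aeval F q') ⟨q', rfl⟩
      · exact hPQ.symm.dvd_of_dvd_mul_left ⟨aeval F p', by rw [h1, mul_comm]⟩
      · exact hrel.symm.dvd_of_dvd_mul_left ⟨P, by rw [← h1, mul_comm]⟩

end

section
variable {k : Type*} [Field k] [CharZero k] [IsAlgClosed k]

/-- A plane Keller map the field `k(F)` of which contains all images `φ^n(P/Q)`, `n ≥ 0`, of a
nonconstant rational function under the powers of a polynomial automorphism of infinite order is
an automorphism. -/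
theorem top_of_orbit_frac (F : Fin 2 → PP k) (hJ : IsUnit (Matrix.det (jac F))) (φ : GA k)
    (hinf : ∀ n, 0 < n → φ ^ n ≠ 1) (P Q : PP k) (hQ : Q ≠ 0) (hnc : ∀ a : k, P ≠ C a * Q)
    (horb : ∀ n : ℕ, ∃ p q : PP k, q ≠ 0 ∧
      (φ ^ n) P * aeval F q = aeval F p * (φ ^ n) Q) : SS F = ⊤ := by
  obtain ⟨P', Q', g, hco, rfl, rfl⟩ := UniqueFactorizationMonoid.exists_reduced_factors' P Q hQ
  have hg : g ≠ 0 := by rintro rfl; exact hQ (zero_mul _)
  have hQ' : Q' ≠ 0 := by rintro rfl; exact hQ (mul_zero _)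
  have key : ∀ n : ℕ, (φ ^ n) P' ∈ SS F ∧ (φ ^ n) Q' ∈ SS F := by
    intro n
    obtain ⟨p, q, hq, h⟩ := horb n
    have hgn : (φ ^ n) g ≠ 0 := by
      rw [Ne, map_eq_zero_iff _ (AlgEquiv.injective _)]; exact hg
    have hQn : (φ ^ n) Q' ≠ 0 := by
      rw [Ne, map_eq_zero_iff _ (AlgEquiv.injective _)]; exact hQ'
    refine mem_of_frac F hJ (p := p) (q := q) ?_ hQn hq ?_
    · intro d hd1 hd2
      have h1 := map_dvd (φ ^ n).symm hd1
      have h2 := map_dvd (φ ^ n).symm hd2
      rw [AlgEquiv.symm_apply_apply] at h1 h2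
      have h3 := (hco h1 h2).map (φ ^ n)
      rwa [AlgEquiv.apply_symm_apply] at h3
    · apply mul_left_cancel₀ hgn
      rw [map_mul, map_mul] at h
      linear_combination h
  by_cases hP : ∃ a, P' = C a
  · obtain ⟨a, rfl⟩ := hP
    apply top_of_orbit F hJ φ hinf Q' _ (fun n => (key n).2)
    rintro b rfl
    have hb : b ≠ 0 := by rintro rfl; exact hQ' C_0
    apply hnc (a / b)
    have h1 : (C (a / b) * C b : PP k) = C a := by rw [← C_mul, div_mul_cancel₀ _ hb]
    linear_combination -g * h1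
  · push Not at hP
    exact top_of_orbit F hJ φ hinf P' hP (fun n => (key n).1)

end

end Pool.Agent.E8helper43.KE
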