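import Pool.Agent.E8helper43.KE.Eul
import Pool.Agent.H922R2.L11

/-!
# Eigenvectors of a diagonal vector field in the algebra of a plane Keller map
-/

set_option autoImplicit false
set_option linter.unusedSectionVars false

open MvPolynomial Pool.Agent.H928R2.Inv Pool.Agent.H928R2.Pen Pool.Agent.H922R2

namespace Pool.Agent.E8helper43.KE

section
variable {k : Type*} [Field k] [CharZero k]

/-- the derivation `p x ∂_x + q y ∂_y` on rational functions -/
noncomputable def EK (p q : k) : Derivation k (KK k) (KK k) :=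
  ιK k (C p * X 0) • dL 0 + ιK k (C q * X 1) • dL 1

theorem EK_coe (p q : k) (f : PP k) : EK p q (ιK k f) = ιK k (ED p q f) := by
  rw [EK, Derivation.add_apply, Derivation.smul_apply, Derivation.smul_apply, dL_ι, dL_ι, ED_apply,
    smul_eq_mul, smul_eq_mul, map_add, map_mul (ιK k) (C p * X 0), map_mul (ιK k) (C q * X 1)]

theorem ED_X0 (p q : k) : ED p q (X 0 : PP k) = C p * X 0 := by
  rw [ED_apply, pderiv_X_self, pderiv_X_of_ne (by decide)]
  ring

theorem ED_X1 (p q : k) : ED p q (X 1 : PP k) = C q * X 1 := by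
  rw [ED_apply, pderiv_X_self, pderiv_X_of_ne (by decide)]
  ring

theorem pd_comm (f : PP k) : pderiv 0 (pderiv 1 f) = pderiv 1 (pderiv 0 f) := by
  exact pderiv_comm01 f

theorem ED_pd0 {p q D : k} {c : PP k} (hE : ED p q c = C D * c) :
    ED p q (pderiv 0 c) = C (D - p) * pderiv 0 c := by
  have h1 := congrArg (pderiv 0) hE
  rw [ED_apply, map_add, Derivation.leibniz, Derivation.leibniz, Derivation.leibniz,
    Derivation.leibniz, Derivation.leibniz] at h1
  simp only [pderiv_C, pderiv_X_self, pderiv_X_of_ne (show (1 : Fin 2) ≠ 0 by decide), smul_eq_mul,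
    mul_zero, mul_one, add_zero, pd_comm c] at h1
  rw [ED_apply, C_sub]
  linear_combination h1

theorem ED_pd1 {p q D : k} {c : PP k} (hE : ED p q c = C D * c) :
    ED p q (pderiv 1 c) = C (D - q) * pderiv 1 c := by
  have h1 := congrArg (pderiv 1) hE
  rw [ED_apply, map_add, Derivation.leibniz, Derivation.leibniz, Derivation.leibniz,
    Derivation.leibniz, Derivation.leibniz] at h1
  simp only [pderiv_C, pderiv_X_self, pderiv_X_of_ne (show (0 : Fin 2) ≠ 1 by decide), smul_eq_mul,
    mul_zero, mul_one, add_zero] at h1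
  rw [ED_apply, C_sub, pd_comm c]
  linear_combination h1

theorem HK_X0 (c : PP k) : HK c (ιK k (X 0)) = ιK k (-pderiv 1 c) := by
  rw [HK_coe, DJ_apply, pderiv_X_self, pderiv_X_of_ne (by decide)]
  congr 1; ring

theorem HK_X1 (c : PP k) : HK c (ιK k (X 1)) = ιK k (pderiv 0 c) := by
  rw [HK_coe, DJ_apply, pderiv_X_self, pderiv_X_of_ne (by decide)]
  congr 1; ring

/-- the diagonal field normalises the Hamiltonian field of an eigenvector -/
theorem EK_comm {p q D : k} {c : PP k} (hE : ED p q c = C D * c) (x : KK k) :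
    EK p q (HK c x) - HK c (EK p q x) = algebraMap k (KK k) (D - p - q) * HK c x := by
  let T : Derivation k (KK k) (KK k) :=
    ⁅EK p q, HK c⁆ - (algebraMap k (KK k) (D - p - q)) • HK c
  have hT : ∀ x, T x = EK p q (HK c x) - HK c (EK p q x) - algebraMap k (KK k) (D - p - q) * HK c x := by
    intro x
    show (⁅EK p q, HK c⁆ - (algebraMap k (KK k) (D - p - q)) • HK c) x = _
    rw [Derivation.sub_apply, Derivation.commutator_apply, Derivation.smul_apply, smul_eq_mul]
  have hC : ∀ a : k, ιK k (C a) = algebraMap k (KK k) a := by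
    intro a
    rw [← MvPolynomial.algebraMap_eq, AlgHom.commutes]
  have h := der_zero T (by
    intro i
    rw [hT]
    fin_cases i
    · show EK p q (HK c (ιK k (X 0))) - HK c (EK p q (ιK k (X 0))) - _ * HK c (ιK k (X 0)) = 0
      rw [HK_X0, EK_coe, EK_coe, ED_X0, map_mul, hC, Derivation.leibniz, HK_X0, Derivation.map_algebraMap,
        smul_zero, add_zero, map_neg, ED_pd1 hE, ← hC, smul_eq_mul, ← map_mul, ← map_sub, ← hC,
        ← map_mul, ← map_sub]
      rw [show (-(C (D - q) * pderiv 1 c) - C p * -pderiv 1 c - C (D - p - q) * -pderiv 1 c : PP k) = 0 by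
        simp only [C_sub]; ring]
      exact map_zero _
    · show EK p q (HK c (ιK k (X 1))) - HK c (EK p q (ιK k (X 1))) - _ * HK c (ιK k (X 1)) = 0
      rw [HK_X1, EK_coe, EK_coe, ED_X1, map_mul, hC, Derivation.leibniz, HK_X1, Derivation.map_algebraMap,
        smul_zero, add_zero, ED_pd0 hE, ← hC, smul_eq_mul, ← map_mul, ← map_sub, ← hC,
        ← map_mul, ← map_sub]
      rw [show (C (D - p) * pderiv 0 c - C q * pderiv 0 c - C (D - p - q) * pderiv 0 c : PP k) = 0 by
        simp only [C_sub]; ring]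
      exact map_zero _) x
  rw [hT] at h
  exact sub_eq_zero.1 h

end

section
variable {k : Type*} [Field k] [CharZero k] [IsAlgClosed k]

/-- the Hamiltonian field is a multiple of a primitive derivation with kernel `k(h)` -/
theorem exists_fib (c : PP k) (hnc : ∀ a : k, c ≠ C a) :
    ∃ (A B h : PP k) (r : KK k), Fib A B h ∧ r ≠ 0 ∧ ∀ x, HK c x = r * DK A B x := by
  obtain ⟨A, B, hco, hAB⟩ := exists_prim (ιK k c)
  obtain ⟨r, hr0, hr1⟩ := exists_ratio hco (ιK k c) hAB
  rw [dL_ι] at hr0 hr1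
  have hH : ∀ x, HK c x = r * DK A B x := by
    intro x
    rw [HK, DK_apply, DK_apply, hr0, hr1]; ring
  have hr : r ≠ 0 := by
    rintro rfl
    rw [zero_mul] at hr0 hr1
    have e0 : pderiv 0 c = 0 := (map_eq_zero_iff _ iR_inj).1 hr0
    have e1 : pderiv 1 c = 0 := (map_eq_zero_iff _ iR_inj).1 hr1
    obtain ⟨a, ha⟩ := eq_C_of_pderiv c e0 e1
    exact hnc a ha
  have hDc : dd A B c = 0 := by
    rw [← DK_zero_iff]
    have h1 := hH (ιK k c)
    rw [HK_coe, DJ_self, map_zero] at h1
    exact (mul_eq_zero.1 h1.symm).resolve_left hr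
  obtain ⟨h, H⟩ := exists_Fib hco c hnc hDc
  exact ⟨A, B, h, r, H, hr, hH⟩

/-- the constants of the Hamiltonian field of an eigenvector `c = π(F)`, `π` prime, lie in
`k(F)` -/
theorem ker_mem (F : Fin 2 → PP k) (hJ : IsUnit (Matrix.det (jac F))) (π : PP k) (hπ : Prime π)
    {p q D : k} (hD : D ≠ 0) (hE : ED p q (aeval F π) = C D * aeval F π) :
    (∀ a : k, aeval F π ≠ C a) ∧ ∀ x : KK k, HK (aeval F π) x = 0 → x ∈ fF (KK k) F := by
  have hinj := aeval_injective F hJ
  have hc0 : aeval F π ≠ 0 := by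
    rw [Ne, map_eq_zero_iff _ hinj]
    exact hπ.ne_zero
  have hcS : aeval F π ∈ SS F := ⟨π, rfl⟩
  have hnc : ∀ a : k, aeval F π ≠ C a := by
    intro a ha
    rw [ha, ED_apply, pderiv_C, pderiv_C, mul_zero, mul_zero, add_zero, ← C_mul] at hE
    have h1 := (C_eq_zero.1 hE.symm)
    rcases mul_eq_zero.1 h1 with h2 | h2
    · exact hD h2
    · exact hc0 (by rw [ha, h2, C_0])
  refine ⟨hnc, ?_⟩
  set c := aeval F π with hc
  obtain ⟨A, B, h, r, H, hr, hH⟩ := exists_fib c hnc
  have hDc : dd A B c = 0 := by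
    rw [← DK_zero_iff]
    have h1 := hH (ιK k c)
    rw [HK_coe, DJ_self, map_zero] at h1
    exact (mul_eq_zero.1 h1.symm).resolve_left hr
  -- it suffices that `h` lies in the algebra
  suffices hh : h ∈ SS F by
    intro x hx
    rw [hH] at hx
    have h1 := (H.kerK x).1 ((mul_eq_zero.1 hx).resolve_left hr)
    have h2 : IntermediateField.adjoin k {ιK k h} ≤ fF (KK k) F := by
      rw [IntermediateField.adjoin_simple_le_iff]
      exact ι_mem_fF F h hh
    exact h2 h1
  obtain ⟨γ, hγ⟩ := H.ker c hDc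
  -- the derivative of `h`
  have hEh : dd A B (ED p q h) = 0 := by
    rw [← DK_zero_iff, ← EK_coe]
    have h1 := EK_comm hE (ιK k h)
    have h2 : HK c (ιK k h) = 0 := by rw [hH, H.DKh, mul_zero]
    rw [h2, map_zero, mul_zero, zero_sub, neg_eq_zero, hH] at h1
    exact (mul_eq_zero.1 h1).resolve_left hr
  obtain ⟨ε, hε⟩ := H.ker _ hEh
  have hrel : Polynomial.derivative γ * ε = Polynomial.C D * γ := by
    apply aeval_inj H.hc
    rw [map_mul, map_mul, Polynomial.aeval_C, MvPolynomial.algebraMap_eq, ← hγ, ← hE, hγ,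
      Derivation.map_aeval, smul_eq_mul, ← hε]
  have hdeg : 0 < γ.natDegree := by
    rw [Nat.pos_iff_ne_zero]
    intro h0
    rw [Polynomial.natDegree_eq_zero] at h0
    obtain ⟨a, ha⟩ := h0
    apply hnc a
    rw [hγ, ← ha, Polynomial.aeval_C, MvPolynomial.algebraMap_eq]
  by_cases h1 : γ.natDegree = 1
  · have h2 := Polynomial.eq_X_add_C_of_natDegree_le_one h1.le
    have h3 : γ.coeff 1 ≠ 0 := by
      rw [← h1]
      exact Polynomial.leadingCoeff_ne_zero.2 (by rintro rfl; simp at hdeg)
    have h4 : h = C (γ.coeff 1)⁻¹ * (c - C (γ.coeff 0)) := by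
      have h5 : c = C (γ.coeff 1) * h + C (γ.coeff 0) := by
        conv_lhs => rw [hγ, h2]
        simp [MvPolynomial.algebraMap_eq]
      conv_rhs => rw [h5]
      rw [add_sub_cancel_right, ← mul_assoc, ← C_mul, inv_mul_cancel₀ h3, C_1, one_mul]
    rw [h4]
    exact mul_mem (C_mem_SS F _) (sub_mem hcS (C_mem_SS F _))
  · exfalso
    obtain ⟨c0, z, hc00, hform⟩ := pow_form γ hdeg (by
      intro z hz
      have h2 := congrArg (Polynomial.eval z) hrel
      rw [Polynomial.eval_mul, Polynomial.eval_mul, Polynomial.eval_C, hz.eq_zero, zero_mul] at h2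
      exact (mul_eq_zero.1 h2.symm).resolve_left hD)
    have h2 : c = C c0 * (h - C z) ^ γ.natDegree := by
      conv_lhs => rw [hγ, hform]
      simp [MvPolynomial.algebraMap_eq]
    have h3 : ¬ IsUnit (h - C z) := by
      intro hu
      obtain ⟨a, -, ha⟩ := (isUnit_iff_C _).1 hu
      apply H.hc (a + z)
      rw [C_add, ← ha]; ring
    have h4 : h - C z ≠ 0 := by
      intro h5
      exact H.hc z (sub_eq_zero.1 h5)
    obtain ⟨ρ, hρ, hρd⟩ := WfDvdMonoid.exists_irreducible_factor h3 h4
    apply not_sq_dvd F hJ π ρ hπ hρ.prime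
    rw [← hc, h2]
    apply Dvd.dvd.mul_left
    have h5 : ρ * ρ = ρ ^ 2 := (sq ρ).symm
    rw [h5]
    exact (pow_dvd_pow_of_dvd hρd 2).trans (pow_dvd_pow _ (by omega))

/-- eigenvectors with nonzero eigenvalue: the algebra is stable under the diagonal field -/
theorem ED_stable_of_prime (F : Fin 2 → PP k) (hJ : IsUnit (Matrix.det (jac F))) (π : PP k)
    (hπ : Prime π) {p q D : k} (hD : D ≠ 0) (hE : ED p q (aeval F π) = C D * aeval F π) :
    ∀ s ∈ SS F, ED p q s ∈ SS F := by
  obtain ⟨hnc, hker⟩ := ker_mem F hJ π hπ hD hE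
  have h1 := main_stable F hJ π (EK p q) (by
    rw [EK_coe, hE]
    exact ι_mem_fF F _ (mul_mem (C_mem_SS F _) ⟨π, rfl⟩)) hnc hker
    (algebraMap k (KK k) (D - p - q)) ((fF (KK k) F).algebraMap_mem _) (EK_comm hE)
  intro s hs
  have h2 := h1 _ (ι_mem_fF F s hs)
  rw [EK_coe] at h2
  exact mem_SS_of_mem_fF (KK k) F hJ _ h2

/-- an eigenvector with nonzero eigenvalue has a prime factor with nonzero eigenvalue -/
theorem exists_prime_eig (F : Fin 2 → PP k) (hJ : IsUnit (Matrix.det (jac F))) {p q : k} (n : ℕ) :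
    ∀ (Q : PP k) (D : k), Q.totalDegree ≤ n → Q ≠ 0 → D ≠ 0 →
      ED p q (aeval F Q) = C D * aeval F Q →
      ∃ (π : PP k) (D' : k), Prime π ∧ D' ≠ 0 ∧ ED p q (aeval F π) = C D' * aeval F π := by
  have hinj := aeval_injective F hJ
  induction n with
  | zero =>
    intro Q D hn hQ hD hE
    exfalso
    have h1 : Q.totalDegree = 0 := by omega
    rw [totalDegree_eq_zero_iff_eq_C] at h1
    have h2 : aeval F Q = C (coeff 0 Q) := by
      rw [h1]; simp [MvPolynomial.algebraMap_eq]
    rw [h2, ED_apply, pderiv_C, pderiv_C, mul_zero, mul_zero, add_zero, ← C_mul] at hE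
    have h3 := C_eq_zero.1 hE.symm
    rcases mul_eq_zero.1 h3 with h4 | h4
    · exact hD h4
    · exact hQ (by rw [h1, h4, C_0])
  | succ n ih =>
    intro Q D hn hQ hD hE
    by_cases hirr : Irreducible Q
    · exact ⟨Q, D, hirr.prime, hD, hE⟩
    · have hnu : ¬ IsUnit Q := by
        intro hu
        obtain ⟨a, ha0, ha⟩ := (isUnit_iff_C _).1 hu
        apply ha0
        have h2 : aeval F Q = C a := by rw [ha]; simp [MvPolynomial.algebraMap_eq]
        rw [h2, ED_apply, pderiv_C, pderiv_C, mul_zero, mul_zero, add_zero, ← C_mul] at hE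
        exact (mul_eq_zero.1 (C_eq_zero.1 hE.symm)).resolve_left hD
      rw [irreducible_iff] at hirr
      push Not at hirr
      obtain ⟨a, b, hab, ha, hb⟩ := hirr hnu
      have ha0 : a ≠ 0 := by rintro rfl; exact hQ (by rw [hab, zero_mul])
      have hb0 : b ≠ 0 := by rintro rfl; exact hQ (by rw [hab, mul_zero])
      have hdeg : Q.totalDegree = a.totalDegree + b.totalDegree := by
        rw [hab, totalDegree_mul_of_isDomain ha0 hb0]
      have hpos : ∀ r : PP k, r ≠ 0 → ¬ IsUnit r → 0 < r.totalDegree := by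
        intro r hr0 hr
        rw [Nat.pos_iff_ne_zero]
        intro h0
        rw [totalDegree_eq_zero_iff_eq_C] at h0
        apply hr
        rw [h0]
        apply IsUnit.map
        rw [isUnit_iff_ne_zero]
        intro h1
        rw [h1, C_0] at h0
        exact hr0 h0
      have hA := hpos a ha0 ha
      have hB := hpos b hb0 hb
      have hQF : aeval F Q = aeval F a * aeval F b := by rw [hab, map_mul]
      have hQF0 : aeval F Q ≠ 0 := by rw [Ne, map_eq_zero_iff _ hinj]; exact hQ
      obtain ⟨n1, h1⟩ := ED_divisor p q hQF0 hE (aeval F a) (by rw [hQF]; exact dvd_mul_right _ _)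
      obtain ⟨n2, h2⟩ := ED_divisor p q hQF0 hE (aeval F b) (by rw [hQF]; exact dvd_mul_left _ _)
      by_cases hn1 : n1 = 0
      · by_cases hn2 : n2 = 0
        · exfalso
          apply hD
          rw [hQF, Derivation.leibniz, h1, h2, hn1, hn2] at hE
          simp only [C_0, zero_mul, smul_zero, add_zero] at hE
          rcases mul_eq_zero.1 hE.symm with h3 | h3
          · exact C_eq_zero.1 h3
          · exact absurd h3 (by rw [← hQF]; exact hQF0)
        · exact ih b n2 (by omega) hb0 hn2 h2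
      · exact ih a n1 (by omega) ha0 hn1 h1

end

end Pool.Agent.E8helper43.KE
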