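import Pool.Agent.E8helper43.KE.PolAB

/-!
# Locally finite vector fields on the plane: linear algebra
-/

set_option autoImplicit false
set_option linter.unusedSectionVars false

open MvPolynomial Pool.Agent.H928R2.Inv Pool.Agent.H928R2.Pen Pool.Agent.H922R2

namespace Pool.Agent.E8helper43.KE

section
variable {k : Type*} [Field k]

/-- the exponent of `x ^ s y ^ t` -/
noncomputable def ex (s t : ℕ) : Fin 2 →₀ ℕ := Finsupp.single 0 s + Finsupp.single 1 t

theorem ex_zero (s t : ℕ) : ex s t 0 = s := by simp [ex]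
theorem ex_one (s t : ℕ) : ex s t 1 = t := by simp [ex]

theorem eq_ex (m : Fin 2 →₀ ℕ) : m = ex (m 0) (m 1) := by
  ext i
  fin_cases i
  · exact (ex_zero _ _).symm
  · exact (ex_one _ _).symm

/-- the coefficient of `x ^ s y ^ t` -/
noncomputable def cf (f : PP k) (s t : ℕ) : k := coeff (ex s t) f

theorem cf_ext {f g : PP k} (h : ∀ s t, cf f s t = cf g s t) : f = g := by
  ext m
  rw [eq_ex m]
  exact h _ _

theorem cf_add (f g : PP k) (s t : ℕ) : cf (f + g) s t = cf f s t + cf g s t := coeff_add ..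
theorem cf_sub (f g : PP k) (s t : ℕ) : cf (f - g) s t = cf f s t - cf g s t := coeff_sub ..
theorem cf_C_mul (a : k) (f : PP k) (s t : ℕ) : cf (C a * f) s t = a * cf f s t :=
  coeff_C_mul ..

open Classical in
theorem cf_C (a : k) (s t : ℕ) : cf (C a : PP k) s t = if s = 0 ∧ t = 0 then a else 0 := by
  rw [cf, coeff_C]
  by_cases h : s = 0 ∧ t = 0
  · obtain ⟨rfl, rfl⟩ := h
    rw [if_pos (by simp [ex]), if_pos ⟨rfl, rfl⟩]
  · rw [if_neg h, if_neg]
    intro h1
    apply h
    have h2 := ex_zero s t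
    have h3 := ex_one s t
    rw [← h1] at h2 h3
    exact ⟨by simpa using h2.symm, by simpa using h3.symm⟩

theorem cf_C_ne (a : k) {s t : ℕ} (h : s ≠ 0 ∨ t ≠ 0) : cf (C a : PP k) s t = 0 := by
  rw [cf_C, if_neg (by tauto)]

theorem cf_pd0 (f : PP k) (s t : ℕ) : cf (pderiv 0 f) s t = (s + 1) * cf f (s + 1) t := by
  rw [cf, coeff_pderiv, ex_zero, cf, mul_comm]
  congr 2
  ext i
  fin_cases i <;> simp [ex]

theorem cf_pd1 (f : PP k) (s t : ℕ) : cf (pderiv 1 f) s t = (t + 1) * cf f s (t + 1) := by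
  rw [cf, coeff_pderiv, ex_one, cf, mul_comm]
  congr 2
  ext i
  fin_cases i <;> simp [ex]

theorem cf_X0_mul (f : PP k) (s t : ℕ) : cf (X 0 * f) (s + 1) t = cf f s t := by
  have h : ex (s + 1) t = Finsupp.single 0 1 + ex s t := by
    ext i
    fin_cases i
    · simp [ex]; omega
    · simp [ex]
  rw [cf, h, coeff_X_mul]
  rfl

theorem cf_X0_mul_zero (f : PP k) (t : ℕ) : cf (X 0 * f) 0 t = 0 := by
  classical
  rw [cf, coeff_X_mul', if_neg]
  rw [Finsupp.mem_support_iff, ex_zero]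
  simp

theorem cf_X1_mul (f : PP k) (s t : ℕ) : cf (X 1 * f) s (t + 1) = cf f s t := by
  have h : ex s (t + 1) = Finsupp.single 1 1 + ex s t := by
    ext i
    fin_cases i
    · simp [ex]
    · simp [ex]; omega
  rw [cf, h, coeff_X_mul]
  rfl

theorem cf_X1_mul_zero (f : PP k) (s : ℕ) : cf (X 1 * f) s 0 = 0 := by
  classical
  rw [cf, coeff_X_mul', if_neg]
  rw [Finsupp.mem_support_iff, ex_one]
  simp

theorem cf_pow_mul (f : PP k) (m s t : ℕ) : cf (X 0 ^ m * f) (s + m) t = cf f s t := by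
  induction m generalizing s with
  | zero => rw [pow_zero, one_mul, add_zero]
  | succ m ih =>
    rw [pow_succ', mul_assoc, ← add_assoc, cf_X0_mul, ih]

theorem cf_pow_mul_lt (f : PP k) (m s t : ℕ) (h : s < m) : cf (X 0 ^ m * f) s t = 0 := by
  induction m generalizing s with
  | zero => omega
  | succ m ih =>
    rw [pow_succ', mul_assoc]
    rcases s with _ | s
    · exact cf_X0_mul_zero _ _
    · rw [cf_X0_mul]
      exact ih s (by omega)

theorem cf_xpd (f : PP k) (s t : ℕ) : cf (X 0 * pderiv 0 f) s t = s * cf f s t := by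
  rcases s with _ | s
  · rw [cf_X0_mul_zero]; simp
  · rw [cf_X0_mul, cf_pd0]; push_cast; ring

theorem cf_ypd (f : PP k) (s t : ℕ) : cf (X 1 * pderiv 1 f) s t = t * cf f s t := by
  rcases t with _ | t
  · rw [cf_X1_mul_zero]; simp
  · rw [cf_X1_mul, cf_pd1]; push_cast; ring

/-- the polynomials all monomials `x ^ s y ^ t` of which satisfy `s + m t ≤ n` -/
def WW (k : Type*) [Field k] (m n : ℕ) : Submodule k (PP k) where
  carrier := {f | ∀ s t, n < s + m * t → cf f s t = 0}
  add_mem' := by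
    intro a b ha hb s t h
    rw [cf_add, ha s t h, hb s t h, add_zero]
  zero_mem' := by
    intro s t _
    exact coeff_zero _
  smul_mem' := by
    intro a f hf s t h
    rw [smul_eq_C_mul, cf_C_mul, hf s t h, mul_zero]

theorem mem_WW {m n : ℕ} {f : PP k} : f ∈ WW k m n ↔ ∀ s t, n < s + m * t → cf f s t = 0 :=
  Iff.rfl

theorem exists_WW (m : ℕ) (f : PP k) : ∃ n, f ∈ WW k m n := by
  refine ⟨(m + 1) * f.totalDegree, fun s t h => ?_⟩
  by_contra hne
  have h1 : (ex s t).sum (fun _ e => e) ≤ f.totalDegree :=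
    le_totalDegree (mem_support_iff.2 hne)
  rw [Finsupp.sum_fintype _ _ (fun _ => rfl), Fin.sum_univ_two, ex_zero, ex_one] at h1
  have h2 : s + m * t ≤ (m + 1) * f.totalDegree := by
    calc s + m * t ≤ (m + 1) * (s + t) := by nlinarith
      _ ≤ _ := Nat.mul_le_mul_left _ h1
  omega

theorem finite_WW {m : ℕ} (hm : 1 ≤ m) (n : ℕ) : FiniteDimensional k (WW k m n) := by
  let φ : WW k m n →ₗ[k] (Fin (n + 1) → Fin (n + 1) → k) :=
    { toFun := fun f i j => cf f.1 i j
      map_add' := by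
        intro a b
        funext i j
        exact cf_add _ _ _ _
      map_smul' := by
        intro a f
        funext i j
        show cf (a • f.1) i j = a * cf f.1 i j
        rw [smul_eq_C_mul, cf_C_mul] }
  apply FiniteDimensional.of_injective φ
  intro a b hab
  apply Subtype.ext
  apply cf_ext
  intro s t
  by_cases h : n < s + m * t
  · rw [a.2 s t h, b.2 s t h]
  · have ht : t ≤ m * t := Nat.le_mul_of_pos_left _ hm
    have h1 := congrFun (congrFun hab ⟨s, by omega⟩) ⟨t, by omega⟩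
    exact h1

variable [IsAlgClosed k]

/-- an affine eigenvector in a finite dimensional stable space -/
theorem exists_aff_eig (Δ : Derivation k (PP k) (PP k)) (U : Submodule k (PP k))
    [FiniteDimensional k U] (hU : ∀ u ∈ U, Δ u ∈ U) (h1 : (1 : PP k) ∈ U) (b : PP k) (hb : b ∈ U)
    (hbc : ∀ a : k, b ≠ C a) :
    ∃ v ∈ U, (∀ a : k, v ≠ C a) ∧ ∃ l μ : k, Δ v = C l * v + C μ := by
  let T : U →ₗ[k] U := (Δ : PP k →ₗ[k] PP k).restrict hU
  have hT : ∀ u : U, (T u : PP k) = Δ u := fun u => rfl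
  let C' : Submodule k U := Submodule.span k {⟨1, h1⟩}
  have hC' : ∀ u : U, u ∈ C' ↔ ∃ a : k, (u : PP k) = C a := by
    intro u
    rw [Submodule.mem_span_singleton]
    constructor
    · rintro ⟨a, rfl⟩
      refine ⟨a, ?_⟩
      show a • (1 : PP k) = C a
      rw [smul_eq_C_mul, mul_one]
    · rintro ⟨a, ha⟩
      refine ⟨a, Subtype.ext ?_⟩
      show a • (1 : PP k) = u
      rw [ha, smul_eq_C_mul, mul_one]
  have hTC : C' ≤ C'.comap T := by
    intro u hu
    rw [Submodule.mem_comap, hC']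
    obtain ⟨a, ha⟩ := (hC' u).1 hu
    refine ⟨0, ?_⟩
    rw [hT, ha, ← MvPolynomial.algebraMap_eq, Derivation.map_algebraMap, map_zero]
  have : Nontrivial (U ⧸ C') := by
    refine ⟨⟨C'.mkQ ⟨b, hb⟩, 0, ?_⟩⟩
    intro h
    rw [Submodule.mkQ_apply, Submodule.Quotient.mk_eq_zero, hC'] at h
    obtain ⟨a, ha⟩ := h
    exact hbc a ha
  obtain ⟨l, hl⟩ := Module.End.exists_eigenvalue (C'.mapQ C' T hTC)
  obtain ⟨x, hx⟩ := hl.exists_hasEigenvector
  obtain ⟨v, rfl⟩ := Submodule.mkQ_surjective C' x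
  have hx1 := hx.apply_eq_smul
  have hx2 := hx.2
  rw [Submodule.mkQ_apply, Submodule.mapQ_apply, ← Submodule.Quotient.mk_smul,
    Submodule.Quotient.eq, hC'] at hx1
  rw [Submodule.mkQ_apply, Ne, Submodule.Quotient.mk_eq_zero, hC'] at hx2
  push Not at hx2
  obtain ⟨μ, hμ⟩ := hx1
  refine ⟨v, v.2, hx2, l, μ, ?_⟩
  rw [← hμ, ← smul_eq_C_mul]
  show Δ v = l • (v : PP k) + (Δ v - l • (v : PP k))
  ring

end

end Pool.Agent.E8helper43.KE
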