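import Pool.Agent.E8helper43.KE.Tra

/-!
# Plane Keller maps whose algebra contains the orbit of a polynomial

Let `F` be a plane Keller map, `φ` an automorphism of `k[x, y]` of infinite order and `c` a
nonconstant polynomial. If `φ^n(c) ∈ k[F]` for all `n ≥ 0` then `F` is an automorphism.
-/

set_option autoImplicit false
set_option linter.unusedSectionVars false
set_option linter.style.haveILetI false

open MvPolynomial Pool.Agent.H928R2.Inv Pool.Agent.H928R2.Pen Pool.Agent.H922R2

namespace Pool.Agent.E8helper43.KE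

section
variable {k : Type*} [Field k] [CharZero k]

theorem pow_succ_apply (φ : GA k) (n : ℕ) (c : PP k) : (φ ^ (n + 1)) c = (φ ^ n) (φ c) := by
  rw [pow_succ]; rfl

theorem ιφ_inj (φ : GA k) :
    Function.Injective ((ιK k).comp φ.toAlgHom : PP k →ₐ[k] KK k) :=
  fun _ _ hab => φ.injective (iR_inj hab)

/-- the extension of an automorphism to rational functions -/
noncomputable def ψK (φ : GA k) : KK k →ₐ[k] KK k :=
  IsFractionRing.liftAlgHom (g := (ιK k).comp φ.toAlgHom) (ιφ_inj φ)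

theorem ψK_coe (φ : GA k) (f : PP k) : ψK φ (ιK k f) = ιK k (φ f) :=
  IsFractionRing.lift_algebraMap
    (g := (((ιK k).comp φ.toAlgHom : PP k →ₐ[k] KK k) : PP k →+* KK k)) (ιφ_inj φ) f

/-- the case where `c` and `φ(c)` are algebraically independent -/
theorem top_of_pair (F : Fin 2 → PP k) (hJ : IsUnit (Matrix.det (jac F))) (φ : GA k)
    (hinf : ∀ n, 0 < n → φ ^ n ≠ 1) (c : PP k) (horb : ∀ n : ℕ, (φ ^ n) c ∈ SS F)
    (hjac : DJ c (φ c) ≠ 0) : SS F = ⊤ := by
  have hnc : ∀ a : k, c ≠ C a := by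
    rintro a rfl
    apply hjac
    rw [DJ_apply, pderiv_C, pderiv_C]; ring
  set y : KK k := ιK k c with hy
  set x : KK k := ιK k (φ c) with hx
  have hyt : Transcendental k y := transcK_of_nonconst _ ((ne_C_iff c).1 hnc)
  have hHy : DK (pderiv 0 c) (pderiv 1 c) y = 0 := by
    have := HK_coe c c
    rw [DJ_self, map_zero] at this
    exact this
  have hxt : Transcendental (IntermediateField.adjoin k {y}) x := by
    intro h
    have h1 := DK_of_alg hHy x h
    have h2 : HK c (ιK k (φ c)) = 0 := h1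
    rw [HK_coe] at h2
    exact hjac ((map_eq_zero_iff _ iR_inj).1 h2)
  haveI hfd := hfin hyt x hxt
  set N₀ := IntermediateField.adjoin (IntermediateField.adjoin k {y}) {x} with hN₀
  haveI : CharZero N₀ := charZero_of_injective_algebraMap (algebraMap k N₀).injective
  haveI : Algebra.IsAlgebraic N₀ (KK k) := Algebra.IsAlgebraic.of_finite N₀ (KK k)
  haveI : Algebra.IsSeparable N₀ (KK k) := Algebra.IsAlgebraic.isSeparable_of_perfectField
  haveI hfinite : Finite (IntermediateField N₀ (KK k)) :=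
    Field.finite_intermediateField_of_exists_primitive_element N₀ (KK k)
      (Field.exists_primitive_element N₀ (KK k))
  let M : ℕ → IntermediateField k (KK k) := fun j => (fF (KK k) F).comap (ψK (φ ^ j))
  have hM : ∀ (j : ℕ) (z : KK k), z ∈ M j ↔ ψK (φ ^ j) z ∈ fF (KK k) F := fun j z => Iff.rfl
  have hE1 : ∀ j, IntermediateField.adjoin k {y} ≤ M j := by
    intro j
    rw [IntermediateField.adjoin_simple_le_iff, hM, hy, ψK_coe]
    exact ι_mem_fF F _ (horb j)
  have hE2 : ∀ j, N₀ ≤ IntermediateField.extendScalars (hE1 j) := by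
    intro j
    rw [hN₀, IntermediateField.adjoin_simple_le_iff, IntermediateField.mem_extendScalars, hM, hx,
      ψK_coe, ← pow_succ_apply]
    exact ι_mem_fF F _ (horb (j + 1))
  let f : ℕ → IntermediateField N₀ (KK k) := fun j => IntermediateField.extendScalars (hE2 j)
  have hf : ∀ (j : ℕ) (z : KK k), z ∈ f j ↔ ψK (φ ^ j) z ∈ fF (KK k) F := fun j z => Iff.rfl
  obtain ⟨i, j, hij, heq⟩ : ∃ i j, i < j ∧ f i = f j := by
    obtain ⟨i, j, hne, heq⟩ := Finite.exists_ne_map_eq_of_infinite f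
    rcases lt_or_gt_of_ne hne with h | h
    · exact ⟨i, j, h, heq⟩
    · exact ⟨j, i, h, heq.symm⟩
  obtain ⟨d, rfl⟩ := Nat.exists_eq_add_of_lt hij
  refine main_any hJ (φ ^ (d + 1)) ?_ ?_
  · intro n hn h1
    rw [← pow_mul] at h1
    exact hinf _ (by positivity) h1
  · intro l
    have h1 : ιK k ((φ ^ i)⁻¹ (F l)) ∈ f i := by
      rw [hf, ψK_coe, apply_inv_self']
      exact ι_mem_fF F _ ⟨X l, by simp⟩
    rw [heq, hf, ψK_coe] at h1
    have h2 : (φ ^ (i + d + 1)) ((φ ^ i)⁻¹ (F l)) = (φ ^ (d + 1)) (F l) := by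
      have h3 : φ ^ (i + d + 1) = φ ^ (d + 1) * φ ^ i := by
        rw [← pow_add]; congr 1; omega
      rw [h3]
      change (φ ^ (d + 1)) ((φ ^ i) ((φ ^ i)⁻¹ (F l))) = _
      rw [apply_inv_self']
    rw [h2] at h1
    exact mem_SS_of_mem_fF (KK k) F hJ _ h1

theorem DJ_poly (h g : PP k) (γ : Polynomial k) :
    DJ (Polynomial.aeval h γ) g = Polynomial.aeval h (Polynomial.derivative γ) * DJ h g := by
  have h1 : ∀ a b : PP k, DJ a b = -DJ b a := by
    intro a b
    rw [DJ_apply, DJ_apply]; ring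
  rw [h1, Derivation.map_aeval, h1 h g, smul_eq_mul]
  ring

theorem der_ne_zero {h : PP k} (hc : ∀ a : k, h ≠ C a) {γ : Polynomial k}
    (hγ : ∀ a : k, Polynomial.aeval h γ ≠ C a) :
    Polynomial.aeval h (Polynomial.derivative γ) ≠ 0 := by
  intro h1
  have h2 : Polynomial.derivative γ = 0 := by
    apply aeval_inj hc
    rw [h1, map_zero]
  have h3 := Polynomial.derivative_eq_zero.1 h2
  obtain ⟨a, rfl⟩ := Polynomial.natDegree_eq_zero.1 h3
  apply hγ a
  rw [Polynomial.aeval_C, MvPolynomial.algebraMap_eq]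

end

section
variable {k : Type*} [Field k] [CharZero k] [IsAlgClosed k]

/-- the case where `c` and `φ(c)` are algebraically dependent -/
theorem top_of_dep (F : Fin 2 → PP k) (hJ : IsUnit (Matrix.det (jac F))) (φ : GA k)
    (hinf : ∀ n, 0 < n → φ ^ n ≠ 1) (c : PP k) (hnc : ∀ a : k, c ≠ C a)
    (horb : ∀ n : ℕ, (φ ^ n) c ∈ SS F) (hjac : DJ c (φ c) = 0) : SS F = ⊤ := by
  classical
  obtain ⟨A, B, h, r, H, hr, hH⟩ := exists_fib c hnc
  have hK : ∀ f, DJ c f = 0 → ∃ γ : Polynomial k, f = Polynomial.aeval h γ := by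
    intro f hf
    apply H.ker
    rw [← DK_zero_iff]
    have h1 := hH (ιK k f)
    rw [HK_coe, hf, map_zero] at h1
    exact (mul_eq_zero.1 h1.symm).resolve_left hr
  obtain ⟨γ, hγ⟩ := hK c (DJ_self c)
  obtain ⟨γ1, hγ1⟩ := hK (φ c) hjac
  have hφc : ∀ a : k, φ c ≠ C a := by
    intro a ha
    apply hnc a
    apply φ.injective
    rw [ha, ga_C]
  have hDh : DJ c h = 0 := by
    conv_lhs => rw [hγ]
    rw [DJ_poly, DJ_self, mul_zero]
  have hd1 : Polynomial.aeval h (Polynomial.derivative γ1) ≠ 0 :=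
    der_ne_zero H.hc (fun a => by rw [← hγ1]; exact hφc a)
  -- `φ` and its inverse map `k[h]` to itself
  have h1 : DJ c (φ h) = 0 := by
    have e1 : DJ (φ c) (φ h) = 0 := by rw [DJ_map, hDh, map_zero, mul_zero]
    conv_lhs at e1 => rw [hγ1]
    rw [DJ_poly] at e1
    have e2 := (mul_eq_zero.1 e1).resolve_left hd1
    conv_lhs => rw [hγ]
    rw [DJ_poly, e2, mul_zero]
  have h2 : DJ c (φ⁻¹ h) = 0 := by
    have e1 : DJ (φ c) h = 0 := by
      conv_lhs => rw [hγ1]
      rw [DJ_poly, DJ_self, mul_zero]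
    have e2 := DJ_map φ⁻¹ (φ c) h
    rw [e1, map_zero, mul_zero, inv_apply_self'] at e2
    exact e2
  obtain ⟨μ, hμ⟩ := hK _ h1
  obtain ⟨ν, hν⟩ := hK _ h2
  have hφp : ∀ P : Polynomial k, φ (Polynomial.aeval h P) = Polynomial.aeval h (P.comp μ) := by
    intro P
    rw [Polynomial.aeval_comp, ← hμ]
    exact (Polynomial.aeval_algHom_apply φ.toAlgHom h P).symm
  have hcomp : ν.comp μ = Polynomial.X := by
    apply aeval_inj H.hc
    rw [← hφp, ← hν, apply_inv_self', Polynomial.aeval_X]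
  have hdeg := congrArg Polynomial.natDegree hcomp
  rw [Polynomial.natDegree_comp, Polynomial.natDegree_X] at hdeg
  have hμd : μ.natDegree = 1 := Nat.eq_one_of_mul_eq_one_left hdeg
  set α := μ.coeff 1 with hα
  set β := μ.coeff 0 with hβ
  have hα0 : α ≠ 0 := by
    rw [hα, ← hμd]
    exact Polynomial.leadingCoeff_ne_zero.2 (by rintro rfl; simp at hμd)
  -- an element of minimal degree
  have hex : ∃ m : ℕ, 0 < m ∧ ∃ P : Polynomial k, P.natDegree = m ∧
      ∀ n : ℕ, (φ ^ n) (Polynomial.aeval h P) ∈ SS F := by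
    refine ⟨γ.natDegree, ?_, γ, rfl, fun n => by rw [← hγ]; exact horb n⟩
    rw [Nat.pos_iff_ne_zero]
    intro h0
    obtain ⟨a, rfl⟩ := Polynomial.natDegree_eq_zero.1 h0
    apply hnc a
    rw [hγ, Polynomial.aeval_C, MvPolynomial.algebraMap_eq]
  set m := Nat.find hex with hm
  obtain ⟨hm0, P, hP, hPorb⟩ := Nat.find_spec hex
  rw [← hm] at hm0 hP
  set v := Polynomial.aeval h P with hv
  have hP0 : P ≠ 0 := by rintro rfl; simp at hP; omega
  set Q := P.comp μ - Polynomial.C (α ^ m) * P with hQ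
  have hQφ : Polynomial.aeval h Q = φ v - C (α ^ m) * v := by
    rw [hQ, map_sub, map_mul, Polynomial.aeval_C, MvPolynomial.algebraMap_eq, hv, hφp]
  have hQorb : ∀ n : ℕ, (φ ^ n) (Polynomial.aeval h Q) ∈ SS F := by
    intro n
    rw [hQφ, map_sub, map_mul, ga_C, ← pow_succ_apply]
    exact sub_mem (hPorb (n + 1)) (mul_mem (C_mem_SS F _) (hPorb n))
  have hQle : Q.natDegree ≤ m := by
    rw [hQ]
    refine (Polynomial.natDegree_sub_le _ _).trans ?_
    rw [Polynomial.natDegree_comp, hμd, mul_one, hP]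
    refine max_le le_rfl ?_
    refine (Polynomial.natDegree_C_mul_le _ _).trans hP.le
  have hQm : Q.coeff m = 0 := by
    have e1 : (P.comp μ).coeff m = P.leadingCoeff * α ^ m := by
      have e2 : (P.comp μ).leadingCoeff = P.leadingCoeff * μ.leadingCoeff ^ P.natDegree :=
        Polynomial.leadingCoeff_comp (by rw [hμd]; exact one_ne_zero)
      rw [Polynomial.leadingCoeff, Polynomial.natDegree_comp, hμd, mul_one, hP] at e2
      rw [e2, Polynomial.leadingCoeff, Polynomial.leadingCoeff, hμd, hP]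
    rw [hQ, Polynomial.coeff_sub, Polynomial.coeff_C_mul, e1, Polynomial.leadingCoeff, hP]
    ring
  have hQ0 : Q.natDegree = 0 := by
    by_contra hne
    have hpos : 0 < Q.natDegree := Nat.pos_of_ne_zero hne
    have hlt : Q.natDegree < m := by
      refine lt_of_le_of_ne hQle ?_
      intro h3
      have h4 : Q.leadingCoeff = 0 := by rw [Polynomial.leadingCoeff, h3, hQm]
      rw [Polynomial.leadingCoeff_eq_zero] at h4
      rw [h4, Polynomial.natDegree_zero] at hpos
      exact lt_irrefl _ hpos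
    exact Nat.find_min hex hlt ⟨hpos, Q, rfl, hQorb⟩
  obtain ⟨e, he⟩ := Polynomial.natDegree_eq_zero.1 hQ0
  have hφv : φ v = C (α ^ m) * v + C e := by
    rw [← he, Polynomial.aeval_C, MvPolynomial.algebraMap_eq] at hQφ
    rw [hQφ]; ring
  have hvS : v ∈ SS F := by
    have := hPorb 0
    rwa [pow_zero] at this
  have hvc : ∀ a : k, v ≠ C a := by
    intro a ha
    have h3 : P = Polynomial.C a := by
      apply aeval_inj H.hc
      rw [Polynomial.aeval_C, MvPolynomial.algebraMap_eq, ← ha]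
    rw [h3, Polynomial.natDegree_C] at hP
    omega
  set l := α ^ m with hl
  by_cases hl1 : l = 1
  · rw [hl1, C_1, one_mul] at hφv
    by_cases he0 : e = 0
    · apply top_of_semi F hJ φ hinf v hvS hvc 1
      rw [hφv, he0, C_0, add_zero, C_1, one_mul]
    · exact top_of_tra F hJ hvS he0 hφv
  · have hl1' : 1 - l ≠ 0 := sub_ne_zero.2 (fun h3 => hl1 h3.symm)
    apply top_of_semi F hJ φ hinf (v - C (e / (1 - l))) (sub_mem hvS (C_mem_SS F _)) ?_ l
    · rw [map_sub, hφv, ga_C]
      have h3 : (C e : PP k) = C (e / (1 - l)) - C l * C (e / (1 - l)) := by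
        rw [← C_mul, ← C_sub]
        congr 1
        field_simp
      rw [h3]; ring
    · intro a ha
      apply hvc (a + e / (1 - l))
      rw [C_add, ← ha]; ring

/-- A plane Keller map the algebra of which contains all images `φ^n(c)`, `n ≥ 0`, of a
nonconstant polynomial `c` under the powers of an automorphism of infinite order is an
automorphism. -/
theorem top_of_orbit (F : Fin 2 → PP k) (hJ : IsUnit (Matrix.det (jac F))) (φ : GA k)
    (hinf : ∀ n, 0 < n → φ ^ n ≠ 1) (c : PP k) (hnc : ∀ a : k, c ≠ C a)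
    (horb : ∀ n : ℕ, (φ ^ n) c ∈ SS F) : SS F = ⊤ := by
  by_cases h : DJ c (φ c) = 0
  · exact top_of_dep F hJ φ hinf c hnc horb h
  · exact top_of_pair F hJ φ hinf c horb h

end

end Pool.Agent.E8helper43.KE
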