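import Pool.Agent.E8helper43.KE.Frac

/-!
# Plane Keller maps and vector fields with poles along parallel lines

Let `F` be a plane Keller map, `c ∈ k[F]` not constant and `E` a vector field on the plane with poles
along lines `x = const`, such that `E(c) = λ c`, `λ ≠ 0`, and the divergence of `E` lies in `k(F)`.
Then `F` is an automorphism.
-/

set_option autoImplicit false
set_option linter.unusedSectionVars false

open MvPolynomial Pool.Agent.H928R2.Inv Pool.Agent.H928R2.Pen Pool.Agent.H922R2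

namespace Pool.Agent.E8helper43.KE

section
variable {k : Type*} [Field k] [CharZero k]

theorem dL_comm (x : KK k) : dL (0 : Fin 2) (dL 1 x) = dL 1 (dL 0 x) := by
  let D0 : Derivation k (KK k) (KK k) := dL (0 : Fin 2)
  let D1 : Derivation k (KK k) (KK k) := dL (1 : Fin 2)
  have hT : ∀ y : KK k, (⁅D0, D1⁆ : Derivation k (KK k) (KK k)) y =
      dL (0 : Fin 2) (dL 1 y) - dL 1 (dL 0 y) := fun y => Derivation.commutator_apply ..
  have h := der_zero (⁅D0, D1⁆ : Derivation k (KK k) (KK k)) (by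
    intro i
    rw [hT, dL_ι, dL_ι, dL_ι, dL_ι, pderiv_comm01, sub_self]) x
  rw [hT] at h
  exact sub_eq_zero.1 h

/-- the vector field `p ∂_x + q ∂_y` -/
noncomputable def VK (p q : KK k) : Derivation k (KK k) (KK k) := p • dL 0 + q • dL 1

theorem VK_apply (p q x : KK k) : VK p q x = p * dL 0 x + q * dL 1 x := rfl

theorem HK_apply (c : PP k) (x : KK k) :
    HK c x = dL 0 (ιK k c) * dL 1 x - dL 1 (ιK k c) * dL 0 x := by
  rw [HK, DK_apply, dL_ι, dL_ι]

/-- a vector field with `E c = l c` normalises the Hamiltonian field of `c` up to its divergence -/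
theorem VK_comm (p q : KK k) (c : PP k) (l : k)
    (hE : VK p q (ιK k c) = algebraMap k (KK k) l * ιK k c) (x : KK k) :
    VK p q (HK c x) - HK c (VK p q x) =
      (algebraMap k (KK k) l - (dL 0 p + dL 1 q)) * HK c x := by
  have h0 := congrArg (dL (0 : Fin 2)) hE
  have h1 := congrArg (dL (1 : Fin 2)) hE
  simp only [VK_apply, HK_apply, map_add, map_sub, Derivation.leibniz, smul_eq_mul,
    Derivation.map_algebraMap, mul_zero, add_zero, dL_comm] at h0 h1 ⊢
  linear_combination (dL 1 x) * h0 - (dL 0 x) * h1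

theorem squarefree_aeval (F : Fin 2 → PP k) (hJ : IsUnit (Matrix.det (jac F))) {π : PP k}
    (hπ : Prime π) : Squarefree (aeval F π) := by
  intro r hr
  by_contra hu
  have h0 : aeval F π ≠ 0 := aeval_unit F hJ hπ.ne_zero
  have hr0 : r ≠ 0 := by
    rintro rfl
    rw [zero_mul] at hr
    exact h0 (zero_dvd_iff.1 hr)
  obtain ⟨ρ, hρ, hρr⟩ := WfDvdMonoid.exists_irreducible_factor hu hr0
  exact not_sq_dvd F hJ π ρ hπ hρ.prime ((mul_dvd_mul hρr hρr).trans hr)

/-- the algebra of a Keller map is closed under roots -/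
theorem root_mem (F : Fin 2 → PP k) (hJ : IsUnit (Matrix.det (jac F))) {m : ℕ} (hm : m ≠ 0)
    (n : ℕ) : ∀ y : PP k, y.totalDegree ≤ n → y ^ m ∈ SS F → y ∈ SS F := by
  induction n with
  | zero =>
    intro y hy _
    have h : y.totalDegree = 0 := by omega
    rw [totalDegree_eq_zero_iff_eq_C] at h
    rw [h]; exact C_mem_SS F _
  | succ n ih =>
    intro y hy hym
    by_cases hy0 : y.totalDegree = 0
    · exact ih y (by omega) hym
    obtain ⟨q, hq⟩ := hym
    replace hq : aeval F q = y ^ m := hq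
    have hyne : y ≠ 0 := by rintro rfl; simp at hy0
    have hqne : q ≠ 0 := by
      rintro rfl
      rw [map_zero] at hq
      exact pow_ne_zero m hyne hq.symm
    have hqu : ¬ IsUnit q := by
      intro hu
      have h1 : IsUnit (y ^ m) := by rw [← hq]; exact hu.map (aeval F)
      have h2 : IsUnit y := (isUnit_pow_iff hm).1 h1
      obtain ⟨c, -, hc⟩ := (isUnit_iff_C y).1 h2
      rw [hc] at hy0
      exact hy0 (totalDegree_C c)
    obtain ⟨π, hπ, hπq⟩ := WfDvdMonoid.exists_irreducible_factor hqu hqne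
    have h3 : aeval F π ∣ y ^ m := by rw [← hq]; exact map_dvd _ hπq
    have h4 : aeval F π ∣ y := ((squarefree_aeval F hJ hπ.prime).dvd_pow_iff_dvd hm).1 h3
    obtain ⟨y', rfl⟩ := h4
    have hπ0 : aeval F π ≠ 0 := aeval_unit F hJ hπ.ne_zero
    have hy'0 : y' ≠ 0 := right_ne_zero_of_mul hyne
    have hdeg : (aeval F π : PP k).totalDegree ≠ 0 := by
      intro h
      rw [totalDegree_eq_zero_iff_eq_C] at h
      apply hπ.not_isUnit
      have h5 := C_of_aeval F (aeval_injective F hJ) h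
      rw [isUnit_iff_C]
      refine ⟨_, ?_, h5⟩
      intro h6
      rw [h6, C_0] at h5
      exact hπ.ne_zero h5
    have h6 : y' ^ m ∈ SS F := by
      apply mem_SS_of_mem_fF (KK k) F hJ
      have h7 : ιK k (y' ^ m) = ιK k (aeval F q) / ιK k (aeval F π) ^ m := by
        have h8 : ιK k (aeval F π) ^ m ≠ 0 := pow_ne_zero _ (ι_ne hπ0)
        rw [hq, mul_pow, map_mul, map_pow (ιK k) (aeval F π) m, eq_div_iff h8]
        ring
      show ιK k (y' ^ m) ∈ _
      rw [h7]
      exact div_mem (ι_mem_fF F _ ⟨q, rfl⟩) (pow_mem (ι_mem_fF F _ ⟨π, rfl⟩) m)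
    have h8 : y' ∈ SS F := ih y' (by
      rw [totalDegree_mul_of_isDomain hπ0 hy'0] at hy; omega) h6
    exact mul_mem ⟨π, rfl⟩ h8

theorem VK_coe (P Q s f : PP k) :
    VK (ιK k P / ιK k s) (ιK k Q / ιK k s) (ιK k f) =
      ιK k (P * pderiv 0 f + Q * pderiv 1 f) / ιK k s := by
  rw [VK_apply, dL_ι, dL_ι, map_add, map_mul, map_mul]
  ring

theorem ιK_C (a : k) : ιK k (C a) = algebraMap k (KK k) a := by
  rw [← MvPolynomial.algebraMap_eq, AlgHom.commutes]

end

section
variable {k : Type*} [Field k] [CharZero k] [IsAlgClosed k]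

/-- unless `k[F]` is everything it contains only the constant polynomials in `x` -/
theorem const_of_pd1 (F : Fin 2 → PP k) (hJ : IsUnit (Matrix.det (jac F))) (hB : SS F ≠ ⊤)
    (d : PP k) (hd : d ∈ SS F) (hd1 : pderiv 1 d = 0) : ∃ a : k, d = C a := by
  by_contra hcon
  push Not at hcon
  obtain ⟨R, hR⟩ := exists_ux hd1
  apply hB
  exact top_of_ux F hJ ⟨R, natDegree_pos_of_ux hcon hR, hR ▸ hd⟩

theorem pd1_of_dvd {d s : PP k} (hs : s ≠ 0) (hs1 : pderiv 1 s = 0) (h : d ∣ s) :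
    pderiv 1 d = 0 :=
  LN.fact' _ (LN_pderiv 1) hs hs1 h

/-- the constants of the Hamiltonian field of `c ∈ k[F]` lie in `k(F)` if `E(c) = l c`, `l ≠ 0`, for
a vector field `E` with poles along parallel lines -/
theorem ker_mem_pol (F : Fin 2 → PP k) (hJ : IsUnit (Matrix.det (jac F))) (hB : SS F ≠ ⊤)
    (c : PP k) (hcS : c ∈ SS F) (hnc : ∀ a : k, c ≠ C a) (s P Q : PP k) (hs : s ≠ 0)
    (hs1 : pderiv 1 s = 0) {l : k} (hl : l ≠ 0)
    (hE : P * pderiv 0 c + Q * pderiv 1 c = C l * s * c) :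
    ∀ x : KK k, HK c x = 0 → x ∈ fF (KK k) F := by
  obtain ⟨A, B, h, r, H, hr, hH⟩ := exists_fib c hnc
  have hDc : dd A B c = 0 := by
    rw [← DK_zero_iff]
    have h1 := hH (ιK k c)
    rw [HK_coe, DJ_self, map_zero] at h1
    exact (mul_eq_zero.1 h1.symm).resolve_left hr
  suffices hh : h ∈ SS F by
    intro x hx
    rw [hH] at hx
    have h1 := (H.kerK x).1 ((mul_eq_zero.1 hx).resolve_left hr)
    have h2 : IntermediateField.adjoin k {ιK k h} ≤ fF (KK k) F := by
      rw [IntermediateField.adjoin_simple_le_iff]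
      exact ι_mem_fF F h hh
    exact h2 h1
  obtain ⟨γ, hγ⟩ := H.ker c hDc
  have hcx : ∀ i, pderiv i c = Polynomial.aeval h (Polynomial.derivative γ) * pderiv i h := by
    intro i
    conv_lhs => rw [hγ]
    rw [Derivation.map_aeval, smul_eq_mul]
  have hR : Polynomial.aeval h (Polynomial.derivative γ) * (P * pderiv 0 h + Q * pderiv 1 h) =
      C l * s * c := by
    rw [← hE, hcx, hcx]; ring
  have hdeg : 0 < γ.natDegree := by
    rw [Nat.pos_iff_ne_zero]
    intro h0
    rw [Polynomial.natDegree_eq_zero] at h0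
    obtain ⟨a, ha⟩ := h0
    apply hnc a
    rw [hγ, ← ha, Polynomial.aeval_C, MvPolynomial.algebraMap_eq]
  obtain ⟨c0, z, hc00, hform⟩ := pow_form γ hdeg (by
    intro z hz
    by_contra hcon
    obtain ⟨g1, hg1⟩ := Polynomial.dvd_iff_isRoot.2 hz
    have h1 : h - C z ∣ C l * s * c := by
      rw [← hR, hg1, map_mul]
      refine Dvd.dvd.mul_right (Dvd.dvd.mul_right ?_ _) _
      simp [MvPolynomial.algebraMap_eq]
    obtain ⟨g2, hg2⟩ := Polynomial.X_sub_C_dvd_sub_C_eval (p := γ) (a := z)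
    have h2 : IsCoprime (h - C z) c := by
      have h3 : c = C (γ.eval z) + (h - C z) * Polynomial.aeval h g2 := by
        have h4 := congrArg (Polynomial.aeval h) hg2
        rw [map_sub, map_mul, ← hγ, map_sub, Polynomial.aeval_C, Polynomial.aeval_C,
          Polynomial.aeval_X, MvPolynomial.algebraMap_eq, sub_eq_iff_eq_add] at h4
        rw [h4]; ring
      have hz0 : γ.eval z ≠ 0 := hcon
      refine ⟨-(C (γ.eval z)⁻¹ * Polynomial.aeval h g2), C (γ.eval z)⁻¹, ?_⟩
      have h5 : (C (γ.eval z)⁻¹ * C (γ.eval z) : PP k) = 1 := by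
        rw [← C_mul, inv_mul_cancel₀ hz0, C_1]
      calc -(C (γ.eval z)⁻¹ * Polynomial.aeval h g2) * (h - C z) + C (γ.eval z)⁻¹ * c
          = -(C (γ.eval z)⁻¹ * Polynomial.aeval h g2) * (h - C z) +
            C (γ.eval z)⁻¹ * (C (γ.eval z) + (h - C z) * Polynomial.aeval h g2) := by rw [← h3]
        _ = 1 := by linear_combination h5
    have h3 : h - C z ∣ C l * s := h2.dvd_of_dvd_mul_right h1
    have h4 : pderiv 1 (h - C z) = 0 := by
      apply pd1_of_dvd (s := C l * s) (mul_ne_zero (by rw [Ne, C_eq_zero]; exact hl) hs) _ h3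
      rw [pderiv_C_mul, hs1, mul_zero]
    rw [map_sub, pderiv_C, sub_zero] at h4
    obtain ⟨a, ha⟩ := const_of_pd1 F hJ hB c hcS (by rw [hcx, h4, mul_zero])
    exact hnc a ha)
  have h2 : c = C c0 * (h - C z) ^ γ.natDegree := by
    conv_lhs => rw [hγ, hform]
    simp [MvPolynomial.algebraMap_eq]
  have h3 : (h - C z) ^ γ.natDegree ∈ SS F := by
    have h4 : (h - C z) ^ γ.natDegree = C c0⁻¹ * c := by
      rw [h2, ← mul_assoc, ← C_mul, inv_mul_cancel₀ hc00, C_1, one_mul]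
    rw [h4]
    exact mul_mem (C_mem_SS F _) hcS
  have h4 := root_mem F hJ hdeg.ne' _ _ le_rfl h3
  have h5 : h = (h - C z) + C z := by ring
  rw [h5]
  exact add_mem h4 (C_mem_SS F _)

/-- a fraction in `k(F)` the denominator of which is a polynomial in `x` is a polynomial -/
theorem dvd_of_frac (F : Fin 2 → PP k) (hJ : IsUnit (Matrix.det (jac F))) (hB : SS F ≠ ⊤)
    (U s : PP k) (hs : s ≠ 0) (hs1 : pderiv 1 s = 0) (h : ιK k U / ιK k s ∈ fF (KK k) F) :
    s ∣ U := by
  obtain ⟨U', s', g, hco, rfl, rfl⟩ := UniqueFactorizationMonoid.exists_reduced_factors' U s hs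
  obtain ⟨a, b, hab⟩ := (mem_fF_iff (KK k) F _).1 h
  have hg : g ≠ 0 := left_ne_zero_of_mul hs
  have hs' : s' ≠ 0 := right_ne_zero_of_mul hs
  by_cases hb : b = 0
  · rw [hb, map_zero, div_zero, div_eq_zero_iff] at hab
    rcases hab with h1 | h1
    · rw [(map_eq_zero_iff _ iR_inj).1 h1]; exact dvd_zero _
    · exact absurd h1 (ι_ne hs)
  · have hb' : ιK k (aeval F b) ≠ 0 := ι_ne (aeval_unit F hJ hb)
    have h1 : ιK k (g * U') * ιK k (aeval F b) = ιK k (aeval F a) * ιK k (g * s') :=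
      (div_eq_div_iff (ι_ne hs) hb').1 hab
    rw [← map_mul, ← map_mul] at h1
    have h2 : U' * aeval F b = aeval F a * s' := by
      apply mul_left_cancel₀ hg
      have h3 := iR_inj h1
      linear_combination h3
    obtain ⟨-, h3⟩ := mem_of_frac F hJ hco hs' hb h2
    obtain ⟨e, he⟩ := const_of_pd1 F hJ hB s' h3 (pd1_of_dvd hs hs1 (dvd_mul_left _ _))
    have he0 : e ≠ 0 := by rintro rfl; exact hs' (by rw [he, C_0])
    refine ⟨C e⁻¹ * U', ?_⟩
    rw [he]
    have h5 : (C e * C e⁻¹ : PP k) = 1 := by rw [← C_mul, mul_inv_cancel₀ he0, C_1]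
    linear_combination (-(g * U')) * h5

/-- **Theorem.** Let `c ∈ k[F]` be a nonconstant semi-invariant, of weight `l ≠ 0`, of the vector
field `E = (P ∂_x + Q ∂_y) / s`, where `s` is a polynomial in `x`, such that the divergence of `E` lies
in `k(F)`. If `E` is not polynomial then `F` is an automorphism. -/
theorem top_of_pol (F : Fin 2 → PP k) (hJ : IsUnit (Matrix.det (jac F)))
    (c : PP k) (hcS : c ∈ SS F) (hnc : ∀ a : k, c ≠ C a) (s P Q : PP k) (hs : s ≠ 0)
    (hs1 : pderiv 1 s = 0) (hpole : ¬ (s ∣ P ∧ s ∣ Q)) {l : k} (hl : l ≠ 0)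
    (hE : P * pderiv 0 c + Q * pderiv 1 c = C l * s * c) (p q : PP k) (hq : q ≠ 0)
    (hdiv : (s * (pderiv 0 P + pderiv 1 Q) - (P * pderiv 0 s + Q * pderiv 1 s)) * aeval F q =
      s ^ 2 * aeval F p) : SS F = ⊤ := by
  by_contra hB
  have hker := ker_mem_pol F hJ hB c hcS hnc s P Q hs hs1 hl hE
  have hs' : ιK k s ≠ 0 := ι_ne hs
  have hEc : VK (ιK k P / ιK k s) (ιK k Q / ιK k s) (ιK k c) =
      algebraMap k (KK k) l * ιK k c := by
    rw [VK_coe, hE, map_mul, map_mul, ιK_C]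
    field_simp
  have hσ : algebraMap k (KK k) l - (dL 0 (ιK k P / ιK k s) + dL 1 (ιK k Q / ιK k s)) ∈
      fF (KK k) F := by
    refine sub_mem ((fF (KK k) F).algebraMap_mem _) ?_
    have hq' : ιK k (aeval F q) ≠ 0 := ι_ne (aeval_unit F hJ hq)
    have h1 : dL 0 (ιK k P / ιK k s) + dL 1 (ιK k Q / ιK k s) =
        ιK k (aeval F p) / ιK k (aeval F q) := by
      rw [Derivation.leibniz_div, Derivation.leibniz_div, dL_ι, dL_ι, dL_ι, dL_ι]
      simp only [smul_eq_mul]
      have h2 := congrArg (ιK k) hdiv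
      simp only [map_mul, map_sub, map_add, map_pow] at h2
      rw [eq_div_iff hq']
      field_simp
      linear_combination h2
    rw [h1]
    exact div_mem (ι_mem_fF F _ ⟨p, rfl⟩) (ι_mem_fF F _ ⟨q, rfl⟩)
  obtain ⟨q0, rfl⟩ := hcS
  have hst := main_stable F hJ q0 (VK (ιK k P / ιK k s) (ιK k Q / ιK k s))
    (by
      show VK (ιK k P / ιK k s) (ιK k Q / ιK k s) (ιK k (aeval F q0)) ∈ _
      have h1 := hEc
      change VK (ιK k P / ιK k s) (ιK k Q / ιK k s) (ιK k (aeval F q0)) = _ at h1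
      rw [h1]
      exact mul_mem ((fF (KK k) F).algebraMap_mem _) (ι_mem_fF F _ ⟨q0, rfl⟩))
    hnc hker _ hσ (VK_comm _ _ _ l hEc)
  have hU : ∀ i, s ∣ P * pderiv 0 (F i) + Q * pderiv 1 (F i) := by
    intro i
    apply dvd_of_frac F hJ hB _ _ hs hs1
    rw [← VK_coe]
    exact hst _ (ι_mem_fF F _ ⟨X i, by simp⟩)
  rw [det_jac] at hJ
  obtain ⟨δ, hδ0, hδ⟩ := (isUnit_iff_C _).1 hJ
  rw [DJ_apply] at hδ
  have hδ1 : (C δ * C δ⁻¹ : PP k) = 1 := by rw [← C_mul, mul_inv_cancel₀ hδ0, C_1]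
  apply hpole
  constructor
  · have h1 : P = C δ⁻¹ * ((P * pderiv 0 (F 0) + Q * pderiv 1 (F 0)) * pderiv 1 (F 1) -
        (P * pderiv 0 (F 1) + Q * pderiv 1 (F 1)) * pderiv 1 (F 0)) := by
      linear_combination (-P) * hδ1 + (-(C δ⁻¹ * P)) * hδ
    rw [h1]
    exact Dvd.dvd.mul_left (dvd_sub (Dvd.dvd.mul_right (hU 0) _) (Dvd.dvd.mul_right (hU 1) _)) _
  · have h1 : Q = C δ⁻¹ * ((P * pderiv 0 (F 1) + Q * pderiv 1 (F 1)) * pderiv 0 (F 0) -
        (P * pderiv 0 (F 0) + Q * pderiv 1 (F 0)) * pderiv 0 (F 1)) := by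
      linear_combination (-Q) * hδ1 + (-(C δ⁻¹ * Q)) * hδ
    rw [h1]
    exact Dvd.dvd.mul_left (dvd_sub (Dvd.dvd.mul_right (hU 1) _) (Dvd.dvd.mul_right (hU 0) _)) _

end

end Pool.Agent.E8helper43.KE
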