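import Pool.Agent.E8helper43.KE.Pol

/-!
# Plane Keller maps whose algebra contains a polynomial with isomorphic general fibres
-/

set_option autoImplicit false
set_option linter.unusedSectionVars false

open MvPolynomial Pool.Agent.H928R2.Inv Pool.Agent.H928R2.Pen Pool.Agent.H922R2

namespace Pool.Agent.E8helper43.KE

section
variable {k : Type*} [Field k] [CharZero k] [IsAlgClosed k]

theorem pd1_ux (R : Polynomial k) : pderiv 1 (ux R : PP k) = 0 := by
  rw [ux, Derivation.map_aeval, pderiv_X_of_ne (by decide), smul_zero]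

theorem pd0_ux (R : Polynomial k) : pderiv 0 (ux R : PP k) = ux (Polynomial.derivative R) := by
  rw [ux, Derivation.map_aeval, pderiv_X_self, smul_eq_mul, mul_one]
  rfl

theorem ux_ne {R : Polynomial k} (h : R ≠ 0) : (ux R : PP k) ≠ 0 := by
  intro h1
  apply h
  apply ux_injective
  rw [h1, ux, map_zero]

theorem dvd_of_ux_dvd {a b : Polynomial k} (h : (ux a : PP k) ∣ ux b) : a ∣ b := by
  by_cases hb : b = 0
  · rw [hb]; exact dvd_zero _
  obtain ⟨r, hr⟩ := h
  have h1 : pderiv 1 r = 0 := pd1_of_dvd (ux_ne hb) (pd1_ux b) ⟨ux a, by rw [hr, mul_comm]⟩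
  obtain ⟨r', rfl⟩ := exists_ux h1
  refine ⟨r', ux_injective ?_⟩
  rw [hr, ux_mul]

/-- **(A)** polynomials `g(x) (a(x) y + b(x)) ^ n` -/
theorem top_of_A (F : Fin 2 → PP k) (hJ : IsUnit (Matrix.det (jac F))) (g a b : Polynomial k)
    (n : ℕ) (hn : n ≠ 0) (hg : g ≠ 0) (ha : a ≠ 0)
    (hcS : ux g * (ux a * X 1 + ux b) ^ n ∈ SS F) : SS F = ⊤ := by
  have hn' : (n : k) ≠ 0 := Nat.cast_ne_zero.2 hn
  obtain ⟨n', rfl⟩ := Nat.exists_eq_succ_of_ne_zero hn
  by_cases hab : a ∣ b
  · obtain ⟨b1, rfl⟩ := hab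
    set θ : GA k := elemY (-b1) with hθ
    apply SS_top_comp F θ
    have h1 := (mem_SS_comp θ F _).2 hcS
    have h0 : ∀ R : Polynomial k, θ (ux R) = ux R := by
      intro R
      rw [gmap_ux, hθ, elemY_X0]; rfl
    have hy : θ (X 1) = X 1 - ux b1 := by
      rw [hθ, elemY_X1, ux, map_neg, ux]; ring
    have h2 : θ (ux g * (ux a * X 1 + ux (a * b1)) ^ (n' + 1)) =
        ux (g * a ^ (n' + 1)) * X 1 ^ (n' + 1) := by
      rw [map_mul, map_pow, map_add, map_mul, h0, h0, h0, hy, ux_mul, ux_mul]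
      have h3 : (ux (a ^ (n' + 1)) : PP k) = ux a ^ (n' + 1) := by rw [ux, map_pow]; rfl
      rw [h3, mul_assoc, ← mul_pow]
      congr 2
      ring
    rw [h2] at h1
    have hne : (ux (g * a ^ (n' + 1)) * X 1 ^ (n' + 1) : PP k) ≠ 0 :=
      mul_ne_zero (ux_ne (mul_ne_zero hg (pow_ne_zero _ ha))) (pow_ne_zero _ (X_ne_zero 1))
    apply top_of_eig _ (jac_comp θ F hJ) ![0, 1] _ h1 hne (D := ((n' + 1 : ℕ) : k)) hn'
    have e1 : pderiv 1 (ux (g * a ^ (n' + 1)) * X 1 ^ (n' + 1) : PP k) =
        ((n' + 1 : ℕ) : PP k) * (ux (g * a ^ (n' + 1)) * X 1 ^ n') := by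
      rw [Derivation.leibniz, Derivation.leibniz_pow, pd1_ux, pderiv_X_self, Nat.add_sub_cancel,
        smul_zero, add_zero, smul_eq_mul, smul_eq_mul, nsmul_eq_mul]
      ring
    rw [ED_apply, e1]
    simp only [Matrix.cons_val_zero, Matrix.cons_val_one, Int.cast_zero, Int.cast_one, C_0, C_1,
      zero_mul, one_mul, zero_add, map_natCast]
    ring
  · have hw1 : pderiv 1 (ux a * X 1 + ux b : PP k) = ux a := by
      rw [map_add, Derivation.leibniz, pd1_ux, pd1_ux, pderiv_X_self]
      simp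
    refine top_of_pol F hJ _ hcS ?_ (ux a) 0 (ux a * X 1 + ux b) (ux_ne ha) (pd1_ux a) ?_ hn' ?_
      1 1 one_ne_zero ?_
    · -- not constant
      intro e he
      have h1 := congrArg (pderiv (1 : Fin 2)) he
      rw [pderiv_C, Derivation.leibniz, pd1_ux, Derivation.leibniz_pow, hw1, smul_zero, add_zero,
        smul_eq_mul, smul_eq_mul, nsmul_eq_mul] at h1
      have hw : (ux a * X 1 + ux b : PP k) ≠ 0 := by
        intro h2
        rw [h2, map_zero] at hw1
        exact ux_ne ha hw1.symm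
      have h3 : ((n'.succ : ℕ) : PP k) ≠ 0 := Nat.cast_ne_zero.2 hn
      exact mul_ne_zero (ux_ne hg) (mul_ne_zero h3 (mul_ne_zero (pow_ne_zero _ hw) (ux_ne ha))) h1
    · rintro ⟨-, h1⟩
      apply hab
      apply dvd_of_ux_dvd (k := k)
      exact (dvd_add_right (Dvd.intro _ rfl)).1 h1
    · have e1 : pderiv 1 (ux g * (ux a * X 1 + ux b) ^ (n' + 1) : PP k) =
          ((n' + 1 : ℕ) : PP k) * (ux g * (ux a * X 1 + ux b) ^ n' * ux a) := by
        rw [Derivation.leibniz, Derivation.leibniz_pow, pd1_ux, hw1, Nat.add_sub_cancel,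
          smul_zero, add_zero, smul_eq_mul, smul_eq_mul, nsmul_eq_mul]
        ring
      rw [Nat.succ_eq_add_one, e1, zero_mul, zero_add, map_natCast]
      ring
    · rw [map_one, hw1, pd1_ux]
      simp only [map_zero, zero_add, zero_mul, mul_zero, sub_zero, mul_one, add_zero]
      ring

/-- **(B)** quasi-homogeneous polynomials in `x` and `x ^ l y + p(x)` -/
theorem top_of_B (F : Fin 2 → PP k) (hJ : IsUnit (Matrix.det (jac F))) (l : ℕ)
    (p : Polynomial k) (hp : p.degree < l) (α β d : ℤ) (r : PP k)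
    (hr : ∀ m ∈ r.support, α * (m 0 : ℤ) + β * (m 1 : ℤ) = d) (N : ℕ) (hd : d ≠ α * N)
    (c : PP k) (hc : X 0 ^ N * c = aeval ![X 0, X 0 ^ l * X 1 + ux p] r) (hc0 : c ≠ 0)
    (hcS : c ∈ SS F) : SS F = ⊤ := by
  set w : PP k := X 0 ^ l * X 1 + ux p with hw
  set D : k := (d : k) - α * N with hDdef
  have hD : D ≠ 0 := by
    rw [hDdef]
    have h1 : ((d - α * N : ℤ) : k) ≠ 0 := Int.cast_ne_zero.2 (sub_ne_zero.2 hd)
    push_cast at h1
    exact h1
  have hx : (X 0 : PP k) ≠ 0 := X_ne_zero 0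
  have hED : ED (α : k) (β : k) r = C (d : k) * r := by
    ext t
    rw [coeff_ED, coeff_C_mul]
    by_cases ht : coeff t r = 0
    · rw [ht, mul_zero, mul_zero]
    · rw [← hr t (mem_support_iff.2 ht)]
      push_cast; ring
  have hX0 : pderiv 0 (X 0 ^ l : PP k) * X 0 = (l : PP k) * X 0 ^ l := by
    rw [Derivation.leibniz_pow, pderiv_X_self, smul_eq_mul, mul_one, nsmul_eq_mul]
    rcases Nat.eq_zero_or_pos l with h | h
    · subst h; simp
    · obtain ⟨l', rfl⟩ := Nat.exists_eq_succ_of_ne_zero h.ne'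
      rw [Nat.succ_eq_add_one, Nat.add_sub_cancel, pow_succ]; ring
  have hX1 : pderiv 1 (X 0 ^ l : PP k) = 0 := by
    rw [Derivation.leibniz_pow, pderiv_X_of_ne (by decide), smul_zero, smul_zero]
  -- the vector field, multiplied by `x ^ l`
  set P : PP k := C (α : k) * X 0 ^ l * X 0 with hP
  set Q : PP k := C ((β : k) - l * α) * X 0 ^ l * X 1 +
    (C (β : k) * ux p - C (α : k) * X 0 * ux (Polynomial.derivative p)) with hQ
  let Δ : Derivation k (PP k) (PP k) := P • pderiv 0 + Q • pderiv 1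
  have hΔ : ∀ f, Δ f = P * pderiv 0 f + Q * pderiv 1 f := fun f => rfl
  have hΔx : Δ (X 0) = X 0 ^ l * (C (α : k) * X 0) := by
    rw [hΔ, pderiv_X_self, pderiv_X_of_ne (by decide), hP]; ring
  have hΔw : Δ w = X 0 ^ l * (C (β : k) * w) := by
    have h0 : pderiv 0 w = pderiv 0 (X 0 ^ l) * X 1 + ux (Polynomial.derivative p) := by
      rw [hw, map_add, Derivation.leibniz, pderiv_X_of_ne (by decide), pd0_ux]
      simp only [smul_eq_mul]; ring
    have h1 : pderiv 1 w = X 0 ^ l := by
      rw [hw, map_add, Derivation.leibniz, hX1, pderiv_X_self, pd1_ux]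
      simp
    rw [hΔ, h0, h1, hP, hQ, hw]
    have h2 : (C ((β : k) - l * α) : PP k) = C (β : k) - (l : PP k) * C (α : k) := by
      rw [C_sub, C_mul, map_natCast]
    rw [h2]
    linear_combination (C (α : k) * X 0 ^ l * X 1) * hX0
  have hΔr : Δ (aeval ![X 0, w] r) = X 0 ^ l * (C (d : k) * aeval ![X 0, w] r) := by
    have h1 : C (d : k) * aeval ![X 0, w] r = aeval ![X 0, w] (ED (α : k) (β : k) r) := by
      rw [hED, map_mul]
      congr 1
      exact ((aeval ![X 0, w] : PP k →ₐ[k] PP k).commutes (d : k)).symm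
    have hC : ∀ e : k, aeval ![X 0, w] (C e : PP k) = (C e : PP k) := fun e =>
      (aeval ![X 0, w] : PP k →ₐ[k] PP k).commutes e
    rw [h1, deriv_aeval, Fin.sum_univ_two, ED_apply, map_add, map_mul, map_mul, map_mul, map_mul,
      hC, hC, aeval_X, aeval_X]
    simp only [Matrix.cons_val_zero, Matrix.cons_val_one]
    rw [hΔx, hΔw]
    ring
  have hΔN : Δ (X 0 ^ N) = X 0 ^ l * (C ((α : k) * N) * X 0 ^ N) := by
    rw [Derivation.leibniz_pow, hΔx, smul_eq_mul, nsmul_eq_mul, C_mul, map_natCast]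
    rcases Nat.eq_zero_or_pos N with h | h
    · subst h; simp
    · obtain ⟨N', rfl⟩ := Nat.exists_eq_succ_of_ne_zero h.ne'
      rw [Nat.succ_eq_add_one, Nat.add_sub_cancel, pow_succ (X 0 : PP k) N']; ring
  have hΔc : P * pderiv 0 c + Q * pderiv 1 c = C D * X 0 ^ l * c := by
    have h1 : Δ (X 0 ^ N * c) = X 0 ^ l * (C (d : k) * (X 0 ^ N * c)) := by
      rw [hc]; exact hΔr
    rw [Derivation.leibniz, hΔN, smul_eq_mul, smul_eq_mul] at h1
    have h2 : X 0 ^ N * (Δ c) = X 0 ^ N * (C D * X 0 ^ l * c) := by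
      rw [hDdef, C_sub]
      linear_combination h1
    rw [← hΔ]
    exact mul_left_cancel₀ (pow_ne_zero N hx) h2
  by_cases hpol : Polynomial.C (β : k) * p =
      Polynomial.C (α : k) * (Polynomial.X * Polynomial.derivative p)
  · -- the vector field is diagonal
    apply top_of_eig F hJ ![α, β - l * α] c hcS hc0 hD
    have h1 : C (β : k) * ux p - C (α : k) * X 0 * ux (Polynomial.derivative p) = (0 : PP k) := by
      have h2 := congrArg (ux (k := k)) hpol
      rw [ux_mul, ux_mul, ux_mul, ux_C, ux_C] at h2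
      have h3 : (ux Polynomial.X : PP k) = X 0 := by rw [ux, Polynomial.aeval_X]
      rw [h3] at h2
      rw [h2]; ring
    rw [hQ, h1, add_zero, hP] at hΔc
    apply mul_left_cancel₀ (pow_ne_zero l hx)
    rw [ED_apply]
    simp only [Matrix.cons_val_zero, Matrix.cons_val_one]
    push_cast
    linear_combination hΔc
  · have hXl : (X 0 ^ l : PP k) = ux (Polynomial.X ^ l) := by rw [ux, map_pow, Polynomial.aeval_X]
    refine top_of_pol F hJ c hcS ?_ (X 0 ^ l) P Q (pow_ne_zero l hx) hX1 ?_ hD hΔc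
      (C ((α : k) + β - l * α)) 1 one_ne_zero ?_
    · intro e he
      rw [he, pderiv_C, pderiv_C, mul_zero, mul_zero, add_zero, ← he] at hΔc
      exact mul_ne_zero (mul_ne_zero (by rw [Ne, C_eq_zero]; exact hD) (pow_ne_zero l hx)) hc0
        hΔc.symm
    · rintro ⟨-, h1⟩
      have h2 : (X 0 ^ l : PP k) ∣
          C (β : k) * ux p - C (α : k) * X 0 * ux (Polynomial.derivative p) := by
        rw [hQ] at h1
        exact (dvd_add_right (Dvd.dvd.mul_right (Dvd.dvd.mul_left dvd_rfl _) _)).1 h1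
      have h3 : (C (β : k) * ux p - C (α : k) * X 0 * ux (Polynomial.derivative p) : PP k) =
          ux (Polynomial.C (β : k) * p -
            Polynomial.C (α : k) * (Polynomial.X * Polynomial.derivative p)) := by
        simp only [ux, map_sub, map_mul, Polynomial.aeval_C, Polynomial.aeval_X,
          MvPolynomial.algebraMap_eq]
        ring
      rw [h3, hXl] at h2
      have h4 := dvd_of_ux_dvd h2
      have h5 := Polynomial.eq_zero_of_dvd_of_degree_lt h4 (by
        rw [Polynomial.degree_X_pow]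
        refine lt_of_le_of_lt (Polynomial.degree_sub_le _ _) (max_lt ?_ ?_)
        · rw [← Polynomial.smul_eq_C_mul]
          exact lt_of_le_of_lt (Polynomial.degree_smul_le _ _) hp
        · rw [← Polynomial.smul_eq_C_mul]
          refine lt_of_le_of_lt ((Polynomial.degree_smul_le _ _).trans ?_) hp
          by_cases hp0 : p = 0
          · subst hp0; simp
          rw [Polynomial.degree_le_iff_coeff_zero]
          intro m hm
          rcases m with _ | m
          · rw [Polynomial.mul_coeff_zero, Polynomial.coeff_X_zero, zero_mul]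
          · rw [Polynomial.coeff_X_mul, Polynomial.coeff_derivative,
              Polynomial.coeff_eq_zero_of_degree_lt hm, zero_mul])
      exact hpol (sub_eq_zero.1 h5)
    · rw [map_one, mul_one]
      have h0 : pderiv 0 P = C ((α : k) * (l + 1)) * X 0 ^ l := by
        rw [hP, mul_assoc, pderiv_C_mul, Derivation.leibniz, pderiv_X_self, smul_eq_mul,
          smul_eq_mul, C_mul, C_add, C_1, map_natCast]
        linear_combination (C (α : k)) * hX0
      have h1 : pderiv 1 Q = C ((β : k) - l * α) * X 0 ^ l := by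
        have e1 : ∀ e : k, pderiv 1 (C e * X 0 ^ l * X 1 : PP k) = C e * X 0 ^ l := by
          intro e
          rw [mul_assoc, pderiv_C_mul, Derivation.leibniz, hX1, pderiv_X_self, smul_zero, add_zero,
            smul_eq_mul, mul_one]
        have e2 : pderiv 1 (C (β : k) * ux p -
            C (α : k) * X 0 * ux (Polynomial.derivative p) : PP k) = 0 := by
          rw [map_sub, mul_assoc, pderiv_C_mul, pderiv_C_mul, Derivation.leibniz, pd1_ux, pd1_ux,
            pderiv_X_of_ne (by decide)]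
          simp
        rw [hQ, map_add, e1, e2, add_zero]
      have h2 : (aeval F (C ((α : k) + β - l * α) : PP k) : PP k) = C ((α : k) + β - l * α) :=
        (aeval F : PP k →ₐ[k] PP k).commutes _
      rw [h0, h1, h2, hX1, hP, mul_zero, add_zero]
      simp only [C_sub, C_add, C_mul, C_1, map_natCast]
      linear_combination (-(C (α : k)) * X 0 ^ l) * hX0

end

end Pool.Agent.E8helper43.KE
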