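import Pool.Agent.E8helper43.KE.Ker

/-!
# Semi-invariants of automorphisms of infinite order in the algebra of a plane Keller map
-/

set_option autoImplicit false
set_option linter.unusedSectionVars false

open MvPolynomial Pool.Agent.H928R2.Inv Pool.Agent.H928R2.Pen Pool.Agent.H922R2

namespace Pool.Agent.E8helper43.KE

/-- the components of a sum of eigenvectors with different eigenvalues lie in every stable
subspace which contains the sum -/
theorem comp_mem {k A ι : Type*} [Field k] [AddCommGroup A] [Module k A] (V : Submodule k A)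
    (T : A →ₗ[k] A) (hT : ∀ v ∈ V, T v ∈ V) (S : Finset ι) :
    ∀ (f : ι → A) (μ : ι → k), (∀ i ∈ S, ∀ j ∈ S, μ i = μ j → i = j) →
      (∀ i ∈ S, T (f i) = μ i • f i) → ∑ i ∈ S, f i ∈ V → ∀ i ∈ S, f i ∈ V := by
  classical
  induction S using Finset.induction_on with
  | empty =>
    intro f μ _ _ _ i hi
    simp at hi
  | insert a S ha ih =>
    intro f μ hμ hf hsum
    rw [Finset.sum_insert ha] at hsum
    have h1 : ∑ i ∈ S, (μ i - μ a) • f i ∈ V := by
      have h2 : ∑ i ∈ S, (μ i - μ a) • f i = T (f a + ∑ i ∈ S, f i) - μ a • (f a + ∑ i ∈ S, f i) := by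
        rw [map_add, map_sum, hf a (Finset.mem_insert_self a S), smul_add, Finset.smul_sum]
        rw [Finset.sum_congr rfl (fun i hi => hf i (Finset.mem_insert_of_mem hi))]
        rw [add_sub_add_left_eq_sub, ← Finset.sum_sub_distrib]
        apply Finset.sum_congr rfl
        intro i _
        rw [sub_smul]
      rw [h2]
      exact V.sub_mem (hT _ hsum) (V.smul_mem _ hsum)
    have h3 := ih (fun i => (μ i - μ a) • f i) μ
      (fun i hi j hj => hμ i (Finset.mem_insert_of_mem hi) j (Finset.mem_insert_of_mem hj))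
      (fun i hi => by
        show T ((μ i - μ a) • f i) = μ i • (μ i - μ a) • f i
        rw [map_smul, hf i (Finset.mem_insert_of_mem hi), smul_comm]) h1
    have h4 : ∀ i ∈ S, f i ∈ V := by
      intro i hi
      have h5 : μ i - μ a ≠ 0 := by
        intro h6
        have := hμ i (Finset.mem_insert_of_mem hi) a (Finset.mem_insert_self a S) (sub_eq_zero.1 h6)
        exact ha (this ▸ hi)
      have h7 := V.smul_mem (μ i - μ a)⁻¹ (h3 i hi)
      rwa [smul_smul, inv_mul_cancel₀ h5, one_smul] at h7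
    intro i hi
    rcases Finset.mem_insert.1 hi with rfl | hi
    · have h8 := V.sub_mem hsum (V.sum_mem h4)
      rwa [add_sub_cancel_right] at h8
    · exact h4 i hi

section
variable {k : Type*} [Field k] [CharZero k]

/-- the diagonal automorphism -/
noncomputable def dg (a b : k) (ha : a ≠ 0) (hb : b ≠ 0) : GA k :=
  mkGA (C a * X 0) (C b * X 1) (C a⁻¹ * X 0) (C b⁻¹ * X 1)
    (by simp [← mul_assoc, ← C_mul, inv_mul_cancel₀ ha, MvPolynomial.algebraMap_eq])
    (by simp [← mul_assoc, ← C_mul, inv_mul_cancel₀ hb, MvPolynomial.algebraMap_eq])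
    (by simp [← mul_assoc, ← C_mul, mul_inv_cancel₀ ha, MvPolynomial.algebraMap_eq])
    (by simp [← mul_assoc, ← C_mul, mul_inv_cancel₀ hb, MvPolynomial.algebraMap_eq])

theorem dg_X0 (a b : k) (ha : a ≠ 0) (hb : b ≠ 0) : dg a b ha hb (X 0) = C a * X 0 :=
  mkGA_X0 _ _ _ _ _ _ _ _

theorem dg_X1 (a b : k) (ha : a ≠ 0) (hb : b ≠ 0) : dg a b ha hb (X 1) = C b * X 1 :=
  mkGA_X1 _ _ _ _ _ _ _ _

theorem two_zpow (m : ℤ) (h : (2 : k) ^ m = 1) : m = 0 := by
  have h1 : ((2 : ℚ) ^ m : ℚ) = 1 := by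
    have h2 : (((2 : ℚ) ^ m : ℚ) : k) = ((1 : ℚ) : k) := by push_cast; exact h
    exact_mod_cast h2
  by_contra hne
  have h3 := (zpow_eq_one_iff_right₀ (show (0 : ℚ) ≤ 2 by norm_num) (by norm_num)).1 h1
  exact hne h3

/-- homogeneous component for an integral weight -/
noncomputable def hcw (w : Fin 2 → ℤ) (r : PP k) (n : ℤ) : PP k := by
  classical
  exact ∑ t ∈ r.support.filter (fun t => wtt w t = n), monomial t (coeff t r)

open Classical in
theorem coeff_hcw (w : Fin 2 → ℤ) (r : PP k) (n : ℤ) (t : Fin 2 →₀ ℕ) :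
    coeff t (hcw w r n) = if wtt w t = n then coeff t r else 0 := by
  unfold hcw
  rw [coeff_sum]
  simp only [coeff_monomial]
  rw [Finset.sum_ite_eq']
  simp only [Finset.mem_filter, mem_support_iff]
  by_cases h1 : wtt w t = n
  · by_cases h2 : coeff t r = 0
    · simp [h2]
    · simp [h1, h2]
  · simp [h1]

theorem wtt_two (w : Fin 2 → ℤ) (t : Fin 2 →₀ ℕ) :
    wtt w t = w 0 * (t 0 : ℤ) + w 1 * (t 1 : ℤ) := by
  rw [wtt, Fin.sum_univ_two]

theorem ED_hcw (w : Fin 2 → ℤ) (r : PP k) (n : ℤ) :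
    ED (w 0 : k) (w 1 : k) (hcw w r n) = ((n : ℤ) : k) • hcw w r n := by
  classical
  ext t
  rw [coeff_ED, coeff_smul, coeff_hcw, smul_eq_mul]
  split_ifs with h
  · rw [← h, wtt_two]; push_cast; ring
  · rw [mul_zero, mul_zero]

theorem dg_hcw (w : Fin 2 → ℤ) (r : PP k) (n : ℤ) :
    dg ((2 : k) ^ w 0) ((2 : k) ^ w 1) (zpow_ne_zero _ two_ne_zero) (zpow_ne_zero _ two_ne_zero)
      (hcw w r n) = ((2 : k) ^ n) • hcw w r n := by
  classical
  ext t
  rw [coeff_diag (dg_X0 _ _ _ _) (dg_X1 _ _ _ _), coeff_smul, coeff_hcw, smul_eq_mul]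
  split_ifs with h
  · congr 1
    rw [ev, ← h, wtt_two, zpow_add₀ two_ne_zero, zpow_mul, zpow_mul, zpow_natCast, zpow_natCast]
  · rw [mul_zero, mul_zero]

theorem sum_hcw (w : Fin 2 → ℤ) (r : PP k) :
    ∑ n ∈ r.support.image (wtt w), hcw w r n = r := by
  classical
  ext t
  rw [coeff_sum]
  simp only [coeff_hcw]
  by_cases h : coeff t r = 0
  · rw [h]; simp
  · rw [Finset.sum_ite_eq, if_pos]
    exact Finset.mem_image_of_mem _ (mem_support_iff.2 h)

/-- an algebra which is stable under a diagonal field is stable under the torus -/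
theorem dg_mem (F : Fin 2 → PP k) (w : Fin 2 → ℤ)
    (hE : ∀ s ∈ SS F, ED (w 0 : k) (w 1 : k) s ∈ SS F) (s : PP k) (hs : s ∈ SS F) :
    dg ((2 : k) ^ w 0) ((2 : k) ^ w 1) (zpow_ne_zero _ two_ne_zero) (zpow_ne_zero _ two_ne_zero) s
      ∈ SS F := by
  classical
  have h1 := comp_mem (Subalgebra.toSubmodule (SS F))
    (ED (w 0 : k) (w 1 : k) : Derivation k (PP k) (PP k)).toLinearMap
    (fun v hv => hE v hv) (s.support.image (wtt w)) (hcw w s) (fun n => ((n : ℤ) : k))
    (fun i _ j _ h => by exact_mod_cast h)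
    (fun i _ => ED_hcw w s i)
    (by rw [sum_hcw]; exact hs)
  have h2 : dg ((2 : k) ^ w 0) ((2 : k) ^ w 1) (zpow_ne_zero _ two_ne_zero)
      (zpow_ne_zero _ two_ne_zero) s = ∑ n ∈ s.support.image (wtt w), ((2 : k) ^ n) • hcw w s n := by
    conv_lhs => rw [← sum_hcw w s]
    rw [map_sum]
    exact Finset.sum_congr rfl fun n _ => dg_hcw w s n
  rw [h2]
  exact sum_mem fun n hn => Subalgebra.smul_mem _ (h1 n hn) _

end

section
variable {k : Type*} [Field k] [CharZero k] [IsAlgClosed k]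

/-- a plane Keller map the algebra of which contains an eigenvector, with nonzero eigenvalue, of
a diagonal vector field with integral weights is an automorphism -/
theorem top_of_eig (F : Fin 2 → PP k) (hJ : IsUnit (Matrix.det (jac F))) (w : Fin 2 → ℤ)
    (c : PP k) (hcS : c ∈ SS F) (hc : c ≠ 0) {D : k} (hD : D ≠ 0)
    (hE : ED (w 0 : k) (w 1 : k) c = C D * c) : SS F = ⊤ := by
  obtain ⟨Q, hQ⟩ := hcS
  replace hQ : aeval F Q = c := hQ
  have hQ0 : Q ≠ 0 := by
    rintro rfl
    rw [map_zero] at hQ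
    exact hc hQ.symm
  obtain ⟨π, D', hπ, hD', hE'⟩ := exists_prime_eig F hJ Q.totalDegree Q D le_rfl hQ0 hD (by
    rw [hQ]; exact hE)
  have h1 := ED_stable_of_prime F hJ π hπ hD' hE'
  refine main_any hJ (dg ((2 : k) ^ w 0) ((2 : k) ^ w 1) (zpow_ne_zero _ two_ne_zero)
    (zpow_ne_zero _ two_ne_zero)) ?_ (fun i => dg_mem F w h1 _ ⟨X i, by simp⟩)
  intro n hn h2
  have h3 := pow_diag (dg_X0 ((2 : k) ^ w 0) ((2 : k) ^ w 1) (zpow_ne_zero _ two_ne_zero)
    (zpow_ne_zero _ two_ne_zero)) (dg_X1 _ _ _ _) n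
  rw [h2] at h3
  have h4 : ∀ (i : Fin 2) (a : k), (X i : PP k) = C a * X i → a = 1 := by
    intro i a h
    have h5 := congrArg (coeff (Finsupp.single i 1)) h
    rw [coeff_C_mul, coeff_X] at h5
    simpa using h5.symm
  have h5 := h4 0 _ h3.1
  have h6 := h4 1 _ h3.2
  rw [← zpow_natCast, ← zpow_mul] at h5 h6
  have h7 := two_zpow _ h5
  have h8 := two_zpow _ h6
  have hn' : (n : ℤ) ≠ 0 := by exact_mod_cast hn.ne'
  have h9 : w 0 = 0 := (mul_eq_zero.1 h7).resolve_right hn'
  have h10 : w 1 = 0 := (mul_eq_zero.1 h8).resolve_right hn'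
  rw [h9, h10, Int.cast_zero, ED_apply, C_0, zero_mul, zero_mul, zero_mul, zero_mul, add_zero] at hE
  rcases mul_eq_zero.1 hE.symm with h11 | h11
  · exact hD (C_eq_zero.1 h11)
  · exact hc h11

/-- a plane Keller map the algebra of which contains a nonconstant quasi-homogeneous polynomial is
an automorphism -/
theorem top_of_qh (F : Fin 2 → PP k) (hJ : IsUnit (Matrix.det (jac F))) (w : Fin 2 → ℤ)
    (hw : w ≠ 0) (c : PP k) (hcS : c ∈ SS F) (hnc : ∀ a : k, c ≠ C a)
    (hqh : ∀ m ∈ c.support, ∀ m' ∈ c.support, wtt w m = wtt w m') : SS F = ⊤ := by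
  classical
  have hc : c ≠ 0 := by rintro rfl; exact hnc 0 (by simp)
  obtain ⟨m0, hm0⟩ : ∃ m0, m0 ∈ c.support := by
    by_contra hcon
    push Not at hcon
    exact hc (support_eq_empty.1 (Finset.eq_empty_of_forall_notMem hcon))
  have hE : ED (w 0 : k) (w 1 : k) c = C ((wtt w m0 : ℤ) : k) * c := by
    ext t
    rw [coeff_ED, coeff_C_mul]
    by_cases ht : coeff t c = 0
    · rw [ht, mul_zero, mul_zero]
    · rw [← hqh t (mem_support_iff.2 ht) m0 hm0, wtt_two]
      push_cast; ring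
  by_cases hD : wtt w m0 = 0
  · -- weight zero
    have h0 : ∀ t, coeff t c ≠ 0 → w 0 * (t 0 : ℤ) + w 1 * (t 1 : ℤ) = 0 := by
      intro t ht
      rw [← wtt_two, hqh t (mem_support_iff.2 ht) m0 hm0, hD]
    obtain ⟨t1, ht1, ht1'⟩ : ∃ t, coeff t c ≠ 0 ∧ t ≠ 0 := by
      by_contra hcon
      push Not at hcon
      apply hnc (coeff 0 c)
      ext t
      rw [coeff_C]
      split_ifs with h
      · rw [h]
      · by_contra h2
        exact h (hcon t h2).symm
    -- coprime exponents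
    have hgpos : 0 < Int.gcd (w 0) (w 1) := by
      rw [Int.gcd_pos_iff]
      by_contra hcon
      push Not at hcon
      apply hw
      funext i
      fin_cases i
      · exact hcon.1
      · exact hcon.2
    set g := Int.gcd (w 0) (w 1) with hg
    obtain ⟨a', ha'⟩ : (g : ℤ) ∣ w 1 := Int.gcd_dvd_right ..
    obtain ⟨b', hb'⟩ : (g : ℤ) ∣ w 0 := Int.gcd_dvd_left ..
    have hco : Nat.Coprime a'.natAbs b'.natAbs := by
      have h1 : Int.gcd (w 0) (w 1) = g * Int.gcd b' a' := by
        rw [ha', hb', Int.gcd_mul_left, Int.natAbs_natCast]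
      have h2 : g * Int.gcd b' a' = g * 1 := by rw [← h1, mul_one]
      have h3 := Nat.eq_of_mul_eq_mul_left hgpos h2
      rw [Nat.Coprime, Nat.gcd_comm]
      exact h3
    have hg0 : (g : ℤ) ≠ 0 := by exact_mod_cast hgpos.ne'
    have h1 : ∀ t, coeff t c ≠ 0 → b' * (t 0 : ℤ) = -(a' * (t 1 : ℤ)) := by
      intro t ht
      have h2 := h0 t ht
      rw [ha', hb'] at h2
      apply mul_left_cancel₀ hg0
      linear_combination h2
    have h2 : ∀ t, coeff t c ≠ 0 → b'.natAbs * t 0 = a'.natAbs * t 1 := by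
      intro t ht
      have h3 := congrArg Int.natAbs (h1 t ht)
      rwa [Int.natAbs_neg, Int.natAbs_mul, Int.natAbs_mul, Int.natAbs_natCast,
        Int.natAbs_natCast] at h3
    obtain ⟨P, hP⟩ := exists_pt a'.natAbs b'.natAbs hco c h2
    have hPd : 0 < P.natDegree := by
      rw [Nat.pos_iff_ne_zero]
      intro h3
      rw [Polynomial.natDegree_eq_zero] at h3
      obtain ⟨e, rfl⟩ := h3
      exact hnc e (by rw [hP, pt_C])
    obtain ⟨n, hn, hn2⟩ := pow_mem_of_pt F hJ a'.natAbs b'.natAbs hco ⟨P, hPd, by rw [← hP]; exact hcS⟩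
    have hpos : 0 < a'.natAbs * n + b'.natAbs * n := by
      rw [← add_mul]
      apply Nat.mul_pos _ (by omega)
      by_contra hcon
      have h3 : a'.natAbs = 0 ∧ b'.natAbs = 0 := by omega
      rw [h3.1, h3.2] at hco
      simp at hco
    obtain ⟨i', j', hi1, hj1, hij, -, -, hmem⟩ := mono_case F hJ _ _ hpos hn2
    apply top_of_eig F hJ (fun _ => 1) _ hmem
      (mul_ne_zero (pow_ne_zero _ (X_ne_zero 0)) (pow_ne_zero _ (X_ne_zero 1)))
      (D := (i' : k) + j') (by
        have : ((i' + j' : ℕ) : k) ≠ 0 := Nat.cast_ne_zero.2 hij.ne'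
        push_cast at this
        exact this)
    have hmon : (X 0 ^ i' * X 1 ^ j' : PP k) =
        monomial (Finsupp.single 0 i' + Finsupp.single 1 j') 1 := by
      rw [monomial_eq, Finsupp.prod_fintype _ _ (by simp), Fin.prod_univ_two]
      simp
    ext t
    rw [coeff_ED, coeff_C_mul, hmon, coeff_monomial]
    split_ifs with h
    · rw [← h]; simp
    · simp
  · exact top_of_eig F hJ w c hcS hc (by exact_mod_cast hD) hE

/-- A plane Keller map the algebra of which contains a nonconstant semi-invariant of an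
automorphism of infinite order is an automorphism. -/
theorem top_of_semi (F : Fin 2 → PP k) (hJ : IsUnit (Matrix.det (jac F))) (φ : GA k)
    (hinf : ∀ n, 0 < n → φ ^ n ≠ 1) (c : PP k) (hcS : c ∈ SS F) (hnc : ∀ a : k, c ≠ C a)
    (l : k) (hl : φ c = C l * c) : SS F = ⊤ := by
  obtain ⟨θ, w, hw, hqh⟩ := QH_main hinf hl
  apply SS_top_comp F θ
  apply top_of_qh _ (jac_comp θ F hJ) w hw (θ c) ((mem_SS_comp θ F c).2 hcS) _ hqh
  intro a ha
  apply hnc a
  apply θ.injective
  rw [ha, ga_C]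

end

end Pool.Agent.E8helper43.KE
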