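import Pool.Agent.E8helper43.KE.Tor

/-!
# Elements of the algebra of a plane Keller map which an automorphism translates
-/

set_option autoImplicit false
set_option linter.unusedSectionVars false
set_option linter.style.haveILetI false

open MvPolynomial Pool.Agent.H928R2.Inv Pool.Agent.H928R2.Pen Pool.Agent.H922R2

namespace Pool.Agent.E8helper43.KE

section NoInv

variable {k : Type*} [Field k]

/-- a nonconstant polynomial has no images of constant degree under the powers of an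
automorphism with exponential degree growth -/
theorem no_bounded {φ : GA k} {D : ℕ} (hD : 2 ≤ D)
    (hdeg : ∀ n, ((φ ^ n) (X 0)).totalDegree = D ^ n) {c : MvPolynomial (Fin 2) k} {s : ℕ}
    (hspos : 0 < s) (hsn : ∀ n, ((φ ^ n) c).totalDegree = s) : False := by
  classical
  have hs : s = c.totalDegree := (hsn 0).symm
  have hc0 : c ≠ 0 := by
    rintro rfl
    rw [totalDegree_zero] at hs
    omega
  obtain ⟨J, hJ⟩ : ∃ J, J = 5 * s := ⟨_, rfl⟩
  have hJD : J < D ^ J := Nat.lt_pow_self (by omega)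
  set g := (φ ^ J).symm (X 0) with hg
  have hgr : ∀ r, (φ ^ (J + r)) g = (φ ^ r) (X 0) := by
    intro r
    rw [add_comm, pow_add]
    change (φ ^ r) ((φ ^ J) g) = _
    rw [hg, AlgEquiv.apply_symm_apply]
  have hX0 : (X 0 : MvPolynomial (Fin 2) k) ≠ 0 := X_ne_zero 0
  let v : ℕ × ℕ × Fin (J + 1) → MvPolynomial (Fin 2) k := fun p => c ^ p.1 * X 0 ^ p.2.1 * g ^ (p.2.2 : ℕ)
  have hlin : LinearIndependent k v := by
    rw [linearIndependent_iff']
    intro S w hsum
    by_contra hcon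
    push Not at hcon
    obtain ⟨i0, hi0, hw0⟩ := hcon
    set S' := S.filter (fun i => w i ≠ 0) with hS'
    have hS'ne : S'.Nonempty := ⟨i0, by rw [hS', Finset.mem_filter]; exact ⟨hi0, hw0⟩⟩
    have hsum' : ∑ i ∈ S', w i • v i = 0 := by
      rw [← hsum, hS', Finset.sum_filter]
      apply Finset.sum_congr rfl
      intro i _
      split_ifs with h
      · rfl
      · rw [not_not] at h
        rw [h, zero_smul]
    set r := S'.sup (fun i => i.1 * s) with hr
    have hrle : ∀ i ∈ S', i.1 * s < D ^ r := by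
      intro i hi
      have h1 : i.1 * s ≤ r := Finset.le_sup (f := fun i : ℕ × ℕ × Fin (J + 1) => i.1 * s) hi
      exact lt_of_le_of_lt h1 (Nat.lt_pow_self (by omega))
    set θ : GA k := φ ^ (J + r) with hθ
    have hsum2 : ∑ i ∈ S', (C (w i) * θ (v i)) = 0 := by
      have := congrArg θ hsum'
      rw [map_zero, map_sum] at this
      rw [← this]
      apply Finset.sum_congr rfl
      intro i _
      rw [map_smul, smul_eq_C_mul]
    have hne : ∀ i ∈ S', C (w i) * θ (v i) ≠ 0 := by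
      intro i hi
      rw [hS', Finset.mem_filter] at hi
      apply mul_ne_zero
      · rw [Ne, C_eq_zero]; exact hi.2
      · rw [Ne, map_eq_zero_iff θ θ.injective]
        refine mul_ne_zero (mul_ne_zero (pow_ne_zero _ hc0) (pow_ne_zero _ hX0)) (pow_ne_zero _ ?_)
        rw [hg, Ne, map_eq_zero_iff _ (AlgEquiv.injective _)]
        exact hX0
    have htd : ∀ i ∈ S', (C (w i) * θ (v i)).totalDegree =
        i.1 * s + D ^ r * (i.2.1 * D ^ J + (i.2.2 : ℕ)) := by
      intro i hi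
      rw [hS', Finset.mem_filter] at hi
      rw [td_C_mul hi.2]
      have e1 : θ (v i) = ((φ ^ (J + r)) c) ^ i.1 * ((φ ^ (J + r)) (X 0)) ^ i.2.1 *
          ((φ ^ r) (X 0)) ^ (i.2.2 : ℕ) := by
        change θ (c ^ i.1 * X 0 ^ i.2.1 * g ^ (i.2.2 : ℕ)) = _
        rw [map_mul, map_mul, map_pow, map_pow, map_pow, hθ, hgr]
      have hx : ∀ n, (φ ^ n) (X 0) ≠ 0 := by
        intro n
        rw [Ne, map_eq_zero_iff _ (AlgEquiv.injective _)]
        exact hX0
      have hcx : (φ ^ (J + r)) c ≠ 0 := by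
        rw [Ne, map_eq_zero_iff _ (AlgEquiv.injective _)]
        exact hc0
      rw [e1, totalDegree_mul_of_isDomain (mul_ne_zero (pow_ne_zero _ hcx) (pow_ne_zero _ (hx _)))
          (pow_ne_zero _ (hx _)),
        totalDegree_mul_of_isDomain (pow_ne_zero _ hcx) (pow_ne_zero _ (hx _)),
        td_pow hcx, td_pow (hx _), td_pow (hx _), hdeg, hdeg, hsn, pow_add]
      ring
    refine sum_ne_zero_of_distinct S' _ hS'ne hne ?_ hsum2
    intro i hi j hj hij
    rw [htd i hi, htd j hj] at hij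
    have h1 := hrle i hi
    have h2 := hrle j hj
    have hDr : 0 < D ^ r := by positivity
    have e1 : i.1 * s = j.1 * s := by
      have := congrArg (· % D ^ r) hij
      simp only [Nat.add_mul_mod_self_left] at this
      rwa [Nat.mod_eq_of_lt h1, Nat.mod_eq_of_lt h2] at this
    have e2 : i.2.1 * D ^ J + (i.2.2 : ℕ) = j.2.1 * D ^ J + (j.2.2 : ℕ) := by
      rw [e1] at hij
      exact Nat.eq_of_mul_eq_mul_left hDr (Nat.add_left_cancel hij)
    have hi2 : (i.2.2 : ℕ) < D ^ J := lt_of_le_of_lt (Nat.lt_succ_iff.1 i.2.2.2) hJD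
    have hj2 : (j.2.2 : ℕ) < D ^ J := lt_of_le_of_lt (Nat.lt_succ_iff.1 j.2.2.2) hJD
    have e3 : (i.2.2 : ℕ) = (j.2.2 : ℕ) := by
      have := congrArg (· % D ^ J) e2
      simp only [Nat.mul_add_mod_self_right] at this
      rwa [Nat.mod_eq_of_lt hi2, Nat.mod_eq_of_lt hj2] at this
    have e4 : i.2.1 = j.2.1 := by
      rw [e3] at e2
      exact Nat.eq_of_mul_eq_mul_right (by positivity) (Nat.add_right_cancel e2)
    have e5 : i.1 = j.1 := Nat.eq_of_mul_eq_mul_right hspos e1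
    exact Prod.ext e5 (Prod.ext e4 (Fin.ext e3))
  -- counting
  set dg := g.totalDegree with hdg
  obtain ⟨Cst, hCst⟩ : ∃ Cst, Cst = 5 * s * dg + 1 := ⟨_, rfl⟩
  obtain ⟨T, hT⟩ : ∃ T, T = 5 * Cst := ⟨_, rfl⟩
  obtain ⟨n, hn⟩ : ∃ n, n = 2 * s * T + J * dg := ⟨_, rfl⟩
  let inj : Fin (T + 1) × Fin (s * T + 1) × Fin (J + 1) → ℕ × ℕ × Fin (J + 1) :=
    fun p => ((p.1 : ℕ), (p.2.1 : ℕ), p.2.2)
  have hinj : Function.Injective inj := by
    rintro ⟨a, b, j⟩ ⟨a', b', j'⟩ h
    simp only [inj, Prod.mk.injEq] at h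
    obtain ⟨h1, h2, h3⟩ := h
    exact Prod.ext (Fin.ext h1) (Prod.ext (Fin.ext h2) h3)
  have hlin2 : LinearIndependent k (v ∘ inj) := hlin.comp inj hinj
  set W : Finset (MvPolynomial (Fin 2) k) := ((Finset.range (n + 1)) ×ˢ (Finset.range (n + 1))).image
      (fun p : ℕ × ℕ => (X 0 ^ p.1 * X 1 ^ p.2 : MvPolynomial (Fin 2) k)) with hW
  have hspan : Set.range (v ∘ inj) ≤ Submodule.span k (W : Set (MvPolynomial (Fin 2) k)) := by
    rintro _ ⟨⟨a, b, j⟩, rfl⟩
    apply mem_span_monomials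
    change (c ^ (a : ℕ) * X 0 ^ (b : ℕ) * g ^ (j : ℕ)).totalDegree ≤ n
    refine (totalDegree_mul _ _).trans ?_
    refine (Nat.add_le_add (totalDegree_mul _ _) (totalDegree_pow _ _)).trans ?_
    refine (Nat.add_le_add (Nat.add_le_add (totalDegree_pow _ _) (totalDegree_pow _ _)) le_rfl).trans ?_
    rw [totalDegree_X, ← hs, ← hdg, mul_one]
    have ha : (a : ℕ) ≤ T := Nat.lt_succ_iff.1 a.2
    have hb : (b : ℕ) ≤ s * T := Nat.lt_succ_iff.1 b.2
    have hj : (j : ℕ) ≤ J := Nat.lt_succ_iff.1 j.2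
    have h1 : (a : ℕ) * s ≤ s * T := by rw [mul_comm]; exact Nat.mul_le_mul_left _ ha
    have h2 : (j : ℕ) * dg ≤ J * dg := Nat.mul_le_mul_right _ hj
    rw [hn]
    have : 2 * s * T = s * T + s * T := by ring
    omega
  have hcard := linearIndependent_le_span_aux' (v ∘ inj) hlin2 (W : Set (MvPolynomial (Fin 2) k)) hspan
  simp only [Fintype.card_prod, Fintype.card_fin, Finset.coe_sort_coe, Fintype.card_coe] at hcard
  have hWc : W.card ≤ (n + 1) * (n + 1) := by
    refine (Finset.card_image_le).trans ?_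
    rw [Finset.card_product, Finset.card_range]
  have hfin := hcard.trans hWc
  have hn1 : n + 1 = 2 * s * T + Cst := by rw [hn, hCst, hJ]; ring
  rw [hn1, hJ, hT] at hfin
  have hCpos : 0 < Cst := by omega
  have h1 : 5 * Cst * (s * (5 * Cst)) * (5 * s) <
      (5 * Cst + 1) * ((s * (5 * Cst) + 1) * (5 * s + 1)) := by
    have e1 : 5 * Cst * (s * (5 * Cst)) * (5 * s) ≤ (5 * Cst) * ((s * (5 * Cst) + 1) * (5 * s + 1)) := by
      rw [mul_assoc]
      apply Nat.mul_le_mul_left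
      exact Nat.mul_le_mul (by omega) (by omega)
    have e2 : 0 < (s * (5 * Cst) + 1) * (5 * s + 1) := by positivity
    have e3 : (5 * Cst + 1) * ((s * (5 * Cst) + 1) * (5 * s + 1)) =
      (5 * Cst) * ((s * (5 * Cst) + 1) * (5 * s + 1)) + (s * (5 * Cst) + 1) * (5 * s + 1) := by ring
    omega
  have h2 : (2 * s * (5 * Cst) + Cst) * (2 * s * (5 * Cst) + Cst) ≤
      5 * Cst * (s * (5 * Cst)) * (5 * s) := by
    have e1 : (2 * s * (5 * Cst) + Cst) * (2 * s * (5 * Cst) + Cst) =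
      (100 * s * s + 20 * s + 1) * (Cst * Cst) := by ring
    have e2 : 5 * Cst * (s * (5 * Cst)) * (5 * s) = (125 * s * s) * (Cst * Cst) := by ring
    rw [e1, e2]
    apply Nat.mul_le_mul_right
    nlinarith
  omega


end NoInv

section
variable {k : Type*} [Field k] [CharZero k]

/-- semi-invariants of `x ↦ ν x`, `y ↦ y + g` do not depend on `y` -/
theorem semi_shift {φ : GA k}
    {ν g : k} (hν : ν ≠ 0) (hg : g ≠ 0) (h0 : φ (X 0) = C ν * X 0) (h1 : φ (X 1) = X 1 + C g)
    {c : MvPolynomial (Fin 2) k} {l : k}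
    (hl : φ c = C l * c) : pderiv 1 c = 0 := by
  have hφD : ∀ r, pderiv 1 (φ r) = C 1 * φ (pderiv 1 r) := by
    intro r
    rw [pderiv_ga, h0, h1]
    simp
  by_contra hne
  obtain ⟨h, m, e1, e2, e3, e4⟩ := exists_top_pair (pderiv 1) (LN_pderiv 1) φ 1 one_ne_zero hφD hl hne
  rw [mul_one] at e1
  set a := pderiv 1 h with ha
  have hb : pderiv 1 (h - a * X 1) = 0 := by
    rw [map_sub, Derivation.leibniz, e4]
    simp [ha]
  obtain ⟨A, hA⟩ := exists_ux e4
  obtain ⟨B, hB⟩ := exists_ux hb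
  have hh : h = ux A * X 1 + ux B := by rw [← hA, ← hB]; ring
  have hφu : ∀ P : Polynomial k, φ (ux P) = ux (P.comp (Polynomial.C ν * Polynomial.X)) := by
    intro P
    rw [gmap_ux, h0, ux, Polynomial.aeval_comp]
    simp [algebraMap_eq]
  rw [hA, hφu, ← ux_C, ← ux_mul] at e2
  have e2' := ux_injective e2
  rw [hh, map_add, map_mul, hφu, hφu, h1, e2'] at e1
  have e5 : ux (Polynomial.C (m * g) * A) = ux (Polynomial.C m * B -
      B.comp (Polynomial.C ν * Polynomial.X)) := by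
    have : ∀ P Q : Polynomial k, ux (P - Q) = ux P - ux Q := by intro P Q; simp [ux]
    rw [this]
    simp only [ux_mul, ux_C, C_mul] at e1 ⊢
    linear_combination e1
  have e6 := ux_injective e5
  have hA0 : A ≠ 0 := by
    rintro rfl
    apply e3
    rw [hA]; simp [ux]
  obtain ⟨i, hi⟩ : ∃ i, A.coeff i ≠ 0 := by
    by_contra hcon
    push Not at hcon
    exact hA0 (Polynomial.ext (by simpa using hcon))
  have f1 := congrArg (fun P => Polynomial.coeff P i) e2'
  have f2 := congrArg (fun P => Polynomial.coeff P i) e6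
  simp only [Polynomial.comp_C_mul_X_coeff, Polynomial.coeff_C_mul, Polynomial.coeff_sub] at f1 f2
  have hm : m = ν ^ i := by
    have : A.coeff i * ν ^ i = A.coeff i * m := by rw [f1]; ring
    exact (mul_left_cancel₀ hi this).symm
  have hm0 : m ≠ 0 := by rw [hm]; exact pow_ne_zero _ hν
  rw [hm] at f2
  have f3 : ν ^ i * g * A.coeff i = 0 := by rw [f2]; ring
  rcases mul_eq_zero.1 f3 with f4 | f4
  · rcases mul_eq_zero.1 f4 with f5 | f5
    · exact pow_ne_zero _ hν f5
    · exact hg f5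
  · exact hi f4

/-- semi-invariants of `x ↦ α x + P(y)`, `y ↦ β y`, where `β ^ j = α` for all exponents of
`P ≠ 0`, do not depend on `x` -/
theorem semi_res {φ : GA k}
    {α β : k} {P : Polynomial k} (hα : α ≠ 0) (hP : P ≠ 0) (h0 : φ (X 0) = C α * X 0 + uy P)
    (h1 : φ (X 1) = C β * X 1) (hPc : ∀ j, P.coeff j ≠ 0 → β ^ j = α)
    {c : MvPolynomial (Fin 2) k} {l : k}
    (hl : φ c = C l * c) : pderiv 0 c = 0 := by
  have huy : ∀ P : Polynomial k, pderiv 0 (uy P) = 0 := by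
    intro P
    rw [uy, Derivation.map_aeval]
    simp
  have hφD : ∀ r, pderiv 0 (φ r) = C α * φ (pderiv 0 r) := by
    intro r
    rw [pderiv_ga, h0, h1, map_add, huy]
    simp; ring
  by_contra hD
  obtain ⟨h, m, e1, e2, e3, e4⟩ := exists_top_pair (pderiv 0) (LN_pderiv 0) φ α hα hφD hl hD
  have hm : m ≠ 0 := semi_ne_zero e2 e3
  set a := pderiv 0 h with ha
  have hb : pderiv 0 (h - a * X 0) = 0 := by
    rw [map_sub, Derivation.leibniz, e4]
    simp [ha]
  obtain ⟨A, hA⟩ := exists_uy e4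
  obtain ⟨B, hB⟩ := exists_uy hb
  have hh : h = uy A * X 0 + uy B := by rw [← hA, ← hB]; ring
  have hφu : ∀ P : Polynomial k, φ (uy P) = uy (P.comp (Polynomial.C β * Polynomial.X)) := by
    intro P
    rw [gmap_uy, h1, uy, Polynomial.aeval_comp]
    simp [algebraMap_eq]
  have hA0 : A ≠ 0 := by
    rintro rfl
    apply e3
    rw [hA]; simp [uy]
  rw [hA, hφu, ← uy_C, ← uy_mul] at e2
  have e2' := uy_injective e2
  rw [hh, map_add, map_mul, hφu, hφu, h0, e2'] at e1
  have e5 : uy (Polynomial.C m * (A * P)) = uy (Polynomial.C (m * α) * B -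
      B.comp (Polynomial.C β * Polynomial.X)) := by
    have : ∀ P Q : Polynomial k, uy (P - Q) = uy P - uy Q := by intro P Q; simp [uy]
    rw [this]
    simp only [uy_mul, uy_C, C_mul] at e1 ⊢
    linear_combination e1
  have e6 := uy_injective e5
  have hAP : A * P ≠ 0 := mul_ne_zero hA0 hP
  obtain ⟨j, hj⟩ : ∃ j, (A * P).coeff j ≠ 0 := by
    by_contra hcon
    push Not at hcon
    exact hAP (Polynomial.ext (by simpa using hcon))
  have hβj : β ^ j = m * α := by
    rw [Polynomial.coeff_mul] at hj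
    obtain ⟨⟨i, i'⟩, hii, hne⟩ := Finset.exists_ne_zero_of_sum_ne_zero hj
    rw [Finset.HasAntidiagonal.mem_antidiagonal] at hii
    simp only at hii hne
    have hAi : A.coeff i ≠ 0 := left_ne_zero_of_mul hne
    have hPi : P.coeff i' ≠ 0 := right_ne_zero_of_mul hne
    have f1 := congrArg (fun P => Polynomial.coeff P i) e2'
    simp only [Polynomial.comp_C_mul_X_coeff, Polynomial.coeff_C_mul] at f1
    have f2 : β ^ i = m := by
      have : A.coeff i * β ^ i = A.coeff i * m := by rw [f1]; ring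
      exact mul_left_cancel₀ hAi this
    rw [← hii, pow_add, f2, hPc i' hPi]
  have f3 := congrArg (fun P => Polynomial.coeff P j) e6
  simp only [Polynomial.comp_C_mul_X_coeff, Polynomial.coeff_C_mul, Polynomial.coeff_sub] at f3
  rw [hβj] at f3
  have f4 : m * (A * P).coeff j = 0 := by rw [f3]; ring
  rcases mul_eq_zero.1 f4 with f5 | f5
  · exact hm f5
  · exact hj f5

theorem C_ne_of_tra {φ : GA k} {v : PP k} {μ : k} (hμ : μ ≠ 0) (hv : φ v = v + C μ) :
    ∀ a : k, v ≠ C a := by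
  rintro a rfl
  rw [ga_C] at hv
  apply hμ
  have h1 : (C μ : PP k) = 0 := by linear_combination -hv
  exact C_eq_zero.1 h1

end

section
variable {k : Type*} [Field k] [CharZero k] [IsAlgClosed k]

theorem top_of_linx (F : Fin 2 → PP k) (hJ : IsUnit (Matrix.det (jac F))) {a : k} (ha : a ≠ 0)
    (B : Polynomial k) (h : C a * X 0 + uy B ∈ SS F) : SS F = ⊤ := by
  set θ : GA k := elemX (Polynomial.C (-a⁻¹) * B) with hθ
  apply SS_top_comp F θ
  apply top_of_X0 _ (jac_comp θ F hJ)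
  have h1 := (mem_SS_comp θ F _).2 h
  have h2 : θ (C a * X 0 + uy B) = C a * X 0 := by
    rw [map_add, map_mul, ga_C, gmap_uy, hθ, elemX_X0, elemX_X1, uy_mul, uy_C, mul_add, ← mul_assoc,
      ← C_mul, mul_neg, mul_inv_cancel₀ ha, C_neg, C_1]
    rw [uy]; ring
  rw [h2] at h1
  have h3 : (X 0 : PP k) = C a⁻¹ * (C a * X 0) := by
    rw [← mul_assoc, ← C_mul, inv_mul_cancel₀ ha, C_1, one_mul]
  rw [h3]
  exact mul_mem (C_mem_SS _ _) h1

theorem top_of_liny (F : Fin 2 → PP k) (hJ : IsUnit (Matrix.det (jac F))) {a : k} (ha : a ≠ 0)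
    (B : Polynomial k) (h : C a * X 1 + ux B ∈ SS F) : SS F = ⊤ := by
  apply SS_top_comp F sw
  apply top_of_linx _ (jac_comp sw F hJ) ha B
  have h1 : (C a * X 0 + uy B : PP k) = sw (C a * X 1 + ux B) := by
    rw [map_add, map_mul, ga_C, sw_X1, gmap_ux, sw_X0]; rfl
  rw [h1, mem_SS_comp]
  exact h

/-- the case `x ↦ ν x`, `y ↦ y + g` -/
theorem tra_shift' (F : Fin 2 → PP k) (hJ : IsUnit (Matrix.det (jac F))) {φ : GA k}
    {ν g : k} (hν : ν ≠ 0) (hg : g ≠ 0) (h0 : φ (X 0) = C ν * X 0) (h1 : φ (X 1) = X 1 + C g)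
    {v : PP k} (hvS : v ∈ SS F) {μ : k} (hμ : μ ≠ 0) (hv : φ v = v + C μ) : SS F = ⊤ := by
  have hnc := C_ne_of_tra hμ hv
  have hφD : ∀ r, pderiv 1 (φ r) = φ (pderiv 1 r) := by
    intro r
    rw [pderiv_ga, h0, h1]
    simp
  have h2 : φ (pderiv 1 v) = C 1 * pderiv 1 v := by
    rw [← hφD, hv, map_add, pderiv_C, add_zero, C_1, one_mul]
  have e4 := semi_shift hν hg h0 h1 h2
  set a := pderiv 1 v with ha
  have hb : pderiv 1 (v - a * X 1) = 0 := by
    rw [map_sub, Derivation.leibniz, e4]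
    simp [ha]
  obtain ⟨A, hA⟩ := exists_ux e4
  obtain ⟨B, hB⟩ := exists_ux hb
  have hh : v = ux A * X 1 + ux B := by rw [← hA, ← hB]; ring
  by_cases hA0 : A = 0
  · have h3 : v = ux B := by rw [hh, hA0]; simp [ux]
    exact top_of_ux F hJ ⟨B, natDegree_pos_of_ux hnc h3, h3 ▸ hvS⟩
  have hφu : ∀ P : Polynomial k, φ (ux P) = ux (P.comp (Polynomial.C ν * Polynomial.X)) := by
    intro P
    rw [gmap_ux, h0, ux, Polynomial.aeval_comp]
    simp [algebraMap_eq]
  rw [hA, hφu, C_1, one_mul] at h2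
  have e2' := ux_injective h2
  rw [hh, map_add, map_mul, hφu, hφu, h1, e2'] at hv
  have e5 : ux (Polynomial.C g * A) = ux (B + Polynomial.C μ -
      B.comp (Polynomial.C ν * Polynomial.X)) := by
    have : ∀ P Q : Polynomial k, ux (P - Q) = ux P - ux Q := by intro P Q; simp [ux]
    rw [this]
    simp only [ux_mul, ux_add, ux_C]
    linear_combination hv
  have e6 := ux_injective e5
  have hAc : ∀ i, i ≠ 0 → A.coeff i = 0 := by
    intro i hi
    by_contra hne
    have f1 := congrArg (fun P => Polynomial.coeff P i) e2'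
    have f2 := congrArg (fun P => Polynomial.coeff P i) e6
    simp only [Polynomial.comp_C_mul_X_coeff, Polynomial.coeff_C_mul, Polynomial.coeff_sub,
      Polynomial.coeff_add, Polynomial.coeff_C, if_neg hi] at f1 f2
    have hm : ν ^ i = 1 := by
      have : A.coeff i * ν ^ i = A.coeff i * 1 := by rw [f1, mul_one]
      exact mul_left_cancel₀ hne this
    rw [hm] at f2
    have f3 : g * A.coeff i = 0 := by rw [f2]; ring
    rcases mul_eq_zero.1 f3 with f4 | f4
    · exact hg f4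
    · exact hne f4
  have hAC : A = Polynomial.C (A.coeff 0) := by
    ext i
    rw [Polynomial.coeff_C]
    split_ifs with h
    · rw [h]
    · exact hAc i h
  have ha0 : A.coeff 0 ≠ 0 := by
    intro h
    rw [h, Polynomial.C_0] at hAC
    exact hA0 hAC
  apply top_of_liny F hJ ha0 B
  rw [← ux_C, ← hAC, ← hh]
  exact hvS

/-- the case `x ↦ α x + P(y)`, `y ↦ y + g` -/
theorem tra_shift (F : Fin 2 → PP k) (hJ : IsUnit (Matrix.det (jac F))) {φ : GA k}
    {α g : k} {P : Polynomial k} (hα : α ≠ 0) (hg : g ≠ 0) (h0 : φ (X 0) = C α * X 0 + uy P)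
    (h1 : φ (X 1) = X 1 + C g)
    {v : PP k} (hvS : v ∈ SS F) {μ : k} (hμ : μ ≠ 0) (hv : φ v = v + C μ) : SS F = ⊤ := by
  have hnc := C_ne_of_tra hμ hv
  have huy : ∀ P : Polynomial k, pderiv 0 (uy P) = 0 := by
    intro P
    rw [uy, Derivation.map_aeval]
    simp
  have hφD : ∀ r, pderiv 0 (φ r) = C α * φ (pderiv 0 r) := by
    intro r
    rw [pderiv_ga, h0, h1, map_add, huy]
    simp; ring
  have hφu : ∀ P : Polynomial k, φ (uy P) = uy (P.comp (Polynomial.X + Polynomial.C g)) := by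
    intro P
    rw [gmap_uy, h1, uy, Polynomial.aeval_comp]
    simp [algebraMap_eq]
  have h2 : φ (pderiv 0 v) = C α⁻¹ * pderiv 0 v := by
    have h3 := hφD v
    rw [hv, map_add, pderiv_C, add_zero] at h3
    conv_rhs => rw [h3]
    rw [← mul_assoc, ← C_mul, inv_mul_cancel₀ hα, C_1, one_mul]
  by_cases hD0 : pderiv 0 v = 0
  · obtain ⟨Q, hQ⟩ := exists_uy hD0
    exact top_of_uy F hJ ⟨Q, natDegree_pos_of_uy hnc hQ, hQ ▸ hvS⟩
  by_cases hDD : pderiv 0 (pderiv 0 v) = 0
  · obtain ⟨A, hA⟩ := exists_uy hDD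
    have hA0 : A ≠ 0 := by
      rintro rfl
      apply hD0
      rw [hA]; simp [uy]
    rw [hA, hφu, ← uy_C, ← uy_mul] at h2
    obtain ⟨a, ha, rfl⟩ := shift_const hg hA0 (uy_injective h2)
    rw [uy_C] at hA
    have hb : pderiv 0 (v - C a * X 0) = 0 := by
      rw [map_sub, hA]; simp
    obtain ⟨B, hB⟩ := exists_uy hb
    apply top_of_linx F hJ ha B
    rw [← hB]
    have : C a * X 0 + (v - C a * X 0) = v := by ring
    rw [this]
    exact hvS
  · obtain ⟨h, m, e1, e2, e3, e4⟩ := exists_top_pair (pderiv 0) (LN_pderiv 0) φ α hα hφD h2 hDD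
    obtain ⟨A, hA⟩ := exists_uy e4
    have hA0 : A ≠ 0 := by
      rintro rfl
      apply e3
      rw [hA]; simp [uy]
    rw [hA, hφu, ← uy_C, ← uy_mul] at e2
    obtain ⟨a, ha, rfl⟩ := shift_const hg hA0 (uy_injective e2)
    rw [uy_C] at hA
    have hb : pderiv 0 (h - C a * X 0) = 0 := by
      rw [map_sub, hA]; simp
    obtain ⟨B, hB⟩ := exists_uy hb
    set B' := Polynomial.C a⁻¹ * B with hB'
    have hh : h = C a * (X 0 + uy B') := by
      rw [hB', uy_mul, uy_C, mul_add, ← mul_assoc, ← C_mul, mul_inv_cancel₀ ha, C_1, one_mul, ← hB]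
      ring
    set θ := elemX B' with hθ
    have hθ0 : θ (X 0) = X 0 + uy B' := elemX_X0 B'
    have hθ1 : θ (X 1) = X 1 := elemX_X1 B'
    have hx' : φ (θ (X 0)) = C (m * α) * θ (X 0) := by
      rw [hh, map_mul, ga_C, ← hθ0] at e1
      have : C a * φ (θ (X 0)) = C a * (C (m * α) * θ (X 0)) := by rw [e1]; ring
      exact mul_left_cancel₀ (by rw [Ne, C_eq_zero]; exact ha) this
    have hν : m * α ≠ 0 := semi_ne_zero hx' (by
      rw [Ne, map_eq_zero_iff θ θ.injective]; exact X_ne_zero 0)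
    apply SS_top_comp F θ⁻¹
    apply tra_shift' _ (jac_comp θ⁻¹ F hJ) (φ := θ⁻¹ * φ * θ) hν hg (v := θ⁻¹ v) (μ := μ) ?_ ?_
      ((mem_SS_comp θ⁻¹ F v).2 hvS) hμ
    · change θ⁻¹ (φ (θ (θ⁻¹ v))) = _
      rw [apply_inv_self', hv, map_add, ga_C]
    · change θ⁻¹ (φ (θ (X 0))) = _
      rw [hx', map_mul, ga_C, inv_apply_self']
    · change θ⁻¹ (φ (θ (X 1))) = _
      rw [hθ1, h1, map_add, ga_C]
      congr 1
      conv_lhs => rw [← hθ1]
      rw [inv_apply_self']

/-- the case `x ↦ α x + P(y)`, `y ↦ β y`, resonant -/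
theorem tra_res (F : Fin 2 → PP k) (hJ : IsUnit (Matrix.det (jac F))) {φ : GA k}
    {α β : k} {P : Polynomial k} (hα : α ≠ 0) (h0 : φ (X 0) = C α * X 0 + uy P)
    (h1 : φ (X 1) = C β * X 1) (hPc : ∀ j, P.coeff j ≠ 0 → β ^ j = α)
    {v : PP k} (hvS : v ∈ SS F) {μ : k} (hμ : μ ≠ 0) (hv : φ v = v + C μ) : SS F = ⊤ := by
  have hnc := C_ne_of_tra hμ hv
  by_cases hP : P = 0
  · exfalso
    have h0' : φ (X 0) = C α * X 0 := by rw [h0, hP]; simp [uy]
    have h2 := coeff_diag h0' h1 v 0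
    rw [hv, coeff_add, coeff_zero_C, ev] at h2
    simp only [Finsupp.coe_zero, Pi.zero_apply, pow_zero, mul_one, one_mul] at h2
    exact hμ (by linear_combination h2)
  have huy : ∀ P : Polynomial k, pderiv 0 (uy P) = 0 := by
    intro P
    rw [uy, Derivation.map_aeval]
    simp
  have hφD : ∀ r, pderiv 0 (φ r) = C α * φ (pderiv 0 r) := by
    intro r
    rw [pderiv_ga, h0, h1, map_add, huy]
    simp; ring
  have h2 : φ (pderiv 0 v) = C α⁻¹ * pderiv 0 v := by
    have h3 := hφD v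
    rw [hv, map_add, pderiv_C, add_zero] at h3
    conv_rhs => rw [h3]
    rw [← mul_assoc, ← C_mul, inv_mul_cancel₀ hα, C_1, one_mul]
  have e4 := semi_res hα hP h0 h1 hPc h2
  by_cases hD0 : pderiv 0 v = 0
  · obtain ⟨Q, hQ⟩ := exists_uy hD0
    exact top_of_uy F hJ ⟨Q, natDegree_pos_of_uy hnc hQ, hQ ▸ hvS⟩
  set a := pderiv 0 v with ha
  have hb : pderiv 0 (v - a * X 0) = 0 := by
    rw [map_sub, Derivation.leibniz, e4]
    simp [ha]
  obtain ⟨A, hA⟩ := exists_uy e4
  obtain ⟨B, hB⟩ := exists_uy hb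
  have hh : v = uy A * X 0 + uy B := by rw [← hA, ← hB]; ring
  have hA0 : A ≠ 0 := by
    rintro rfl
    apply hD0
    rw [hA]; simp [uy]
  have hφu : ∀ P : Polynomial k, φ (uy P) = uy (P.comp (Polynomial.C β * Polynomial.X)) := by
    intro P
    rw [gmap_uy, h1, uy, Polynomial.aeval_comp]
    simp [algebraMap_eq]
  rw [hA, hφu, ← uy_C, ← uy_mul] at h2
  have e2' := uy_injective h2
  rw [hh, map_add, map_mul, hφu, hφu, h0, e2'] at hv
  have hαα : (C α⁻¹ * C α : PP k) = 1 := by rw [← C_mul, inv_mul_cancel₀ hα, C_1]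
  have e5 : uy (Polynomial.C α⁻¹ * (A * P)) = uy (B + Polynomial.C μ -
      B.comp (Polynomial.C β * Polynomial.X)) := by
    have : ∀ P Q : Polynomial k, uy (P - Q) = uy P - uy Q := by intro P Q; simp [uy]
    rw [this]
    simp only [uy_mul, uy_add, uy_C] at hv ⊢
    linear_combination hv - uy A * X 0 * hαα
  have e6 := uy_injective e5
  have hAP : A * P ≠ 0 := mul_ne_zero hA0 hP
  have hj : ∀ j, j ≠ 0 → (A * P).coeff j = 0 := by
    intro j hj0
    by_contra hj
    have hβj : β ^ j = 1 := by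
      rw [Polynomial.coeff_mul] at hj
      obtain ⟨⟨i, i'⟩, hii, hne⟩ := Finset.exists_ne_zero_of_sum_ne_zero hj
      rw [Finset.HasAntidiagonal.mem_antidiagonal] at hii
      simp only at hii hne
      have hAi : A.coeff i ≠ 0 := left_ne_zero_of_mul hne
      have hPi : P.coeff i' ≠ 0 := right_ne_zero_of_mul hne
      have f1 := congrArg (fun P => Polynomial.coeff P i) e2'
      simp only [Polynomial.comp_C_mul_X_coeff, Polynomial.coeff_C_mul] at f1
      have f2 : β ^ i = α⁻¹ := by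
        have : A.coeff i * β ^ i = A.coeff i * α⁻¹ := by rw [f1]; ring
        exact mul_left_cancel₀ hAi this
      rw [← hii, pow_add, f2, hPc i' hPi, inv_mul_cancel₀ hα]
    have f3 := congrArg (fun P => Polynomial.coeff P j) e6
    simp only [Polynomial.comp_C_mul_X_coeff, Polynomial.coeff_C_mul, Polynomial.coeff_sub,
      Polynomial.coeff_add, Polynomial.coeff_C, if_neg hj0] at f3
    rw [hβj] at f3
    have f4 : α⁻¹ * (A * P).coeff j = 0 := by rw [f3]; ring
    rcases mul_eq_zero.1 f4 with f5 | f5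
    · exact inv_ne_zero hα f5
    · exact hj f5
  have hAPC : A * P = Polynomial.C ((A * P).coeff 0) := by
    ext i
    rw [Polynomial.coeff_C]
    split_ifs with h
    · rw [h]
    · exact hj i h
  have hdeg : A.natDegree = 0 := by
    have h3 := Polynomial.natDegree_mul hA0 hP
    rw [hAPC, Polynomial.natDegree_C] at h3
    omega
  obtain ⟨e, rfl⟩ := Polynomial.natDegree_eq_zero.1 hdeg
  have he : e ≠ 0 := by rintro rfl; exact hA0 Polynomial.C_0
  apply top_of_linx F hJ he B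
  rw [← uy_C, ← hh]
  exact hvS

/-- the case `x ↦ α x + P(y)`, `y ↦ β y` -/
theorem tra_lin (F : Fin 2 → PP k) (hJ : IsUnit (Matrix.det (jac F))) {φ : GA k}
    {α β : k} {P : Polynomial k} (hα : α ≠ 0) (h0 : φ (X 0) = C α * X 0 + uy P)
    (h1 : φ (X 1) = C β * X 1)
    {v : PP k} (hvS : v ∈ SS F) {μ : k} (hμ : μ ≠ 0) (hv : φ v = v + C μ) : SS F = ⊤ := by
  classical
  set q : ℕ → k := fun j => if β ^ j = α then 0 else P.coeff j / (α - β ^ j) with hq
  set Q : Polynomial k := ∑ j ∈ Finset.range (P.natDegree + 1), Polynomial.C (q j) * Polynomial.X ^ j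
    with hQ
  have hQc : ∀ j, Q.coeff j = q j := by
    intro j
    rw [hQ, Polynomial.finsetSum_coeff]
    simp only [Polynomial.coeff_C_mul, Polynomial.coeff_X_pow]
    by_cases hj : j ∈ Finset.range (P.natDegree + 1)
    · simp only [mul_ite, mul_one, mul_zero, Finset.sum_ite_eq, if_pos hj]
    · simp only [mul_ite, mul_one, mul_zero, Finset.sum_ite_eq, if_neg hj]
      rw [hq]
      simp only
      rw [Polynomial.coeff_eq_zero_of_natDegree_lt (by simpa using hj)]
      simp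
  set θ := elemX Q with hθ
  have hθ0 : θ (X 0) = X 0 + uy Q := elemX_X0 Q
  have hθ1 : θ (X 1) = X 1 := elemX_X1 Q
  have hθi1 : θ⁻¹ (X 1) = X 1 := by
    conv_lhs => rw [← hθ1]
    rw [inv_apply_self']
  have huyθ : ∀ P : Polynomial k, θ⁻¹ (uy P) = uy P := by
    intro P
    rw [gmap_uy, hθi1]; rfl
  have hθi0 : θ⁻¹ (X 0) = X 0 - uy Q := by
    have : θ (X 0 - uy Q) = X 0 := by
      rw [map_sub, hθ0, gmap_uy, hθ1]
      simp [uy]
    rw [← this, inv_apply_self', this]
  set P' := P + Q.comp (Polynomial.C β * Polynomial.X) - Polynomial.C α * Q with hP'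
  have hφu : ∀ P : Polynomial k, φ (uy P) = uy (P.comp (Polynomial.C β * Polynomial.X)) := by
    intro P
    rw [gmap_uy, h1, uy, Polynomial.aeval_comp]
    simp [algebraMap_eq]
  have h0' : (θ⁻¹ * φ * θ) (X 0) = C α * X 0 + uy P' := by
    change θ⁻¹ (φ (θ (X 0))) = _
    rw [hθ0, map_add, h0, hφu, map_add, map_add, map_mul, ga_C, hθi0, huyθ, huyθ, hP']
    have : ∀ P Q : Polynomial k, uy (P - Q) = uy P - uy Q := by intro P Q; simp [uy]
    rw [this, uy_add, uy_mul, uy_C]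
    ring
  have h1' : (θ⁻¹ * φ * θ) (X 1) = C β * X 1 := by
    change θ⁻¹ (φ (θ (X 1))) = _
    rw [hθ1, h1, map_mul, ga_C, hθi1]
  have hP'c : ∀ j, P'.coeff j ≠ 0 → β ^ j = α := by
    intro j hj
    by_contra hne
    apply hj
    rw [hP', Polynomial.coeff_sub, Polynomial.coeff_add, Polynomial.comp_C_mul_X_coeff,
      Polynomial.coeff_C_mul, hQc, hq]
    simp only
    rw [if_neg hne]
    have h2 : α - β ^ j ≠ 0 := sub_ne_zero.2 (fun h => hne h.symm)
    field_simp
    ring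
  apply SS_top_comp F θ⁻¹
  apply tra_res _ (jac_comp θ⁻¹ F hJ) hα h0' h1' hP'c ((mem_SS_comp θ⁻¹ F v).2 hvS) hμ
  change θ⁻¹ (φ (θ (θ⁻¹ v))) = _
  rw [apply_inv_self', hv, map_add, ga_C]

/-- the triangular case -/
theorem tra_tri (F : Fin 2 → PP k) (hJ : IsUnit (Matrix.det (jac F))) {φ : GA k}
    (hE : φ ∈ EG k) {v : PP k} (hvS : v ∈ SS F) {μ : k} (hμ : μ ≠ 0) (hv : φ v = v + C μ) :
    SS F = ⊤ := by
  obtain ⟨α, β, γ, P, hα, hβ, h0, h1⟩ := EG_forms hE
  by_cases hβ1 : β = 1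
  · subst hβ1
    by_cases hγ : γ = 0
    · subst hγ
      exact tra_lin F hJ hα h0 (β := 1) (by rw [h1]; simp) hvS hμ hv
    · exact tra_shift F hJ hα hγ h0 (by rw [h1]; simp) hvS hμ hv
  · set g := γ / (β - 1) with hg
    have hβ1' : β - 1 ≠ 0 := sub_ne_zero.2 hβ1
    set θ := elemY (Polynomial.C g) with hθ
    have hθ0 : θ (X 0) = X 0 := elemY_X0 _
    have hθ1 : θ (X 1) = X 1 + C g := by rw [hθ, elemY_X1, ux_C]
    have hθi0 : θ⁻¹ (X 0) = X 0 := by
      conv_lhs => rw [← hθ0]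
      rw [inv_apply_self']
    have hθi1 : θ⁻¹ (X 1) = X 1 - C g := by
      have : θ (X 1 - C g) = X 1 := by
        rw [map_sub, hθ1, ga_C]; ring
      rw [← this, inv_apply_self', this]
    apply SS_top_comp F θ⁻¹
    refine tra_lin _ (jac_comp θ⁻¹ F hJ) (φ := θ⁻¹ * φ * θ) hα (β := β)
      (P := P.comp (Polynomial.X - Polynomial.C g)) ?_ ?_ ((mem_SS_comp θ⁻¹ F v).2 hvS) hμ ?_
    · change θ⁻¹ (φ (θ (X 0))) = _
      rw [hθ0, h0, map_add, map_mul, ga_C, hθi0, gmap_uy, hθi1]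
      congr 1
      rw [uy, Polynomial.aeval_comp]
      simp [algebraMap_eq]
    · change θ⁻¹ (φ (θ (X 1))) = _
      rw [hθ1, map_add, h1, ga_C, map_add, map_add, map_mul, ga_C, ga_C, ga_C, hθi1]
      have : (C γ : MvPolynomial (Fin 2) k) = C (g * (β - 1)) := by
        rw [hg, div_mul_cancel₀ _ hβ1']
      rw [this, C_mul, C_sub, C_1]
      ring
    · change θ⁻¹ (φ (θ (θ⁻¹ v))) = _
      rw [apply_inv_self', hv, map_add, ga_C]

/-- A plane Keller map the algebra of which contains an element `v` with `φ(v) = v + μ`, `μ ≠ 0`,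
for an automorphism `φ` is an automorphism. -/
theorem top_of_tra (F : Fin 2 → PP k) (hJ : IsUnit (Matrix.det (jac F))) {φ : GA k}
    {v : PP k} (hvS : v ∈ SS F) {μ : k} (hμ : μ ≠ 0) (hv : φ v = v + C μ) :
    SS F = ⊤ := by
  have hnc := C_ne_of_tra hμ hv
  obtain ⟨g, hg⟩ := cycGoal (AG k) (EG k) jvdk φ
  have hconj : ∀ (θ φ : GA k) (v : PP k), φ v = v + C μ →
      (θ⁻¹ * φ * θ) (θ⁻¹ v) = θ⁻¹ v + C μ := by
    intro θ φ v hv
    change θ⁻¹ (φ (θ (θ⁻¹ v))) = _
    rw [apply_inv_self', hv, map_add, ga_C]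
  apply SS_top_comp F g⁻¹
  have hJ' := jac_comp g⁻¹ F hJ
  have hvS' := (mem_SS_comp g⁻¹ F v).2 hvS
  have hv' := hconj g φ v hv
  rcases hg with hA | hE | ⟨L, hL, hL1, hL2⟩
  · obtain ⟨τ, hτ⟩ := affine_conj hA
    apply SS_top_comp _ τ⁻¹
    exact tra_tri _ (jac_comp τ⁻¹ _ hJ') hτ ((mem_SS_comp τ⁻¹ _ _).2 hvS') hμ (hconj τ _ _ hv')
  · exact tra_tri _ hJ' hE hvS' hμ hv'
  · exfalso
    obtain ⟨D, hD, hD1, hD2⟩ := St_list L hL hL1
    rw [← hL2] at hD1 hD2
    set ψ := g⁻¹ * φ * g with hψ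
    set u := g⁻¹ v with hu
    have hpow : ∀ n : ℕ, (ψ ^ n) u = u + C ((n : k) * μ) := by
      intro n
      induction n with
      | zero => simp
      | succ n ih =>
        rw [pow_succ']
        change ψ ((ψ ^ n) u) = _
        rw [ih, map_add, ga_C, hv', Nat.cast_succ, add_mul, one_mul, C_add]
        ring
    have hu0 : 0 < u.totalDegree := by
      rw [Nat.pos_iff_ne_zero]
      intro h
      rw [totalDegree_eq_zero_iff_eq_C] at h
      exact C_ne_of_tra hμ hv' _ h
    apply no_bounded hD (fun n => St_pow hD hD1 hD2 n) hu0 (c := u)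
    intro n
    rw [hpow, totalDegree_add_eq_left_of_totalDegree_lt]
    rw [totalDegree_C]
    exact hu0

end

end Pool.Agent.E8helper43.KE
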