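import Pool.Agent.E8helper43.KE.Fol

/-!
# Plane Keller maps whose algebra contains a polynomial and its derivative

Let `F` be a plane Keller map, `c ∈ k[F]` a polynomial which is not composite and `E` a derivation of
`k(x, y)` such that `E(c)` and the divergence of `E` lie in `k(F)`. Then `E` maps `k(F)` to itself.
-/

set_option autoImplicit false
set_option linter.unusedSectionVars false

open MvPolynomial Pool.Agent.H928R2.Inv Pool.Agent.H928R2.Pen Pool.Agent.H922R2

namespace Pool.Agent.E8helper43.KE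

/-- the principle, with a weaker condition on the commutator -/
theorem stable_of_comm' {k L : Type*} [Field k] [Field L] [CharZero L] [Algebra k L]
    (M : IntermediateField k L) (D E : Derivation k L L)
    (hD : ∀ x ∈ M, D x ∈ M) (hker : ∀ x, D x = 0 → x ∈ M) (halg : ∀ x : L, IsAlgebraic M x)
    (a : L) (ha : ∀ x ∈ M, E x - a * D x ∈ M) (u : L) (hu : u ∈ M) (hDu : D u ≠ 0)
    (hcomm : E (D u) - D (E u) ∈ M) :
    ∀ x ∈ M, E x ∈ M := by
  have h1 : D a ∈ M := by
    have e1 : E (D u) - a * D (D u) ∈ M := ha _ (hD u hu)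
    have e2 : D (E u - a * D u) ∈ M := hD _ (ha u hu)
    have e3 : D (E u - a * D u) = D (E u) - (a * D (D u) + D u * D a) := by
      rw [map_sub, Derivation.leibniz]; rfl
    have e4 : D a = ((E (D u) - a * D (D u)) - D (E u - a * D u) - (E (D u) - D (E u))) / D u := by
      rw [e3]
      rw [eq_div_iff hDu]
      ring
    rw [e4]
    exact div_mem (sub_mem (sub_mem e1 e2) hcomm) (hD u hu)
  obtain ⟨b, hb, hb2⟩ := prim_mem M D hD a (halg a) h1
  have h2 : a - b ∈ M := hker _ (by rw [map_sub, hb2, sub_self])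
  have h3 : a ∈ M := by
    have : a = (a - b) + b := by ring
    rw [this]
    exact add_mem h2 hb
  intro x hx
  have h4 : E x = (E x - a * D x) + a * D x := by ring
  rw [h4]
  exact add_mem (ha x hx) (mul_mem h3 (hD x hx))

section
variable {k : Type*} [Field k] [CharZero k]

/-- The principle for plane Keller maps: a derivation `E` with `E c ∈ k(F)`, the commutator of which
with the Hamiltonian field of `c ∈ k[F]` maps `k(F)` to itself, maps `k(F)` to itself if the constants
of the Hamiltonian field lie in `k(F)`. -/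
theorem main_stable2 (F : Fin 2 → PP k) (hJ : IsUnit (Matrix.det (jac F)))
    (q : PP k) (E : Derivation k (KK k) (KK k)) (hEc : E (ιK k (aeval F q)) ∈ fF (KK k) F)
    (hnc : ∀ a : k, aeval F q ≠ C a)
    (hker : ∀ x, HK (aeval F q) x = 0 → x ∈ fF (KK k) F)
    (hcomm : ∀ x ∈ fF (KK k) F, E (HK (aeval F q) x) - HK (aeval F q) (E x) ∈ fF (KK k) F) :
    ∀ x ∈ fF (KK k) F, E x ∈ fF (KK k) F := by
  set c := aeval F q with hc
  have hcS : c ∈ SS F := ⟨q, rfl⟩
  have hFS : ∀ i, F i ∈ SS F := fun i => ⟨X i, by simp⟩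
  have halg : ∀ x : KK k, IsAlgebraic (fF (KK k) F) x := by
    have := finDim_fF (KK k) F hJ
    intro x
    exact Algebra.IsAlgebraic.isAlgebraic x
  have hinj := aeval_injective F hJ
  -- the jacobian determinant
  obtain ⟨δ, hδ0, hδ⟩ : ∃ δ : k, δ ≠ 0 ∧ DJ (F 0) (F 1) = C δ := by
    rw [det_jac] at hJ
    obtain ⟨δ, hδ0, hδ⟩ := MvPolynomial.isUnit_iff_eq_C_of_isReduced.1 hJ
    exact ⟨δ, hδ0.ne_zero, hδ⟩
  have hδ' : DJ (F 1) (F 0) = -C δ := by
    rw [← hδ, DJ_apply, DJ_apply]; ring
  have hself : ∀ f : PP k, DJ f f = 0 := DJ_self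
  -- the values on the components
  have e0 : HK c (ιK k (F 0)) = -(ιK k (aeval F (pderiv 1 q)) * ιK k (C δ)) := by
    rw [HK_coe, ← map_mul, ← map_neg]
    congr 1
    have h1 : DJ c (F 0) = - DJ (F 0) c := by rw [DJ_apply, DJ_apply]; ring
    rw [h1, hc, deriv_aeval, Fin.sum_univ_two, hself, hδ]
    ring
  have e1 : HK c (ιK k (F 1)) = ιK k (aeval F (pderiv 0 q)) * ιK k (C δ) := by
    rw [HK_coe, ← map_mul]
    congr 1
    have h1 : DJ c (F 1) = - DJ (F 1) c := by rw [DJ_apply, DJ_apply]; ring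
    rw [h1, hc, deriv_aeval, Fin.sum_univ_two, hself, hδ']
    ring
  have hC0 : ιK k (C δ) ≠ 0 := ι_ne (by rw [Ne, C_eq_zero]; exact hδ0)
  have hHc : HK c (ιK k c) = 0 := by rw [HK_coe, hself, map_zero]
  have hmemP : ∀ p : PP k, ιK k (aeval F p) ∈ fF (KK k) F := fun p => ι_mem_fF F _ ⟨p, rfl⟩
  by_cases hq1 : pderiv 1 q = 0
  · have hq0 : pderiv 0 q ≠ 0 := by
      intro h0
      obtain ⟨a, ha⟩ := eq_C_of_pderiv q h0 hq1
      apply hnc a
      rw [hc, ha, ← MvPolynomial.algebraMap_eq, AlgHom.commutes]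
    have hA : ιK k (aeval F (pderiv 0 q)) ≠ 0 := by
      apply ι_ne
      rw [Ne, map_eq_zero_iff _ hinj]
      exact hq0
    have hu : HK c (ιK k (F 1)) ≠ 0 := by rw [e1]; exact mul_ne_zero hA hC0
    refine stable_of_comm' (fF (KK k) F) (HK c) E (HK_stable F hJ c hcS) hker halg
      (E (ιK k (F 1)) / HK c (ιK k (F 1))) ?_ (ιK k (F 1)) (ι_mem_fF F _ (hFS 1)) hu
      (hcomm _ (ι_mem_fF F _ (hFS 1)))
    set a := E (ιK k (F 1)) / HK c (ιK k (F 1)) with ha
    have h1 : (E - a • HK c) (ιK k (F 1)) = 0 := by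
      rw [Derivation.sub_apply, Derivation.smul_apply, smul_eq_mul, ha, div_mul_cancel₀ _ hu,
        sub_self]
    have h2 : (E - a • HK c) (ιK k c) = E (ιK k c) := by
      rw [Derivation.sub_apply, Derivation.smul_apply, hHc, smul_zero, sub_zero]
    have h3 := fF_stable F (E - a • HK c) (by
      intro i
      fin_cases i
      · have h4 := der_aeval F (E - a • HK c) q
        rw [← hc, h2] at h4
        have h5 : (E - a • HK c) (ιK k (F 0)) = E (ιK k c) / ιK k (aeval F (pderiv 0 q)) := by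
          rw [eq_div_iff hA]
          rw [h4, h1]; ring
        show (E - a • HK c) (ιK k (F 0)) ∈ _
        rw [h5]
        exact div_mem hEc (hmemP _)
      · show (E - a • HK c) (ιK k (F 1)) ∈ _
        rw [h1]; exact zero_mem _)
    intro x hx
    have := h3 x hx
    rwa [Derivation.sub_apply, Derivation.smul_apply, smul_eq_mul] at this
  · have hB : ιK k (aeval F (pderiv 1 q)) ≠ 0 := by
      apply ι_ne
      rw [Ne, map_eq_zero_iff _ hinj]
      exact hq1
    have hu : HK c (ιK k (F 0)) ≠ 0 := by rw [e0]; exact neg_ne_zero.2 (mul_ne_zero hB hC0)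
    refine stable_of_comm' (fF (KK k) F) (HK c) E (HK_stable F hJ c hcS) hker halg
      (E (ιK k (F 0)) / HK c (ιK k (F 0))) ?_ (ιK k (F 0)) (ι_mem_fF F _ (hFS 0)) hu
      (hcomm _ (ι_mem_fF F _ (hFS 0)))
    set a := E (ιK k (F 0)) / HK c (ιK k (F 0)) with ha
    have h1 : (E - a • HK c) (ιK k (F 0)) = 0 := by
      rw [Derivation.sub_apply, Derivation.smul_apply, smul_eq_mul, ha, div_mul_cancel₀ _ hu,
        sub_self]
    have h2 : (E - a • HK c) (ιK k c) = E (ιK k c) := by
      rw [Derivation.sub_apply, Derivation.smul_apply, hHc, smul_zero, sub_zero]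
    have h3 := fF_stable F (E - a • HK c) (by
      intro i
      fin_cases i
      · show (E - a • HK c) (ιK k (F 0)) ∈ _
        rw [h1]; exact zero_mem _
      · have h4 := der_aeval F (E - a • HK c) q
        rw [← hc, h2] at h4
        have h5 : (E - a • HK c) (ιK k (F 1)) = E (ιK k c) / ιK k (aeval F (pderiv 1 q)) := by
          rw [eq_div_iff hB]
          rw [h4, h1]; ring
        show (E - a • HK c) (ιK k (F 1)) ∈ _
        rw [h5]
        exact div_mem hEc (hmemP _))
    intro x hx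
    have := h3 x hx
    rwa [Derivation.sub_apply, Derivation.smul_apply, smul_eq_mul] at this


/-- the Hamiltonian derivation of a rational function -/
noncomputable def JK (z : KK k) : Derivation k (KK k) (KK k) :=
  dL (0 : Fin 2) z • dL 1 - dL (1 : Fin 2) z • dL 0

theorem JK_apply (z x : KK k) : JK z x = dL 0 z * dL 1 x - dL 1 z * dL 0 x := rfl

theorem JK_ι (c : PP k) (x : KK k) : JK (ιK k c) x = HK c x := by
  rw [JK_apply, HK_apply]

/-- the Hamiltonian derivation of an element of `k(F)` maps `k(F)` to itself -/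
theorem JK_stable (F : Fin 2 → PP k) (hJ : IsUnit (Matrix.det (jac F))) (z : KK k)
    (hz : z ∈ fF (KK k) F) : ∀ x ∈ fF (KK k) F, JK z x ∈ fF (KK k) F := by
  apply fF_stable
  intro i
  have h1 : JK z (ιK k (F i)) = -(HK (F i) z) := by
    rw [JK_apply, HK_apply]; ring
  rw [h1]
  exact neg_mem (HK_stable F hJ (F i) ⟨X i, by simp⟩ z hz)

/-- the commutator of a vector field with a Hamiltonian field -/
theorem VK_comm2 (p q : KK k) (c : PP k) (x : KK k) :
    VK p q (HK c x) - HK c (VK p q x) =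
      JK (VK p q (ιK k c)) x - (dL 0 p + dL 1 q) * HK c x := by
  simp only [VK_apply, HK_apply, JK_apply, map_add, map_sub, Derivation.leibniz, smul_eq_mul,
    dL_comm]
  ring

/-- **The general principle.** -/
theorem two_stable (F : Fin 2 → PP k) (hJ : IsUnit (Matrix.det (jac F))) (c : PP k)
    (hcS : c ∈ SS F) (hnc : ∀ a : k, c ≠ C a) (hker : ∀ x, HK c x = 0 → x ∈ fF (KK k) F)
    (p q : KK k) (hEc : VK p q (ιK k c) ∈ fF (KK k) F) (hdiv : dL 0 p + dL 1 q ∈ fF (KK k) F) :
    ∀ x ∈ fF (KK k) F, VK p q x ∈ fF (KK k) F := by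
  obtain ⟨q0, rfl⟩ := hcS
  refine main_stable2 F hJ q0 (VK p q) hEc hnc hker ?_
  intro x hx
  rw [VK_comm2]
  exact sub_mem (JK_stable F hJ _ hEc x hx) (mul_mem hdiv (HK_stable F hJ _ ⟨q0, rfl⟩ x hx))

end

end Pool.Agent.E8helper43.KE
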