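import Pool.Agent.E8helper43.KE.Two

/-!
# Plane Keller maps and rational vector fields: two terms
-/

set_option autoImplicit false
set_option linter.unusedSectionVars false

open MvPolynomial Pool.Agent.H928R2.Inv Pool.Agent.H928R2.Pen Pool.Agent.H922R2

namespace Pool.Agent.E8helper43.KE

section
variable {k : Type*} [Field k] [CharZero k]

/-- the divergence of a rational vector field -/
theorem div_frac (P Q s A B : PP k) (hs : s ≠ 0) (hB : B ≠ 0)
    (hdiv : (s * (pderiv 0 P + pderiv 1 Q) - (P * pderiv 0 s + Q * pderiv 1 s)) * B =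
      s ^ 2 * A) :
    dL 0 (ιK k P / ιK k s) + dL 1 (ιK k Q / ιK k s) = ιK k A / ιK k B := by
  have hs' : ιK k s ≠ 0 := ι_ne hs
  have hB' : ιK k B ≠ 0 := ι_ne hB
  rw [Derivation.leibniz_div, Derivation.leibniz_div, dL_ι, dL_ι, dL_ι, dL_ι]
  simp only [smul_eq_mul]
  have h2 := congrArg (ιK k) hdiv
  simp only [map_mul, map_sub, map_add, map_pow] at h2
  rw [eq_div_iff hB']
  field_simp
  linear_combination h2

end

section
variable {k : Type*} [Field k] [CharZero k] [IsAlgClosed k]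

/-- the constants of the Hamiltonian field of a polynomial `c ∈ k[F]` such that `k[F]` contains all
polynomials in which `c` is a polynomial -/
theorem ker_of_closed (F : Fin 2 → PP k) (c : PP k)
    (hnc : ∀ a : k, c ≠ C a)
    (hcl : ∀ (h : PP k) (γ : Polynomial k), c = Polynomial.aeval h γ → h ∈ SS F) :
    ∀ x : KK k, HK c x = 0 → x ∈ fF (KK k) F := by
  obtain ⟨A, B, h, r, H, hr, hH⟩ := exists_fib c hnc
  have hDc : dd A B c = 0 := by
    rw [← DK_zero_iff]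
    have h1 := hH (ιK k c)
    rw [HK_coe, DJ_self, map_zero] at h1
    exact (mul_eq_zero.1 h1.symm).resolve_left hr
  obtain ⟨γ, hγ⟩ := H.ker c hDc
  have hh : h ∈ SS F := hcl h γ hγ
  intro x hx
  rw [hH] at hx
  have h1 := (H.kerK x).1 ((mul_eq_zero.1 hx).resolve_left hr)
  have h2 : IntermediateField.adjoin k {ιK k h} ≤ fF (KK k) F := by
    rw [IntermediateField.adjoin_simple_le_iff]
    exact ι_mem_fF F h hh
  exact h2 h1

/-- the general principle for `E = (P ∂_x + Q ∂_y) / s` -/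
theorem two_frac (F : Fin 2 → PP k) (hJ : IsUnit (Matrix.det (jac F))) (c : PP k) (hcS : c ∈ SS F)
    (hnc : ∀ a : k, c ≠ C a)
    (hcl : ∀ (h : PP k) (γ : Polynomial k), c = Polynomial.aeval h γ → h ∈ SS F)
    (P Q s p1 q1 p2 q2 : PP k) (hs : s ≠ 0) (hq1 : q1 ≠ 0) (hq2 : q2 ≠ 0)
    (hE : (P * pderiv 0 c + Q * pderiv 1 c) * aeval F q1 = s * aeval F p1)
    (hdiv : (s * (pderiv 0 P + pderiv 1 Q) - (P * pderiv 0 s + Q * pderiv 1 s)) * aeval F q2 =
      s ^ 2 * aeval F p2) :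
    ∀ x ∈ fF (KK k) F, VK (ιK k P / ιK k s) (ιK k Q / ιK k s) x ∈ fF (KK k) F := by
  apply two_stable F hJ c hcS hnc (ker_of_closed F c hnc hcl)
  · rw [VK_coe]
    have h1 : ιK k (P * pderiv 0 c + Q * pderiv 1 c) / ιK k s =
        ιK k (aeval F p1) / ιK k (aeval F q1) := by
      rw [div_eq_div_iff (ι_ne hs) (ι_ne (aeval_unit F hJ hq1)), ← map_mul, ← map_mul, hE,
        mul_comm]
    rw [h1]
    exact div_mem (ι_mem_fF F _ ⟨p1, rfl⟩) (ι_mem_fF F _ ⟨q1, rfl⟩)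
  · rw [div_frac P Q s _ _ hs (aeval_unit F hJ hq2) hdiv]
    exact div_mem (ι_mem_fF F _ ⟨p2, rfl⟩) (ι_mem_fF F _ ⟨q2, rfl⟩)

/-- numerators and denominators -/
theorem frac_of_mem (F : Fin 2 → PP k) (hJ : IsUnit (Matrix.det (jac F))) (U s : PP k)
    (hs : s ≠ 0) (h : ιK k U / ιK k s ∈ fF (KK k) F) :
    ∃ a b : PP k, b ≠ 0 ∧ U * aeval F b = s * aeval F a := by
  obtain ⟨a, b, hab⟩ := (mem_fF_iff (KK k) F _).1 h
  by_cases hb : b = 0
  · rw [hb, map_zero, div_zero, div_eq_zero_iff] at hab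
    rcases hab with h1 | h1
    · exact ⟨0, 1, one_ne_zero, by rw [(map_eq_zero_iff _ iR_inj).1 h1]; simp⟩
    · exact absurd h1 (ι_ne hs)
  · refine ⟨a, b, hb, ?_⟩
    have hb' : ιK k (aeval F b) ≠ 0 := ι_ne (aeval_unit F hJ hb)
    have h1 : ιK k U * ιK k (aeval F b) = ιK k (aeval F a) * ιK k s :=
      (div_eq_div_iff (ι_ne hs) hb').1 hab
    rw [← map_mul, ← map_mul] at h1
    rw [iR_inj h1, mul_comm]

/-- the values of `R (P ∂_x + Q ∂_y) / s` on the components -/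
theorem vals_of_frac (F : Fin 2 → PP k) (hJ : IsUnit (Matrix.det (jac F))) (P Q R s : PP k)
    (hs : s ≠ 0)
    (h : ∀ x ∈ fF (KK k) F,
      VK (ιK k (R * P) / ιK k s) (ιK k (R * Q) / ιK k s) x ∈ fF (KK k) F) (i : Fin 2) :
    ∃ a b : PP k, b ≠ 0 ∧ R * vf P Q (F i) * aeval F b = s * aeval F a := by
  apply frac_of_mem F hJ _ s hs
  have h1 := h _ (ι_mem_fF F (F i) ⟨X i, by simp⟩)
  rw [VK_coe] at h1
  have h2 : R * vf P Q (F i) = R * P * pderiv 0 (F i) + R * Q * pderiv 1 (F i) := by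
    rw [vf_apply]; ring
  rw [h2]
  exact h1

/-- a vector field does not kill both components -/
theorem vf_ne (F : Fin 2 → PP k) (hJ : IsUnit (Matrix.det (jac F))) (P Q : PP k)
    (hPQ : P ≠ 0 ∨ Q ≠ 0) : ∃ i, vf P Q (F i) ≠ 0 := by
  by_contra hcon
  push Not at hcon
  have f0 := hcon 0
  have f1 := hcon 1
  obtain ⟨δ, hδ0, hδ⟩ := exists_det F hJ
  have hδ' : (C δ : PP k) ≠ 0 := by rw [Ne, C_eq_zero]; exact hδ0
  rw [vf_apply] at f0 f1
  rcases hPQ with hP | hQ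
  · apply hP
    apply (mul_eq_zero.1 (?_ : C δ * P = 0)).resolve_left hδ'
    rw [← hδ]
    linear_combination (pderiv 1 (F 1)) * f0 - (pderiv 1 (F 0)) * f1
  · apply hQ
    apply (mul_eq_zero.1 (?_ : C δ * Q = 0)).resolve_left hδ'
    rw [← hδ]
    linear_combination (pderiv 0 (F 0)) * f1 - (pderiv 0 (F 1)) * f0

/-- the foliation given by a rational vector field which maps `k(F)` to itself is an inverse
image -/
theorem fol_of_frac (F : Fin 2 → PP k) (hJ : IsUnit (Matrix.det (jac F))) (P Q R s : PP k)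
    (hPQ : P ≠ 0 ∨ Q ≠ 0) (hR : R ≠ 0) (hs : s ≠ 0)
    (h : ∀ x ∈ fF (KK k) F,
      VK (ιK k (R * P) / ιK k s) (ιK k (R * Q) / ιK k s) x ∈ fF (KK k) F) :
    ∃ a b : PP k, (a ≠ 0 ∨ b ≠ 0) ∧
      vf P Q (F 0) * aeval F b = vf P Q (F 1) * aeval F a := by
  obtain ⟨a0, b0, hb0, e0⟩ := vals_of_frac F hJ P Q R s hs h 0
  obtain ⟨a1, b1, hb1, e1⟩ := vals_of_frac F hJ P Q R s hs h 1
  refine ⟨a0 * b1, a1 * b0, ?_, ?_⟩
  · by_contra hcon
    push Not at hcon
    have ha0 := (mul_eq_zero.1 hcon.1).resolve_right hb1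
    have ha1 := (mul_eq_zero.1 hcon.2).resolve_right hb0
    rw [ha0, map_zero, mul_zero] at e0
    rw [ha1, map_zero, mul_zero] at e1
    obtain ⟨i, hi⟩ := vf_ne F hJ P Q hPQ
    apply hi
    fin_cases i
    · exact (mul_eq_zero.1 ((mul_eq_zero.1 e0).resolve_right
        (aeval_unit F hJ hb0))).resolve_left hR
    · exact (mul_eq_zero.1 ((mul_eq_zero.1 e1).resolve_right
        (aeval_unit F hJ hb1))).resolve_left hR
  · apply mul_left_cancel₀ (mul_ne_zero (mul_ne_zero hR (aeval_unit F hJ hb0))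
      (mul_ne_zero hs (aeval_unit F hJ hb1)))
    rw [map_mul, map_mul]
    linear_combination (s * aeval F b1 * aeval F b0 * aeval F a1) * e0 -
      (s * aeval F b1 * aeval F b0 * aeval F a0) * e1

/-- a field `R N / s`, where `N` is a normal form, which maps `k(F)` to itself -/
theorem NF.top_of_frac {P Q : PP k} (hN : NF P Q) (F : Fin 2 → PP k)
    (hJ : IsUnit (Matrix.det (jac F))) (R s : PP k) (hR : R ≠ 0) (hs : s ≠ 0)
    (h : ∀ x ∈ fF (KK k) F,
      VK (ιK k (R * P) / ιK k s) (ιK k (R * Q) / ιK k s) x ∈ fF (KK k) F) : SS F = ⊤ := by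
  obtain ⟨a, b, hab, hfol⟩ := fol_of_frac F hJ P Q R s hN.ne hR hs h
  exact hN.top_of_fol F hJ a b hab hfol

/-- the structure of the rational vector fields which map `k(F)` to itself -/
theorem structure_of_frac (F : Fin 2 → PP k) (hJ : IsUnit (Matrix.det (jac F))) (P Q R s : PP k)
    (hPQ : IsRelPrime P Q) (hRs : IsRelPrime R s) (hR : R ≠ 0) (hs : s ≠ 0)
    (h : ∀ x ∈ fF (KK k) F,
      VK (ιK k (R * P) / ιK k s) (ιK k (R * Q) / ιK k s) x ∈ fF (KK k) F) :
    (∀ i, vf P Q (F i) ∈ SS F) ∧ R ∈ SS F ∧ s ∈ SS F := by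
  have hne : P ≠ 0 ∨ Q ≠ 0 := by
    by_contra hcon
    push Not at hcon
    obtain ⟨rfl, rfl⟩ := hcon
    exact not_isUnit_zero (hPQ (dvd_refl _) (dvd_refl _))
  obtain ⟨a, b, hab, hfol⟩ := fol_of_frac F hJ P Q R s hne hR hs h
  have h1 := vf_mem_of_fol F hJ P Q hPQ a b hab hfol
  refine ⟨h1, ?_⟩
  obtain ⟨i, hi⟩ := vf_ne F hJ P Q hne
  obtain ⟨v, hv⟩ := h1 i
  replace hv : aeval F v = vf P Q (F i) := hv
  obtain ⟨a', b', hb', e⟩ := vals_of_frac F hJ P Q R s hs h i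
  have hv0 : v ≠ 0 := by
    rintro rfl
    rw [map_zero] at hv
    exact hi hv.symm
  apply mem_of_frac F hJ (p := a') (q := v * b') hRs hs (mul_ne_zero hv0 hb')
  rw [map_mul, hv]
  linear_combination e

end

end Pool.Agent.E8helper43.KE
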